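import Pool.Agent.Helper34.GX.Stm
import Pool.Graph.R_seed8.R460.GS.Props
import Pool.Graph.R_seed8.R460.GS.Fin

set_option autoImplicit false

/-!
Project GE: the equation `n = p + k p'` with primes `p`, `p'` and `k`, where `k` runs through an arbitrary set of primes
between `N ^ (1/2000)` and `N ^ (1/50)`, for almost all `n` in the residue classes modulo `q`, for the moduli
`q ≤ N ^ (49/50 - ρ)`: asymptotic formula. Definitions and the statements of the modules.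
-/

namespace Pool.Agent.Helper34.GE

open Finset
open Pool.Agent.Y883.GJ
open Pool.Agent.Y883.T3 (lsh)
open Pool.Agent.H373R2.T7 (lamz Vz pz)
open Pool.Agent.R460.GR (Bd)
open Pool.Agent.R460.GS (BdAt MajAt MinAt ShAt ApAt NcAt cv la)
open Pool.Agent.H560R3.GB (sing)
open Pool.Agent.Y883.T4 (badc)

/-- admissible coefficients: real, bounded by `1`, on the primes between `N ^ (1/2000)` and `N ^ (1/50)` -/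
structure Adm (N : ℕ) (a : ℕ → ℝ) : Prop where
  h1 : ∀ k, |a k| ≤ 1
  h2 : ∀ k, a k ≠ 0 → k.Prime ∧ (N : ℝ) ^ (1 / 2000 : ℝ) < k ∧ (k : ℝ) ≤ (N : ℝ) ^ (1 / 50 : ℝ)

/-- the convolution of `a` and `Λ` -/
noncomputable def Ea (a : ℕ → ℝ) (n : ℕ) : ℝ := ∑ k ∈ n.divisors, a k * ArithmeticFunction.vonMangoldt (n / k)

/-- the same with complex values -/
noncomputable def GM (a : ℕ → ℝ) (n : ℕ) : ℂ := ((Ea a n : ℝ) : ℂ)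

/-- the density -/
noncomputable def Sa (N : ℕ) (a : ℕ → ℝ) : ℝ := ∑ k ∈ Icc 1 N, a k / k

/-- the sieve model -/
noncomputable def HM (N : ℕ) (a : ℕ → ℝ) (z r n : ℕ) : ℂ := ((Sa N a * lsh z r n : ℝ) : ℂ)

/-- the difference -/
noncomputable def fm (N : ℕ) (a : ℕ → ℝ) (z r n : ℕ) : ℂ := GM a n - HM N a z r n

/-- the asymptotic formula for the `n`, in all windows -/
def Win (V N : ℕ) (a : ℕ → ℝ) (n : ℕ) : Prop :=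
  ∀ y : ℕ, y < n → |∑ b ∈ Icc 1 y, la b * Ea a (n - b) - sing n * Sa N a * y| ≤ N / Real.log N ^ V

/-- ESA: the density is bounded -/
def SaStm : Prop := ∃ N₀ : ℕ, ∀ N : ℕ, N₀ ≤ N → ∀ a : ℕ → ℝ, Adm N a → |Sa N a| ≤ 5

/-- EMAJ -/
def MajStm : Prop := ∀ (A C : ℕ) (ρ : ℝ), 0 < ρ → ∃ C₃ N₀ : ℕ, ∀ N : ℕ, N₀ ≤ N → ∀ a : ℕ → ℝ, Adm N a →
  MajAt N (-(7 / 25) + ρ) A C C₃ (GM a)

/-- EMIN -/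
def MinStm : Prop := ∀ (A : ℕ) (ρ : ℝ), 0 < ρ → ∃ C N₀ : ℕ, ∀ N : ℕ, N₀ ≤ N → ∀ a : ℕ → ℝ, Adm N a →
  MinAt N (-(7 / 25) + ρ) A C (GM a)

/-- EMODA: the model on the major arcs -/
def MHStm : Prop := ∀ (A C : ℕ) (ρ : ℝ), 0 < ρ → ∃ N₀ : ℕ, ∀ N : ℕ, N₀ ≤ N → ∀ s : ℝ, |s| ≤ 5 →
    ∀ (q : ℕ) [NeZero q], (q : ℝ) ≤ (N : ℝ) ^ (7 / 10 - (-(7 / 25) + ρ)) → ∀ z r : ℕ,
    ((((z + 1) ^ r) ^ 100 : ℕ) : ℝ) ≤ N → (Vz z)⁻¹ ≤ Real.log N →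
    ∀ η : ℝ, |η| ≤ Real.log N ^ C / N → ∀ y : ℕ, y ≤ N →
    ∀ S : Finset (DirichletCharacter ℂ q), 1 ∉ S →
      ∑ χ ∈ S, ‖cs q y (fun n => ((s * lsh z r n : ℝ) : ℂ)) η χ‖ ^ 2 ≤ (N : ℝ) ^ 2 / Real.log N ^ A

/-- EMODB: the model on the minor arcs -/
def NHStm : Prop := ∀ (A : ℕ) (ρ : ℝ), 0 < ρ → ∃ C N₀ : ℕ, ∀ N : ℕ, N₀ ≤ N → ∀ s : ℝ, |s| ≤ 5 → ∀ z r : ℕ,
    ((((z + 1) ^ r) ^ 100 : ℕ) : ℝ) ≤ N → (Vz z)⁻¹ ≤ Real.log N →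
    MinAt N (-(7 / 25) + ρ) A C (fun n => ((s * lsh z r n : ℝ) : ℂ))

/-- EAP: the function `Ea` in arithmetic progressions with a small difference -/
def ApmStm : Prop := ∀ K U : ℕ, ∃ N₀ : ℕ, ∀ N : ℕ, N₀ ≤ N → ∀ a : ℕ → ℝ, Adm N a →
  ∀ r : ℕ, 1 ≤ r → (r : ℝ) ≤ Real.log N ^ K →
  ∀ c y : ℕ, y ≤ N → |∑ n ∈ (Icc 1 y).filter (fun n => n ≡ c [MOD r]), Ea a n -
    (if c.Coprime r then Sa N a * y / (Nat.totient r : ℝ) else 0)| ≤ N / Real.log N ^ U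

/-- ENC: small on the integers which are not coprime to a given integer -/
def NcStm : Prop := ∀ U : ℕ, ∃ N₀ : ℕ, ∀ N : ℕ, N₀ ≤ N → ∀ a : ℕ → ℝ, Adm N a → NcAt N U (GM a)

/-- ESH: correlations of `Λ` with shifted characters -/
def ShStm : Prop := ∀ (B C T : ℕ) (ρ : ℝ), 0 < ρ → ∃ K N₀ : ℕ, ∀ N : ℕ, N₀ ≤ N →
  ShAt N (-(7 / 25) + ρ) B C T K LA

/-- ER2: bilinear sums over all characters which have no large sum -/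
def Bil4Stm : Prop := ∀ (A C : ℕ) (ρ : ℝ), 0 < ρ → ∃ K₂ K N₀ : ℕ, ∀ N : ℕ, N₀ ≤ N →
    ∀ (q : ℕ) [NeZero q], (q : ℝ) ≤ (N : ℝ) ^ (49 / 50 - ρ) → ∀ a : ℕ → ℂ,
    (∀ m ∈ Icc 1 N, ‖a m‖ ≤ Real.log N * (m.divisors.card : ℝ)) →
    (∀ m, a m ≠ 0 → (N : ℝ) ^ (1 / 2000 : ℝ) ≤ 2 * m ∧ (m : ℝ) ≤ (N : ℝ) ^ (1 / 50 : ℝ)) →
    ∀ b : ℕ → ℂ, (∀ m ∈ Icc 1 N, ‖b m‖ ≤ Real.log N * (m.divisors.card : ℝ)) →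
    ∀ η : ℝ, |η| ≤ Real.log N ^ C / N → ∀ y : ℕ, y ≤ N →
    ∀ S : Finset (DirichletCharacter ℂ q), (∀ χ ∈ S, ¬ Bd N K₂ K a q χ) →
    ‖∑ m ∈ Icc 1 y, ∑ k ∈ Icc 1 (y / m), (a m * b k) • ev S η (m * k)‖ ^ 2 ≤
      (N : ℝ) ^ 2 / Real.log N ^ A

/-- ER3: the number of the primitive characters with a large sum over one of the short classes -/
def Count4Stm : Prop := ∀ (K₂ K : ℕ), ∃ C₃ N₀ : ℕ, ∀ N : ℕ, N₀ ≤ N → ∀ a : ℕ → ℂ,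
    (∀ m ∈ Icc 1 N, ‖a m‖ ≤ Real.log N * (m.divisors.card : ℝ)) →
    (∀ m, a m ≠ 0 → (N : ℝ) ^ (1 / 2000 : ℝ) ≤ 2 * m ∧ (m : ℝ) ≤ (N : ℝ) ^ (1 / 50 : ℝ)) →
    ∀ Ψ : Finset (Σ f : ℕ, DirichletCharacter ℂ f),
    (∀ ψ ∈ Ψ, 1 ≤ ψ.1 ∧ (ψ.1 : ℝ) ≤ (N : ℝ) ^ (49 / 50 : ℝ) ∧ ψ.2.IsPrimitive ∧ Bd N K₂ K a ψ.1 ψ.2) →
    (Ψ.card : ℝ) ≤ Real.log N ^ C₃

/-- ER4: few primitive characters have a large sum with `Ea` -/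
def MG4Stm : Prop := ∀ (U : ℕ) (ρ : ℝ), 0 < ρ → ∃ C₄ N₀ : ℕ, ∀ N : ℕ, N₀ ≤ N → ∀ a : ℕ → ℝ, Adm N a →
    ∀ Ψ : Finset (Σ f : ℕ, DirichletCharacter ℂ f),
    (∀ ψ ∈ Ψ, 1 < ψ.1 ∧ (ψ.1 : ℝ) ≤ (N : ℝ) ^ (49 / 50 - ρ) ∧ ψ.2.IsPrimitive ∧
      ∃ y : ℕ, y ≤ N ∧ N / Real.log N ^ U < ‖∑ n ∈ Icc 1 y, GM a n * ψ.2 (n : ZMod ψ.1)‖) →
    (Ψ.card : ℝ) ≤ Real.log N ^ C₄

/-- EERR: the error term, classes with a small common divisor with the modulus -/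
def ErrStm : Prop := ∀ (A T U₀ : ℕ) (ρ : ℝ), 0 < ρ → ∃ B : ℕ, ∀ E : ℕ, ∃ N₀ : ℕ, ∀ N : ℕ, N₀ ≤ N → ∀ z : ℕ,
  Real.log N ^ B ≤ z → (z : ℝ) ≤ Real.log N ^ E → ∃ r : ℕ, Par U₀ N z r ∧
    ∑ n ∈ Icc 1 N, |lamz z n - lsh z r n| ≤ N / Real.log N ^ U₀ ∧
    ∀ a : ℕ → ℝ, Adm N a →
    ∀ (q : ℕ) [NeZero q], (q : ℝ) ≤ (N : ℝ) ^ (49 / 50 - ρ) → ∀ c : ZMod q,
    (Nat.gcd c.val q : ℝ) ≤ Real.log N ^ T → ∀ y₁ y₂ : ℕ, y₁ ≤ N → y₂ ≤ N →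
      ∑ n ∈ (Icc 1 (2 * N)).filter (fun n : ℕ => (n : ZMod q) = c),
        ‖cv LA (fm N a z r) y₁ y₂ n‖ ^ 2 ≤ (N : ℝ) ^ 3 / (q * Real.log N ^ A)

/-- EERRR: the error term, moduli which are not divisible by one of few large integers -/
def ErrRStm : Prop := ∀ (A U₀ : ℕ) (ρ : ℝ), 0 < ρ → ∃ c : ℕ, ∀ A₀ : ℕ, ∃ B : ℕ, ∀ E : ℕ, ∃ N₀ : ℕ, ∀ N : ℕ, N₀ ≤ N →
  ∀ a : ℕ → ℝ, Adm N a →
  ∃ D : Finset ℕ, (D.card : ℝ) ≤ Real.log N ^ c ∧ (∀ d ∈ D, Real.log N ^ A₀ < (d : ℝ)) ∧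
  ∀ z : ℕ, Real.log N ^ B ≤ z → (z : ℝ) ≤ Real.log N ^ E → ∃ r : ℕ, Par U₀ N z r ∧
    ∑ n ∈ Icc 1 N, |lamz z n - lsh z r n| ≤ N / Real.log N ^ U₀ ∧
    ∀ (q : ℕ) [NeZero q], (q : ℝ) ≤ (N : ℝ) ^ (49 / 50 - ρ) → (∀ d ∈ D, ¬ d ∣ q) → ∀ c : ZMod q,
    ∀ y₁ y₂ : ℕ, y₁ ≤ N → y₂ ≤ N →
      ∑ n ∈ (Icc 1 (2 * N)).filter (fun n : ℕ => (n : ZMod q) = c),
        ‖cv LA (fm N a z r) y₁ y₂ n‖ ^ 2 ≤ (N : ℝ) ^ 3 / (q * Real.log N ^ A)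

/-- EGRID: the asymptotic formula for one `n` and one `y` -/
def GridStm : Prop := ∀ (V E1 : ℕ), V + 8 ≤ E1 → ∃ N₀ : ℕ, ∀ N : ℕ, N₀ ≤ N → ∀ a : ℕ → ℝ, Adm N a →
    ∀ z r : ℕ, Real.log N ^ E1 ≤ z → (z : ℝ) ≤ Real.log N ^ (E1 + 1) →
    ∑ n ∈ Icc 1 N, |lamz z n - lsh z r n| ≤ N / Real.log N ^ (V + 6) →
    ∀ n : ℕ, n ≤ N → 2 ∣ n → n ≠ 0 → ∀ y : ℕ, y < n →
      ‖cv LA (fm N a z r) y N n‖ ≤ N / Real.log N ^ (V + 2) →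
      |∑ b ∈ Icc 1 y, la b * Ea a (n - b) - sing n * Sa N a * y| ≤ N / Real.log N ^ V ∧ sing n ≤ 2 * Real.log N

/-- EMAIN: the classes with a small common divisor -/
def MainStm : Prop := ∀ (ρ : ℝ), 0 < ρ → ∀ A T V : ℕ,
    ∃ N₀ : ℕ, ∀ N : ℕ, N₀ ≤ N → ∀ a : ℕ → ℝ, Adm N a →
      ∀ q : ℕ, 1 ≤ q → (q : ℝ) ≤ (N : ℝ) ^ (49 / 50 - ρ) → ∀ c : ℕ,
      (Nat.gcd c q : ℝ) ≤ Real.log N ^ T →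
        ((badc (Win V N a) N q c).card : ℝ) ≤ (N : ℝ) / (q * Real.log N ^ A)

/-- EMAINR: the regular moduli -/
def MainRStm : Prop := ∀ (ρ : ℝ), 0 < ρ → ∀ A V : ℕ, ∃ c : ℕ, ∀ A₀ : ℕ,
    ∃ N₀ : ℕ, ∀ N : ℕ, N₀ ≤ N → ∀ a : ℕ → ℝ, Adm N a → ∃ D : Finset ℕ, (D.card : ℝ) ≤ Real.log N ^ c ∧
      (∀ d ∈ D, Real.log N ^ A₀ < (d : ℝ)) ∧
      ∀ q : ℕ, 1 ≤ q → (q : ℝ) ≤ (N : ℝ) ^ (49 / 50 - ρ) → (∀ d ∈ D, ¬ d ∣ q) → ∀ c : ℕ,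
        ((badc (Win V N a) N q c).card : ℝ) ≤ (N : ℝ) / (q * Real.log N ^ A)

end Pool.Agent.Helper34.GE
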