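import Pool.Graph.R_seed8.R460.GH.NL
import Pool.Agent.Helper34.GE.Stm

set_option autoImplicit false

/-! Module EMIN (helper40): the convolution on the minor arcs. Adapted from `GX/Min` (helper11). -/

namespace Pool.Agent.Helper34.GE

open Finset
open Pool.Agent.R460.GS (norm_ev1 MinAt)
open Pool.Agent.R460.GH (bil_min2)
open Pool.Agent.Y883.GJ
open Pool.Agent.H807R2.Dav (ee)
open Pool.Agent.Y614.GJ.Core (ev_log)

/-- the sum of a convolution as a double sum -/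
lemma conv_vec {V : Type*} [AddCommGroup V] [Module ℂ V] (e : ℕ → V) (a b : ℕ → ℂ) (y : ℕ) :
    ∑ n ∈ Icc 1 y, (∑ k ∈ n.divisors, a k * b (n / k)) • e n =
      ∑ m ∈ Icc 1 y, ∑ k ∈ Icc 1 (y / m), (a m * b k) • e (m * k) := by
  have h1 : ∑ n ∈ Icc 1 y, (∑ k ∈ n.divisors, a k * b (n / k)) • e n =
      ∑ n ∈ Icc 1 y, ∑ k ∈ n.divisors, (a k * b (n / k)) • e n :=
    sum_congr rfl fun n _ => sum_smul
  rw [h1, sum_comm' (s' := fun m => (Icc 1 y).filter (fun n => m ∣ n)) (t' := Icc 1 y) (by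
    intro n k
    rw [mem_Icc, Nat.mem_divisors, mem_filter, mem_Icc, mem_Icc]
    constructor
    · rintro ⟨⟨h2, h3⟩, h4, h5⟩
      exact ⟨⟨⟨h2, h3⟩, h4⟩, Nat.pos_of_dvd_of_pos h4 h2, (Nat.le_of_dvd h2 h4).trans h3⟩
    · rintro ⟨⟨⟨h2, h3⟩, h4⟩, -, -⟩
      exact ⟨⟨h2, h3⟩, h4, by omega⟩)]
  refine sum_congr rfl fun m hm => ?_
  rw [mem_Icc] at hm
  symm
  refine sum_nbij' (fun k => m * k) (fun n => n / m) ?_ ?_ ?_ ?_ ?_
  · intro k hk
    rw [mem_Icc] at hk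
    rw [mem_filter, mem_Icc]
    refine ⟨⟨Nat.mul_pos (by omega) hk.1, ?_⟩, Dvd.intro _ rfl⟩
    calc m * k ≤ m * (y / m) := Nat.mul_le_mul_left m hk.2
      _ ≤ y := Nat.mul_div_le y m
  · intro n hn
    rw [mem_filter, mem_Icc] at hn
    rw [mem_Icc]
    exact ⟨Nat.div_pos (Nat.le_of_dvd hn.1.1 hn.2) hm.1, Nat.div_le_div_right hn.1.2⟩
  · intro k _
    exact Nat.mul_div_cancel_left k hm.1
  · intro n hn
    rw [mem_filter] at hn
    exact Nat.mul_div_cancel' hn.2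
  · intro k _
    rw [Nat.mul_div_cancel_left k hm.1]

lemma GM_eq (a : ℕ → ℝ) (n : ℕ) :
    GM a n = ∑ k ∈ n.divisors, (a k : ℂ) * ((ArithmeticFunction.vonMangoldt (n / k) : ℝ) : ℂ) := by
  unfold GM Ea
  push_cast
  rfl

lemma cs_vec (a : ℕ → ℝ) (q : ℕ) [NeZero q] (y : ℕ) (β : ℝ) (S : Finset (DirichletCharacter ℂ q)) :
    ∑ χ ∈ S, ‖cs q y (GM a) β χ‖ ^ 2 = ‖∑ m ∈ Icc 1 y, ∑ k ∈ Icc 1 (y / m),
      ((a m : ℂ) * ((ArithmeticFunction.vonMangoldt k : ℝ) : ℂ)) • ev S β (m * k)‖ ^ 2 := by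
  rw [← conv_vec (ev S β) (fun m => (a m : ℂ)) (fun k => ((ArithmeticFunction.vonMangoldt k : ℝ) : ℂ)) y]
  have h1 : ∑ n ∈ Icc 1 y, (∑ k ∈ n.divisors, (fun m => (a m : ℂ)) k *
      (fun k => ((ArithmeticFunction.vonMangoldt k : ℝ) : ℂ)) (n / k)) • ev S β n =
      ∑ n ∈ Icc 1 y, (GM a n) • ev S β n :=
    sum_congr rfl fun n _ => by rw [GM_eq]
  rw [h1, norm_ev1 S β (Icc 1 y) (fun n => GM a n) (fun n => n)]
  refine sum_congr rfl fun χ _ => ?_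
  unfold cs
  congr 2
  refine sum_congr rfl fun n _ => ?_
  ring

theorem emin (hB : BilMinStm) : MinStm := by
  intro A ρ hρ
  obtain ⟨K, hK⟩ := hB
  obtain ⟨C, hC⟩ : ∃ C, C = (A + 2) + 4 := ⟨_, rfl⟩
  obtain ⟨s, hs⟩ : ∃ s : ℝ, s = min (ρ / 2) (1 / 2000) := ⟨_, rfl⟩
  have hs0 : 0 < s := by rw [hs]; exact lt_min (by positivity) (by norm_num)
  have hs1 : s ≤ ρ / 2 := by rw [hs]; exact min_le_left _ _
  have hs2 : s ≤ 1 / 2000 := by rw [hs]; exact min_le_right _ _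
  obtain ⟨N₃, hN₃⟩ := Filter.eventually_atTop.1 (ev_log (C + 9) (s := s) hs0 (1400000000000 + 288 * |K|))
  refine ⟨C, max N₃ 64, fun N hN a ha q _ hq k h β hk1 hk2 hcop hβ y hy => ?_⟩
  have hNN₃ : N₃ ≤ N := le_trans (le_max_left _ _) hN
  have hN64 : 64 ≤ N := le_trans (le_max_right _ _) hN
  have hN1 : 1 ≤ N := by omega
  obtain ⟨hL16, hLp⟩ := hN₃ N hNN₃
  have hN0 : (0 : ℝ) < N := by exact_mod_cast hN1
  have hNr1 : (1 : ℝ) ≤ N := by exact_mod_cast hN1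
  have hq0 : (0 : ℝ) < q := by exact_mod_cast NeZero.pos q
  have hq1 : (1 : ℝ) ≤ q := by exact_mod_cast NeZero.pos q
  have hKa := abs_nonneg K
  have hq' : (q : ℝ) ≤ (N : ℝ) ^ (49 / 50 - ρ) := by
    have e : (7 / 10 - (-(7 / 25) + ρ) : ℝ) = 49 / 50 - ρ := by ring
    rw [e] at hq
    exact hq
  obtain ⟨W, hW⟩ : ∃ W : ℕ, W = ⌊(N : ℝ) ^ (1 / 2000 : ℝ)⌋₊ := ⟨_, rfl⟩
  obtain ⟨Z, hZ⟩ : ∃ Z : ℕ, Z = ⌊(N : ℝ) ^ (1 / 50 : ℝ)⌋₊ := ⟨_, rfl⟩
  have hW1 : 1 ≤ W := by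
    rw [hW]
    exact Nat.le_floor (by
      rw [Nat.cast_one]
      exact Real.one_le_rpow hNr1 (by norm_num))
  have hW1r : (1 : ℝ) ≤ W := by exact_mod_cast hW1
  have hWle : (W : ℝ) ≤ (N : ℝ) ^ (1 / 2000 : ℝ) := by
    rw [hW]
    exact Nat.floor_le (by positivity)
  have hWge : (N : ℝ) ^ (1 / 2000 : ℝ) ≤ 2 * W := by
    have : (N : ℝ) ^ (1 / 2000 : ℝ) < (W : ℝ) + 1 := by
      rw [hW]
      exact Nat.lt_floor_add_one _
    linarith
  have hZr : (Z : ℝ) ≤ (N : ℝ) ^ (1 / 50 : ℝ) := by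
    rw [hZ]
    exact Nat.floor_le (by positivity)
  have hZN : Z ≤ N := by
    have : (Z : ℝ) ≤ N := hZr.trans (by
      calc (N : ℝ) ^ (1 / 50 : ℝ) ≤ (N : ℝ) ^ (1 : ℝ) :=
            Real.rpow_le_rpow_of_exponent_le hNr1 (by norm_num)
        _ = N := Real.rpow_one _)
    exact_mod_cast this
  obtain ⟨L, hL⟩ : ∃ L, L = Real.log (N : ℝ) := ⟨_, rfl⟩
  rw [← hL] at hk1 hk2 hLp hL16 ⊢
  have hL0 : 0 < L := by linarith
  have hL1 : 1 ≤ L := by linarith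
  have hLC1 : 1 ≤ L ^ C := one_le_pow₀ hL1
  have hk0 : (0 : ℝ) < k := lt_of_lt_of_le (by positivity) hk1
  have hkn : 1 ≤ k := by exact_mod_cast hk0
  have hkN : k ≤ N := by
    have : (k : ℝ) ≤ N := by
      calc (k : ℝ) = 1 * k * 1 := by ring
        _ ≤ q * k * L ^ C := by gcongr
        _ ≤ N := hk2
    exact_mod_cast this
  obtain ⟨X, hX⟩ : ∃ X, X = N / L ^ C := ⟨_, rfl⟩
  have hqk : (q : ℝ) * k ≤ X := by
    rw [hX, le_div_iff₀ (by positivity)]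
    exact hk2
  have hNk : (N : ℝ) / k ≤ X := by
    rw [hX]
    gcongr
  have hLC : L ^ C ≤ (N : ℝ) ^ s := (pow_le_pow_right₀ hL1 (by omega)).trans hLp
  have hqZ : (q : ℝ) * Z ≤ X := by
    rw [hX, le_div_iff₀ (by positivity)]
    calc (q : ℝ) * Z * L ^ C ≤ (N : ℝ) ^ (49 / 50 - ρ) * (N : ℝ) ^ (1 / 50 : ℝ) * (N : ℝ) ^ s := by
          gcongr
      _ = (N : ℝ) ^ (49 / 50 - ρ + 1 / 50 + s) := by
          rw [← Real.rpow_add hN0, ← Real.rpow_add hN0]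
      _ ≤ (N : ℝ) ^ (1 : ℝ) := Real.rpow_le_rpow_of_exponent_le hNr1 (by linarith)
      _ = N := Real.rpow_one _
  have hNW : (N : ℝ) / W ≤ X := by
    rw [hX, div_le_div_iff₀ (by positivity) (by positivity)]
    have : L ^ C ≤ W := by
      have h2 : L ^ (C + 9) ≤ 2 * W :=
        hLp.trans ((Real.rpow_le_rpow_of_exponent_le hNr1 hs2).trans hWge)
      have h3 : 2 * L ^ C ≤ L ^ (C + 9) := by
        calc 2 * L ^ C ≤ L * L ^ C := by gcongr; linarith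
          _ = L ^ (C + 1) := by ring
          _ ≤ _ := pow_le_pow_right₀ hL1 (by omega)
      linarith
    gcongr
  have hmain := bil_min2 hK (A' := A + 2) (a := fun m => (a m : ℂ))
    (b := fun k => ((2 / L : ℝ) : ℂ) * ((ArithmeticFunction.vonMangoldt k : ℝ) : ℂ)) hL hN1 hy hW1 hZN
    (fun m hm => by
      have hm' : a m ≠ 0 := by
        intro h0
        apply hm
        show ((a m : ℝ) : ℂ) = 0
        rw [h0, Complex.ofReal_zero]
      obtain ⟨-, h3, h4⟩ := ha.h2 m hm'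
      refine ⟨?_, ?_⟩
      · exact_mod_cast hWle.trans_lt h3
      · rw [hZ]
        exact Nat.le_floor h4)
    (fun m => by
      rw [Complex.norm_real]
      exact ha.h1 m)
    (fun m hm => by
      rw [norm_mul, Complex.norm_real, Complex.norm_real, Real.norm_eq_abs, Real.norm_eq_abs,
        abs_of_pos (by positivity : (0 : ℝ) < 2 / L),
        abs_of_nonneg ArithmeticFunction.vonMangoldt_nonneg]
      rw [mem_Icc] at hm
      have h3 : ArithmeticFunction.vonMangoldt m ≤ L := by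
        refine ArithmeticFunction.vonMangoldt_le_log.trans ?_
        rw [hL]
        exact Real.log_le_log (by exact_mod_cast hm.1) (by exact_mod_cast hm.2)
      calc 2 / L * ArithmeticFunction.vonMangoldt m ≤ 2 / L * L := by gcongr
        _ = 2 := by field_simp)
    hkn hkN hcop hβ hX (by linarith) (by linarith) hC hqZ hqk hNk hNW
  rw [cs_vec]
  have e : ∑ m ∈ Icc 1 y, ∑ k ∈ Icc 1 (y / m),
      ((a m : ℂ) * (((2 / L : ℝ) : ℂ) * ((ArithmeticFunction.vonMangoldt k : ℝ) : ℂ))) •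
        ev (univ : Finset (DirichletCharacter ℂ q)) β (m * k) =
      ((2 / L : ℝ) : ℂ) • ∑ m ∈ Icc 1 y, ∑ k ∈ Icc 1 (y / m),
      ((a m : ℂ) * ((ArithmeticFunction.vonMangoldt k : ℝ) : ℂ)) •
        ev (univ : Finset (DirichletCharacter ℂ q)) β (m * k) := by
    rw [smul_sum]
    refine sum_congr rfl fun m _ => ?_
    rw [smul_sum]
    refine sum_congr rfl fun k _ => ?_
    rw [smul_smul]
    congr 1
    ring
  rw [e, norm_smul, mul_pow, Complex.norm_real, Real.norm_eq_abs, sq_abs] at hmain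
  set T := ‖∑ m ∈ Icc 1 y, ∑ k ∈ Icc 1 (y / m),
      ((a m : ℂ) * ((ArithmeticFunction.vonMangoldt k : ℝ) : ℂ)) •
        ev (univ : Finset (DirichletCharacter ℂ q)) β (m * k)‖ ^ 2 with hT
  have h5 : T ≤ (L / 2) ^ 2 * ((N : ℝ) ^ 2 / L ^ (A + 2)) := by
    have h6 : T = (L / 2) ^ 2 * ((2 / L) ^ 2 * T) := by
      field_simp
    rw [h6]
    gcongr
  refine h5.trans ?_
  have h7 : (L / 2) ^ 2 * ((N : ℝ) ^ 2 / L ^ (A + 2)) = (N : ℝ) ^ 2 / L ^ A / 4 := by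
    rw [pow_add]
    field_simp
    ring
  rw [h7]
  have h8 : 0 ≤ (N : ℝ) ^ 2 / L ^ A := by positivity
  linarith

end Pool.Agent.Helper34.GE
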