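import Pool.Agent.Helper34.GE.Stm
import Pool.Agent.Helper34.GV.Cnt

set_option autoImplicit false

/-! The number of the primitive characters with a large sum over a short class. Module ER3 (helper40), adapted from `GX/R3` (helper26). -/

namespace Pool.Agent.Helper34.GE

open Finset
open Pool.Agent.H807R2.Dav (ee)
open Pool.Agent.Y883.GJ
open Pool.Agent.R460.GR (dl Bd)
open Pool.Agent.Helper34.GV (CntPStm cntP)
open Pool.Agent.Y183.GJ (ci gi Yi Xi gi_pos gi_succ gi_le lt_gi ai wn w_sum w_le decomp norm_ev sq_sum_norm)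

lemma one_count3 {k c : ℕ} (hk : 4000 ≤ k) (hc : ∀ (Q X : ℕ) (a : ℕ → ℂ) (ℓ T : ℝ), 1 ≤ X →
    1 + Real.log X ≤ ℓ → 0 < T → (∀ m ∈ Icc 1 X, ‖a m‖ ≤ ℓ * (m.divisors.card : ℝ)) →
    ∀ Ψ : Finset (Σ f : ℕ, DirichletCharacter ℂ f),
    (∀ ψ ∈ Ψ, 1 ≤ ψ.1 ∧ ψ.1 ≤ Q ∧ ψ.2.IsPrimitive ∧
      T < ‖∑ m ∈ Icc 1 X, a m * ψ.2 (m : ZMod ψ.1)‖) →
    (Ψ.card : ℝ) * T ^ (2 * k) ≤ 6 * ((X : ℝ) ^ k + (Q : ℝ) ^ 2) * X ^ k * (k * ℓ) ^ c)
    {N i K : ℕ} {δ : ℝ} (hδ : 0 < δ) (hδ1 : δ ≤ 1) (hN : 9 ≤ N)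
    (hL1 : 2000000 ≤ Real.log N)
    (hL2 : 6 * ((3 : ℝ) ^ k + 6 ^ k) * 3 ^ k * (2 * k) ^ c ≤ Real.log N)
    {a : ℕ → ℂ} (ha : ∀ m ∈ Icc 1 N, ‖a m‖ ≤ Real.log N * (m.divisors.card : ℝ))
    (ha' : ∀ m, a m ≠ 0 → (N : ℝ) ^ (1 / 2000 : ℝ) ≤ 2 * m ∧ m * m ≤ N)
    (Ψ : Finset (Σ f : ℕ, DirichletCharacter ℂ f))
    (hΨ : ∀ ψ ∈ Ψ, 1 ≤ ψ.1 ∧ (ψ.1 : ℝ) ≤ (N : ℝ) ^ (49 / 50 : ℝ) ∧ ψ.2.IsPrimitive ∧
      gi δ i * (Real.log N ^ K)⁻¹ < ‖∑ m ∈ Icc 1 (Xi δ i), ai δ a i m * ψ.2 (m : ZMod ψ.1)‖) :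
    (Ψ.card : ℝ) ≤ Real.log N ^ (2 * k * K + c + 1) := by
  obtain ⟨L, hL⟩ : ∃ L, L = Real.log (N : ℝ) := ⟨_, rfl⟩
  rw [← hL] at hL1 hL2 ha hΨ ⊢
  have hL0 : 0 < L := by linarith
  have hN0 : (0 : ℝ) < N := by
    have : (9 : ℝ) ≤ N := by exact_mod_cast hN
    linarith
  obtain ⟨g, hgd⟩ : ∃ g, g = gi δ i := ⟨_, rfl⟩
  have hg : 0 < g := by
    rw [hgd]
    exact gi_pos δ i
  by_cases htriv : ∀ m ∈ Icc 1 (Xi δ i), ai δ a i m = 0
  · have h3 : Ψ = ∅ := by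
      rw [eq_empty_iff_forall_notMem]
      intro ψ hψ
      have h4 := (hΨ ψ hψ).2.2.2
      have h2 : ∑ m ∈ Icc 1 (Xi δ i), ai δ a i m * ψ.2 (m : ZMod ψ.1) = 0 :=
        sum_eq_zero fun m hm => by rw [htriv m hm, zero_mul]
      rw [h2, norm_zero, ← hgd] at h4
      have : 0 < g * (L ^ K)⁻¹ := by positivity
      linarith
    rw [h3, card_empty, Nat.cast_zero]
    positivity
  · push Not at htriv
    obtain ⟨m, hm, hm0⟩ := htriv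
    rw [mem_Icc] at hm
    have hci : ci δ m = i := by
      by_contra h
      exact hm0 (if_neg h)
    have ham : a m ≠ 0 := by
      unfold ai at hm0
      rwa [if_pos hci] at hm0
    have hgm : g ≤ m := by
      rw [hgd, ← hci]
      exact gi_le hδ hm.1
    have hmg : (m : ℝ) ≤ gi δ (i + 1) := by
      rw [← hci]
      exact (lt_gi hδ hm.1).le
    obtain ⟨ham1, ham2⟩ := ha' m ham
    have hg3 : gi δ (i + 1) ≤ 3 * g := by
      rw [gi_succ, ← hgd, mul_comm]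
      refine mul_le_mul_of_nonneg_right ?_ hg.le
      have h3 := Real.exp_le_exp.2 hδ1
      have h4 := Real.exp_one_lt_d9
      linarith
    have hX : (Xi δ i : ℝ) ≤ 3 * g := (Nat.floor_le (gi_pos _ _).le).trans hg3
    have hX1 : 1 ≤ Xi δ i := hm.1.trans hm.2
    have hmN : (m : ℝ) * m ≤ N := by exact_mod_cast ham2
    have hXN : (Xi δ i : ℝ) ≤ N := by
      have h3 : (9 : ℝ) ≤ N := by exact_mod_cast hN
      have h4 : 3 * (m : ℝ) ≤ N := by nlinarith [sq_nonneg ((m : ℝ) - 3)]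
      linarith
    have hlog : 1 + Real.log (Xi δ i) ≤ 2 * L := by
      have : Real.log (Xi δ i) ≤ Real.log N :=
        Real.log_le_log (by exact_mod_cast hX1) hXN
      rw [← hL] at this
      linarith
    have hT : 0 < g * (L ^ K)⁻¹ := by positivity
    obtain ⟨Q, hQ⟩ : ∃ Q : ℕ, Q = ⌊(N : ℝ) ^ (49 / 50 : ℝ)⌋₊ := ⟨_, rfl⟩
    have h3 := hc Q (Xi δ i) (ai δ a i) (2 * L) (g * (L ^ K)⁻¹) hX1 hlog hT (by
      intro j hj
      rw [mem_Icc] at hj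
      unfold ai
      by_cases h : ci δ j = i
      · rw [if_pos h]
        by_cases h0 : a j = 0
        · rw [h0, norm_zero]
          positivity
        · have hj2 : j ≤ N := by
            have h4 := (ha' j h0).2
            nlinarith [hj.1]
          refine (ha j (mem_Icc.2 ⟨hj.1, hj2⟩)).trans ?_
          refine mul_le_mul_of_nonneg_right (by linarith) (Nat.cast_nonneg _)
      · rw [if_neg h, norm_zero]
        positivity) Ψ (by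
      intro ψ hψ
      obtain ⟨e1, e2, e3, e4⟩ := hΨ ψ hψ
      refine ⟨e1, ?_, e3, ?_⟩
      · rw [hQ]
        exact Nat.le_floor e2
      · rw [hgd]
        exact e4)
    obtain ⟨n, hn⟩ : ∃ n : ℝ, n = (Ψ.card : ℝ) := ⟨_, rfl⟩
    rw [← hn] at h3 ⊢
    have hn0 : 0 ≤ n := by
      rw [hn]
      exact Nat.cast_nonneg _
    have hN1 : (1 : ℝ) ≤ N := by
      have : (9 : ℝ) ≤ N := by exact_mod_cast hN
      linarith
    have hNk : (N : ℝ) ^ 2 ≤ ((N : ℝ) ^ (1 / 2000 : ℝ)) ^ k := by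
      have hk' : (4000 : ℝ) ≤ k := by exact_mod_cast hk
      calc (N : ℝ) ^ 2 = (N : ℝ) ^ (2 : ℝ) := (Real.rpow_two _).symm
        _ ≤ (N : ℝ) ^ ((1 / 2000 : ℝ) * k) := Real.rpow_le_rpow_of_exponent_le hN1 (by linarith)
        _ = _ := by rw [Real.rpow_mul hN0.le, Real.rpow_natCast]
    have hq5 : (Q : ℝ) ^ 2 ≤ 6 ^ k * g ^ k := by
      have h5 : (N : ℝ) ^ (1 / 2000 : ℝ) ≤ 6 * g := by linarith
      have h6 : (Q : ℝ) ≤ N := by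
        rw [hQ]
        calc ((⌊(N : ℝ) ^ (49 / 50 : ℝ)⌋₊ : ℕ) : ℝ) ≤ (N : ℝ) ^ (49 / 50 : ℝ) :=
              Nat.floor_le (by positivity)
          _ ≤ (N : ℝ) ^ (1 : ℝ) := Real.rpow_le_rpow_of_exponent_le hN1 (by norm_num)
          _ = N := Real.rpow_one _
      calc (Q : ℝ) ^ 2 ≤ (N : ℝ) ^ 2 := pow_le_pow_left₀ (Nat.cast_nonneg _) h6 2
        _ ≤ ((N : ℝ) ^ (1 / 2000 : ℝ)) ^ k := hNk
        _ ≤ (6 * g) ^ k := pow_le_pow_left₀ (by positivity) h5 k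
        _ = 6 ^ k * g ^ k := mul_pow _ _ _
    have hX5 : (Xi δ i : ℝ) ^ k ≤ 3 ^ k * g ^ k := by
      calc (Xi δ i : ℝ) ^ k ≤ (3 * g) ^ k := pow_le_pow_left₀ (Nat.cast_nonneg _) hX k
        _ = 3 ^ k * g ^ k := mul_pow _ _ _
    have h4 : 6 * ((Xi δ i : ℝ) ^ k + (Q : ℝ) ^ 2) * (Xi δ i : ℝ) ^ k * (k * (2 * L)) ^ c ≤
        L ^ (c + 1) * g ^ (2 * k) := by
      have h5 : ((k : ℝ) * (2 * L)) ^ c = (2 * k) ^ c * L ^ c := by
        rw [← mul_pow]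
        congr 1
        ring
      have h6 : (0 : ℝ) < g ^ k := by positivity
      calc 6 * ((Xi δ i : ℝ) ^ k + (Q : ℝ) ^ 2) * (Xi δ i : ℝ) ^ k * (k * (2 * L)) ^ c ≤
          6 * (3 ^ k * g ^ k + 6 ^ k * g ^ k) * (3 ^ k * g ^ k) * ((2 * k) ^ c * L ^ c) := by
            rw [h5]
            refine mul_le_mul_of_nonneg_right ?_ (by positivity)
            exact mul_le_mul (mul_le_mul_of_nonneg_left (add_le_add hX5 hq5) (by norm_num)) hX5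
              (by positivity) (by positivity)
        _ = (6 * ((3 : ℝ) ^ k + 6 ^ k) * 3 ^ k * (2 * k) ^ c) * (L ^ c * (g ^ k * g ^ k)) := by ring
        _ ≤ L * (L ^ c * (g ^ k * g ^ k)) := mul_le_mul_of_nonneg_right hL2 (by positivity)
        _ = L ^ (c + 1) * g ^ (2 * k) := by rw [two_mul, pow_add g, pow_succ]; ring
    have h5 : n * (g * (L ^ K)⁻¹) ^ (2 * k) ≤ L ^ (c + 1) * g ^ (2 * k) := h3.trans h4
    have h6 : (g * (L ^ K)⁻¹) ^ (2 * k) = g ^ (2 * k) * (L ^ (2 * k * K))⁻¹ := by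
      rw [mul_pow, inv_pow, ← pow_mul, mul_comm K]
    rw [h6] at h5
    have h8 : 0 < g ^ (2 * k) := by positivity
    have h9 : 0 < L ^ (2 * k * K) := by positivity
    have h10 : n * (L ^ (2 * k * K))⁻¹ ≤ L ^ (c + 1) := by
      have h11 : (n * (L ^ (2 * k * K))⁻¹) * g ^ (2 * k) ≤ L ^ (c + 1) * g ^ (2 * k) := by
        calc (n * (L ^ (2 * k * K))⁻¹) * g ^ (2 * k) = n * (g ^ (2 * k) * (L ^ (2 * k * K))⁻¹) := by
              ring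
          _ ≤ _ := h5
      exact le_of_mul_le_mul_right h11 h8
    rw [← div_eq_mul_inv, div_le_iff₀ h9] at h10
    refine h10.trans (le_of_eq ?_)
    rw [← pow_add]
    congr 1
    omega

/-- the number of the primitive characters with a large sum over one of the short classes -/
theorem er3 : Count4Stm := by
  classical
  intro K₂ K
  obtain ⟨k, hk⟩ : ∃ k : ℕ, 4000 ≤ k := ⟨4000, le_rfl⟩
  obtain ⟨c, hc⟩ := cntP k (le_trans (by norm_num) hk)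
  obtain ⟨n1, hn1⟩ := Pool.Agent.TH935.LD.ev_L'
    (2000000 + 6 * ((3 : ℝ) ^ k + 6 ^ k) * 3 ^ k * (2 * k) ^ c)
  refine ⟨2 * K₂ + 2 + (2 * k * K + c + 1), max n1 9, fun N hN a ha ha'' Ψ hΨ => ?_⟩
  have hN1 : n1 ≤ N := le_trans (le_max_left _ _) hN
  have hN9 : 9 ≤ N := le_trans (le_max_right _ _) hN
  have hNr : (9 : ℝ) ≤ N := by exact_mod_cast hN9
  have hN0 : (0 : ℝ) < N := by linarith
  have hNr1 : (1 : ℝ) ≤ N := by linarith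
  have hLL := hn1 N hN1
  have h20c : (0 : ℝ) ≤ 6 * ((3 : ℝ) ^ k + 6 ^ k) * 3 ^ k * (2 * k) ^ c := by positivity
  have ha' : ∀ m, a m ≠ 0 → (N : ℝ) ^ (1 / 2000 : ℝ) ≤ 2 * m ∧ m * m ≤ N := by
    intro m hm
    refine ⟨(ha'' m hm).1, ?_⟩
    have h3 := (ha'' m hm).2
    have h4 : (m : ℝ) * m ≤ N := by
      calc (m : ℝ) * m ≤ (N : ℝ) ^ (1 / 50 : ℝ) * (N : ℝ) ^ (1 / 50 : ℝ) :=
            mul_le_mul h3 h3 (Nat.cast_nonneg _) (by positivity)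
        _ = (N : ℝ) ^ (1 / 25 : ℝ) := by
            rw [← Real.rpow_add hN0]
            norm_num
        _ ≤ (N : ℝ) ^ (1 : ℝ) := Real.rpow_le_rpow_of_exponent_le hNr1 (by norm_num)
        _ = N := Real.rpow_one _
    exact_mod_cast h4
  obtain ⟨δ, hδd⟩ : ∃ δ : ℝ, δ = dl N K₂ := ⟨_, rfl⟩
  have hL1' : 1 ≤ Real.log N := by linarith
  have hδ : 0 < δ := by
    rw [hδd]
    unfold dl
    positivity
  have hδ1 : δ ≤ 1 := by
    rw [hδd]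
    unfold dl
    exact inv_le_one_of_one_le₀ (one_le_pow₀ hL1')
  have hone := fun (i : ℕ) (Ψ' : Finset (Σ f : ℕ, DirichletCharacter ℂ f)) hΨ' =>
    one_count3 (K := K) (i := i) hk hc hδ hδ1 hN9 (by linarith) (by linarith) ha ha' Ψ' hΨ'
  obtain ⟨L, hL⟩ : ∃ L, L = Real.log (N : ℝ) := ⟨_, rfl⟩
  obtain ⟨I, hI⟩ : ∃ I : ℕ, I = ⌊L / δ⌋₊ + 1 := ⟨_, rfl⟩
  rw [← hL] at hLL hL1' hone ⊢
  have hL0 : 0 < L := by linarith
  have hI1 : (I : ℝ) ≤ L ^ (2 * K₂ + 2) := by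
    have h3 : L / δ = L * L ^ (2 * K₂) := by
      rw [hδd, hL]
      unfold dl
      rw [div_inv_eq_mul]
    have h4 : ((⌊L / δ⌋₊ : ℕ) : ℝ) ≤ L * L ^ (2 * K₂) := by
      rw [← h3]
      exact Nat.floor_le (by positivity)
    have h5 : 1 ≤ L * L ^ (2 * K₂) := one_le_mul_of_one_le_of_one_le hL1' (one_le_pow₀ hL1')
    rw [hI]
    push_cast
    calc ((⌊L / δ⌋₊ : ℕ) : ℝ) + 1 ≤ 2 * (L * L ^ (2 * K₂)) := by linarith
      _ ≤ L * (L * L ^ (2 * K₂)) := mul_le_mul_of_nonneg_right (by linarith) (by positivity)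
      _ = L ^ (2 * K₂ + 2) := by ring
  have hsub : Ψ ⊆ (range I).biUnion (fun i => Ψ.filter (fun ψ => gi δ i * (L ^ K)⁻¹ <
      ‖∑ m ∈ Icc 1 (Xi δ i), ai δ a i m * ψ.2 (m : ZMod ψ.1)‖)) := by
    intro ψ hψ
    obtain ⟨e1, e2, e3, e4⟩ := hΨ ψ hψ
    unfold Bd at e4
    rw [← hδd, ← hL, ← hI] at e4
    obtain ⟨i, hi, hi'⟩ := e4
    rw [mem_biUnion]
    exact ⟨i, hi, mem_filter.2 ⟨hψ, hi'⟩⟩
  have h4 := (card_le_card hsub).trans card_biUnion_le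
  have h5 : (Ψ.card : ℝ) ≤ ∑ i ∈ range I, ((Ψ.filter (fun ψ => gi δ i * (L ^ K)⁻¹ <
      ‖∑ m ∈ Icc 1 (Xi δ i), ai δ a i m * ψ.2 (m : ZMod ψ.1)‖)).card : ℝ) := by
    exact_mod_cast h4
  refine h5.trans ((sum_le_sum fun i _ => hone i _ (by
    intro ψ hψ
    rw [mem_filter] at hψ
    obtain ⟨e1, e2, e3, -⟩ := hΨ ψ hψ.1
    exact ⟨e1, e2, e3, hψ.2⟩)).trans ?_)
  rw [sum_const, card_range, nsmul_eq_mul, pow_add L (2 * K₂ + 2)]
  exact mul_le_mul_of_nonneg_right hI1 (by positivity)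

end Pool.Agent.Helper34.GE
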