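import Pool.Agent.Helper34.GE.Swp

set_option autoImplicit false

/-! Project GE, module EAP (helper14): the convolution `Ea` in progressions with a small difference. -/

namespace Pool.Agent.Helper34.GE

open Finset Filter Topology
open Pool.Agent.H373R2.T7 (lam_ap)

/-- the inverse class -/
lemma inv_cls {k r c : ℕ} (hr : 1 ≤ r) (hk : k.Coprime r) :
    ∃ c' : ℕ, (c'.Coprime r ↔ c.Coprime r) ∧ ∀ m : ℕ, k * m ≡ c [MOD r] ↔ m ≡ c' [MOD r] := by
  have : NeZero r := ⟨by omega⟩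
  set c' : ℕ := ((k : ZMod r)⁻¹ * (c : ZMod r)).val with hc'
  have h1 : k * c' ≡ c [MOD r] := by
    rw [← ZMod.natCast_eq_natCast_iff]
    push_cast
    rw [hc', ZMod.natCast_zmod_val, ← mul_assoc, ZMod.coe_mul_inv_eq_one k hk, one_mul]
  refine ⟨c', ?_, fun p => ⟨fun h => ?_, fun h => ?_⟩⟩
  · have h3 : (k * c').Coprime r ↔ c.Coprime r := by
      unfold Nat.Coprime
      rw [h1.gcd_eq]
    rw [← h3]
    exact ⟨fun h => Nat.Coprime.mul_left hk h, fun h => Nat.Coprime.coprime_mul_left h⟩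
  · exact Nat.ModEq.cancel_left_of_coprime (by rw [Nat.gcd_comm]; exact hk) (h.trans h1.symm)
  · exact (h.mul_left k).trans h1

lemma ev_eap (K U N1 : ℕ) : ∀ᶠ N : ℕ in atTop, 1 ≤ N ∧ 1 ≤ Real.log N ∧ 2 ^ (K + 1) ≤ Real.log N ∧
    2 ^ (U + 4) ≤ Real.log N ∧ (N1 : ℝ) + 1 ≤ √(N : ℝ) ∧ 2 * √(N : ℝ) ≤ (N : ℝ) ^ (49 / 50 : ℝ) ∧
    Real.log N ^ K ≤ (N : ℝ) ^ (1 / 2000 : ℝ) ∧ (N : ℝ) ^ (1 / 50 : ℝ) ≤ (1 / 2) * (N / Real.log N ^ U) := by
  have hs : ∀ᶠ N : ℕ in atTop, (N1 : ℝ) + 1 ≤ √(N : ℝ) := by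
    filter_upwards [eventually_ge_atTop ((N1 + 1) ^ 2)] with N h
    apply Real.le_sqrt_of_sq_le
    exact_mod_cast h
  filter_upwards [eventually_ge_atTop 1, ev_L 1, ev_L (2 ^ (K + 1)), ev_L (2 ^ (U + 4)), hs,
    ev_lp 0 2 (12 / 25) (by norm_num), ev_lp K 1 (1 / 2000) (by norm_num), ev_lp U 2 (49 / 50) (by norm_num)]
    with N h1 h2 h3 h4 h5 h6 h7 h8
  have hN0 : (0 : ℝ) < N := by exact_mod_cast h1
  refine ⟨h1, h2, h3, h4, h5, ?_, by simpa using h7, ?_⟩
  · rw [pow_zero, mul_one] at h6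
    calc 2 * √(N : ℝ) ≤ (N : ℝ) ^ (12 / 25 : ℝ) * √(N : ℝ) := by gcongr
      _ = (N : ℝ) ^ (49 / 50 : ℝ) := by
        rw [Real.sqrt_eq_rpow, ← Real.rpow_add hN0]
        norm_num
  · have hL : 0 < Real.log N := by linarith
    rw [mul_div_assoc', le_div_iff₀ (by positivity)]
    have h9 : (N : ℝ) ^ (1 / 50 : ℝ) * (N : ℝ) ^ (49 / 50 : ℝ) = N := by
      rw [← Real.rpow_add hN0]
      norm_num
    have h10 : 0 ≤ (N : ℝ) ^ (1 / 50 : ℝ) := Real.rpow_nonneg hN0.le _
    have h11 := mul_le_mul_of_nonneg_left h8 h10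
    linarith

theorem eap : ApmStm := by
  classical
  intro K U
  obtain ⟨N1, hap⟩ := lam_ap (K + 1) (U + 2)
  obtain ⟨N₀, hN₀⟩ := eventually_atTop.1 (ev_eap K U N1)
  refine ⟨N₀, fun N hN a ha r hr hrK c y hy => ?_⟩
  obtain ⟨hN1, hL1, hLK, hLU, hs1, hs2, hK2, h50⟩ := hN₀ N hN
  obtain ⟨L, hLd⟩ : ∃ L, L = Real.log (N : ℝ) := ⟨_, rfl⟩
  rw [← hLd] at hL1 hLK hLU hK2 h50 hrK ⊢
  have hL0 : 0 < L := by linarith
  have hN0 : (0 : ℝ) < N := by exact_mod_cast hN1
  have hφ : (1 : ℝ) ≤ (Nat.totient r : ℝ) := by exact_mod_cast Nat.totient_pos.2 hr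
  obtain ⟨T, hT⟩ : ∃ T : ℝ, T = if c.Coprime r then 1 / (Nat.totient r : ℝ) else 0 := ⟨_, rfl⟩
  have hT0 : 0 ≤ T := by
    rw [hT]
    split_ifs
    · positivity
    · exact le_rfl
  have hT1 : T ≤ 1 := by
    rw [hT]
    split_ifs
    · rw [div_le_one (by linarith)]
      exact hφ
    · norm_num
  -- the swap
  have e1 : ∑ n ∈ (Icc 1 y).filter (fun n => n ≡ c [MOD r]), Ea a n =
      ∑ k ∈ Icc 1 N, ∑ m ∈ (Icc 1 (y / k)).filter (fun m => k * m ≡ c [MOD r]),
        a k * ArithmeticFunction.vonMangoldt m :=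
    swap_dvd (fun k m => a k * ArithmeticFunction.vonMangoldt m) (fun n => n ≡ c [MOD r]) hy
  have e2 : (if c.Coprime r then Sa N a * y / (Nat.totient r : ℝ) else 0) = ∑ k ∈ Icc 1 N, a k / k * (y * T) := by
    rw [← sum_mul]
    change _ = Sa N a * (y * T)
    rw [hT]
    split_ifs
    · ring
    · ring
  rw [e1, e2, ← sum_sub_distrib]
  -- one `k`
  have h1 : ∀ k ∈ Icc 1 N, |∑ m ∈ (Icc 1 (y / k)).filter (fun m => k * m ≡ c [MOD r]),
        a k * ArithmeticFunction.vonMangoldt m - a k / k * (y * T)| ≤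
      2 ^ (U + 2) * (N / L ^ (U + 2)) * (1 / k) + (if a k ≠ 0 then 1 else 0) := by
    intro k hk
    have hk1 : 1 ≤ k := (mem_Icc.1 hk).1
    have hk0 : (0 : ℝ) < k := by exact_mod_cast hk1
    by_cases hak : a k = 0
    · rw [if_neg (by simpa using hak)]
      simp only [hak, zero_mul, sum_const_zero, zero_div, sub_zero, abs_zero]
      positivity
    rw [if_pos hak]
    obtain ⟨hkp, hk2, hk3⟩ := ha.h2 k hak
    -- the length
    obtain ⟨M, hM⟩ : ∃ M, M = N / k := ⟨_, rfl⟩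
    have hNk : (N : ℝ) ^ (49 / 50 : ℝ) ≤ N / k := by
      rw [le_div_iff₀ hk0]
      calc (N : ℝ) ^ (49 / 50 : ℝ) * k ≤ (N : ℝ) ^ (49 / 50 : ℝ) * (N : ℝ) ^ (1 / 50 : ℝ) := by gcongr
        _ = N := by
          rw [← Real.rpow_add hN0]
          norm_num
    have hMk : (M : ℝ) ≤ N / k := by
      rw [hM]
      exact Nat.cast_div_le
    have hMk' : (N : ℝ) / k < M + 1 := by
      rw [hM]
      exact lt_div_succ hk1
    have hMs : √(N : ℝ) ≤ M := by
      have := Nat.cast_nonneg (α := ℝ) N1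
      linarith
    have hMN1 : N1 ≤ M := by
      have : (N1 : ℝ) ≤ M := by linarith
      exact_mod_cast this
    have hM0 : (0 : ℝ) < M := by
      have := Nat.cast_nonneg (α := ℝ) N1
      linarith
    have hlM : L / 2 ≤ Real.log M := by
      have h2 := Real.log_le_log (by
        have := Nat.cast_nonneg (α := ℝ) N1
        linarith) hMs
      rw [Real.log_sqrt hN0.le, ← hLd] at h2
      exact h2
    have hlM0 : 0 < Real.log M := by linarith
    have hrM : (r : ℝ) ≤ Real.log M ^ (K + 1) := by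
      calc (r : ℝ) ≤ L ^ K := hrK
        _ = 2 ^ K * (L / 2) ^ K := by rw [← mul_pow]; ring_nf
        _ ≤ Real.log M * Real.log M ^ K := by
          have h3 : (2 : ℝ) ^ K ≤ Real.log M := by
            rw [pow_succ] at hLK
            linarith
          gcongr
        _ = _ := by ring
    have hkr : k.Coprime r := by
      rw [Nat.Prime.coprime_iff_not_dvd hkp]
      intro h
      have h3 := Nat.le_of_dvd hr h
      have h4 : (k : ℝ) ≤ r := by exact_mod_cast h3
      linarith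
    obtain ⟨c', hc1, hc2⟩ := inv_cls (c := c) hr hkr
    have hyM : y / k ≤ M := by
      rw [hM]
      exact Nat.div_le_div_right hy
    have h5 := hap M hMN1 r hr hrM c' (y / k) hyM
    have e3 : (if c'.Coprime r then ((y / k : ℕ) : ℝ) / (Nat.totient r : ℝ) else 0) = ((y / k : ℕ) : ℝ) * T := by
      rw [hT]
      by_cases hc : c.Coprime r
      · rw [if_pos hc, if_pos (hc1.2 hc)]
        ring
      · rw [if_neg hc, if_neg (fun h => hc (hc1.1 h)), mul_zero]
    rw [e3] at h5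
    have e4 : ∑ m ∈ (Icc 1 (y / k)).filter (fun m => k * m ≡ c [MOD r]), a k * ArithmeticFunction.vonMangoldt m =
        a k * ∑ n ∈ (Icc 1 (y / k)).filter (fun n => n ≡ c' [MOD r]), ArithmeticFunction.vonMangoldt n := by
      rw [mul_sum]
      refine sum_congr (filter_congr fun m _ => ?_) fun _ _ => rfl
      exact hc2 m
    have e5 : a k * ∑ n ∈ (Icc 1 (y / k)).filter (fun n => n ≡ c' [MOD r]), ArithmeticFunction.vonMangoldt n -
        a k / k * (y * T) =
        a k * ((∑ n ∈ (Icc 1 (y / k)).filter (fun n => n ≡ c' [MOD r]), ArithmeticFunction.vonMangoldt n -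
          ((y / k : ℕ) : ℝ) * T) + (((y / k : ℕ) : ℝ) - y / k) * T) := by
      field_simp
      ring
    have h6 : |(((y / k : ℕ) : ℝ) - y / k) * T| ≤ 1 := by
      have h7 : ((y / k : ℕ) : ℝ) ≤ (y : ℝ) / k := Nat.cast_div_le
      have h8 : (y : ℝ) / k < ((y / k : ℕ) : ℝ) + 1 := lt_div_succ hk1
      rw [abs_mul, abs_of_nonneg hT0]
      have h9 : |(((y / k : ℕ) : ℝ) - y / k)| ≤ 1 := by
        rw [abs_le]
        constructor <;> linarith
      calc |(((y / k : ℕ) : ℝ) - y / k)| * T ≤ 1 * 1 := by gcongr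
        _ = 1 := one_mul 1
    have h7 : (M : ℝ) / Real.log M ^ (U + 2) ≤ 2 ^ (U + 2) * (N / L ^ (U + 2)) * (1 / k) := by
      calc (M : ℝ) / Real.log M ^ (U + 2) ≤ (N / k) / (L / 2) ^ (U + 2) := by
            apply div_le_div₀ (by positivity) hMk (by positivity)
            gcongr
        _ = 2 ^ (U + 2) * (N / L ^ (U + 2)) * (1 / k) := by
            rw [div_pow]
            field_simp
    rw [e4, e5, abs_mul]
    refine (mul_le_of_le_one_left (abs_nonneg _) (ha.h1 k)).trans ?_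
    refine (abs_add_le _ _).trans ?_
    exact add_le_add (h5.trans h7) h6
  refine (abs_sum_le_sum_abs _ _).trans ((sum_le_sum h1).trans ?_)
  rw [sum_add_distrib, ← mul_sum, sum_ite, sum_const_zero, add_zero, sum_const, nsmul_eq_mul, mul_one]
  have h2 := harm N
  have h3 := supp_card ha
  rw [← hLd] at h2
  have h4 : 2 ^ (U + 2) * (N / L ^ (U + 2)) * ∑ k ∈ Icc 1 N, (1 : ℝ) / k ≤ (1 / 2) * (N / L ^ U) := by
    calc 2 ^ (U + 2) * (N / L ^ (U + 2)) * ∑ k ∈ Icc 1 N, (1 : ℝ) / k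
        ≤ 2 ^ (U + 2) * (N / L ^ (U + 2)) * (2 * L) := by
          apply mul_le_mul_of_nonneg_left _ (by positivity)
          linarith
      _ = (2 ^ (U + 4) / L) * ((1 / 2) * (N / L ^ U)) := by
          rw [pow_add L, pow_add 2 U 4, pow_add 2 U 2]
          field_simp
      _ ≤ 1 * ((1 / 2) * (N / L ^ U)) := by
          apply mul_le_mul_of_nonneg_right _ (by positivity)
          rw [div_le_one hL0]
          exact hLU
      _ = _ := one_mul _
  linarith

end Pool.Agent.Helper34.GE
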