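import Pool.Graph.R_seed8.R460.GH.ML
import Pool.Agent.Helper34.GE.Stm

set_option autoImplicit false

/-! EMAJ: the function `Ea` on the major arcs. -/

namespace Pool.Agent.Helper34.GE

open Finset
open Pool.Agent.R460.GS (norm_ev1 MajAt)
open Pool.Agent.R460.GH (BilMaj3Stm)
open Pool.Agent.Y883.GJ
open Pool.Agent.H807R2.Dav (ee)
open Pool.Agent.Y614.GJ.Core (ev_log)

/-- sums over the divisors -/
lemma swap_div {V : Type*} [AddCommMonoid V] (f : ℕ → ℕ → V) (y : ℕ) :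
    ∑ n ∈ Icc 1 y, ∑ k ∈ n.divisors, f k (n / k) = ∑ m ∈ Icc 1 y, ∑ k ∈ Icc 1 (y / m), f m k := by
  rw [sum_sigma', sum_sigma']
  refine sum_nbij' (fun x => ⟨x.2, x.1 / x.2⟩) (fun x => ⟨x.1 * x.2, x.1⟩) ?_ ?_ ?_ ?_ ?_
  · rintro ⟨n, k⟩ h
    rw [mem_sigma, mem_Icc, Nat.mem_divisors] at h
    obtain ⟨⟨h1, h2⟩, h3, h4⟩ := h
    dsimp only at h1 h2 h3 h4
    obtain ⟨l, rfl⟩ := h3
    have hk : 0 < k := Nat.pos_of_ne_zero (fun h0 => h4 (by rw [h0, zero_mul]))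
    have hl : 0 < l := Nat.pos_of_ne_zero (fun h0 => h4 (by rw [h0, mul_zero]))
    rw [mem_sigma, mem_Icc, mem_Icc]
    dsimp only
    rw [Nat.mul_div_cancel_left _ hk, Nat.le_div_iff_mul_le hk]
    refine ⟨⟨hk, (Nat.le_mul_of_pos_right _ hl).trans h2⟩, hl, ?_⟩
    rw [mul_comm]
    exact h2
  · rintro ⟨m, k⟩ h
    rw [mem_sigma, mem_Icc, mem_Icc] at h
    obtain ⟨⟨h1, h2⟩, h3, h4⟩ := h
    dsimp only at h1 h2 h3 h4
    rw [Nat.le_div_iff_mul_le (by omega)] at h4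
    rw [mem_sigma, mem_Icc, Nat.mem_divisors]
    dsimp only
    refine ⟨⟨Nat.mul_pos h1 h3, ?_⟩, Dvd.intro _ rfl, (Nat.mul_pos h1 h3).ne'⟩
    rw [mul_comm]
    exact h4
  · rintro ⟨n, k⟩ h
    rw [mem_sigma, mem_Icc, Nat.mem_divisors] at h
    obtain ⟨⟨h1, h2⟩, h3, h4⟩ := h
    dsimp only at h1 h2 h3 h4
    dsimp only
    rw [Nat.mul_div_cancel' h3]
  · rintro ⟨m, k⟩ h
    rw [mem_sigma, mem_Icc, mem_Icc] at h
    obtain ⟨⟨h1, h2⟩, h3, h4⟩ := h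
    dsimp only at h1 h2 h3 h4
    dsimp only
    rw [Nat.mul_div_cancel_left _ h1]
  · rintro ⟨n, k⟩ h
    rfl

/-- the coefficients of the bilinear sum -/
noncomputable def aC (a : ℕ → ℝ) (m : ℕ) : ℂ := ((a m : ℝ) : ℂ)

/-- the second coefficients -/
noncomputable def lC (m : ℕ) : ℂ := ((ArithmeticFunction.vonMangoldt m : ℝ) : ℂ)

lemma maj_GM_eq (a : ℕ → ℝ) (n : ℕ) : GM a n = ∑ k ∈ n.divisors, aC a k * lC (n / k) := by
  unfold GM Ea aC lC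
  push_cast
  rfl

/-- the bilinear sum -/
lemma GM_bil {V : Type*} [AddCommGroup V] [Module ℂ V] (a : ℕ → ℝ) (e : ℕ → V) (y : ℕ) :
    ∑ n ∈ Icc 1 y, (GM a n) • e n = ∑ m ∈ Icc 1 y, ∑ k ∈ Icc 1 (y / m), (aC a m * lC k) • e (m * k) := by
  rw [← swap_div (fun m k => (aC a m * lC k) • e (m * k))]
  refine sum_congr rfl fun n _ => ?_
  rw [maj_GM_eq, sum_smul]
  refine sum_congr rfl fun k hk => ?_
  rw [Nat.mul_div_cancel' (Nat.dvd_of_mem_divisors hk)]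

/-- the characters and the vectors -/
lemma GM_cs {q : ℕ} [NeZero q] (a : ℕ → ℝ) (S : Finset (DirichletCharacter ℂ q)) (β : ℝ) (y : ℕ) :
    ∑ χ ∈ S, ‖cs q y (GM a) β χ‖ ^ 2 =
      ‖∑ m ∈ Icc 1 y, ∑ k ∈ Icc 1 (y / m), (aC a m * lC k) • ev S β (m * k)‖ ^ 2 := by
  rw [← GM_bil a (ev S β) y, norm_ev1 S β (Icc 1 y) (fun n => GM a n) (fun n => n)]
  refine sum_congr rfl fun χ _ => ?_
  unfold cs
  congr 2
  refine sum_congr rfl fun n _ => ?_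
  ring

lemma aC_bd {N : ℕ} {a : ℕ → ℝ} (ha : Adm N a) (hL : 1 ≤ Real.log N) {m : ℕ} (hm : m ∈ Icc 1 N) :
    ‖aC a m‖ ≤ Real.log N * (m.divisors.card : ℝ) := by
  have h1 : (1 : ℝ) ≤ (m.divisors.card : ℝ) := by
    have : 0 < m.divisors.card := card_pos.2 ⟨1, Nat.one_mem_divisors.2 (by
      rw [mem_Icc] at hm
      omega)⟩
    exact_mod_cast this
  unfold aC
  rw [Complex.norm_real, Real.norm_eq_abs]
  have := ha.h1 m
  nlinarith

lemma lC_bd {N m : ℕ} (hL : 1 ≤ Real.log N) (hm : m ∈ Icc 1 N) :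
    ‖lC m‖ ≤ Real.log N * (m.divisors.card : ℝ) := by
  have h1 : (1 : ℝ) ≤ (m.divisors.card : ℝ) := by
    have : 0 < m.divisors.card := card_pos.2 ⟨1, Nat.one_mem_divisors.2 (by
      rw [mem_Icc] at hm
      omega)⟩
    exact_mod_cast this
  rw [mem_Icc] at hm
  unfold lC
  rw [Complex.norm_real, Real.norm_eq_abs, abs_of_nonneg ArithmeticFunction.vonMangoldt_nonneg]
  have h2 : ArithmeticFunction.vonMangoldt m ≤ Real.log m := ArithmeticFunction.vonMangoldt_le_log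
  have h3 : Real.log m ≤ Real.log N :=
    Real.log_le_log (by exact_mod_cast hm.1) (by exact_mod_cast hm.2)
  nlinarith

lemma aC_supp {N : ℕ} {a : ℕ → ℝ} (ha : Adm N a) {m : ℕ} (hm : aC a m ≠ 0) :
    (N : ℝ) ^ (1 / 2000 : ℝ) ≤ 2 * m ∧ (m : ℝ) ≤ (N : ℝ) ^ (1 / 50 : ℝ) := by
  have h0 : a m ≠ 0 := fun h => hm (by unfold aC; rw [h, Complex.ofReal_zero])
  obtain ⟨h1, h2, h3⟩ := ha.h2 m h0
  have h5 : (0 : ℝ) ≤ m := Nat.cast_nonneg _
  exact ⟨by linarith, h3⟩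

open Classical in
theorem emaj (_h1 : L2Stm) (hB : BilMaj3Stm) : MajStm := by
  intro A C ρ hρ
  obtain ⟨C', N₁, hB'⟩ := hB A C 1960 (49 / 50 - ρ) (1 / 2000) (1 / 50) (by norm_num)
    (by norm_num) (by push_cast; linarith) (by linarith) (by norm_num) (by linarith)
  obtain ⟨N₃, hN₃⟩ := Filter.eventually_atTop.1 (ev_log 1 (s := 1) (by norm_num) 2)
  refine ⟨C' + 1, max N₁ N₃, fun N hN a ha q _ hq => ?_⟩
  have hNN₁ : N₁ ≤ N := le_trans (le_max_left _ _) hN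
  obtain ⟨hL2, -⟩ := hN₃ N (le_trans (le_max_right _ _) hN)
  have hL1 : 1 ≤ Real.log N := by linarith
  have hq' : (q : ℝ) ≤ (N : ℝ) ^ (49 / 50 - ρ) := by
    have e : (7 / 10 - (-(7 / 25) + ρ) : ℝ) = 49 / 50 - ρ := by ring
    rw [e] at hq
    exact hq
  obtain ⟨B, hBc, hBB⟩ := hB' N hNN₁ q hq' (aC a) (fun m hm => aC_bd ha hL1 hm) (fun m hm => aC_supp ha hm)
  refine ⟨insert 1 B, mem_insert_self _ _, ?_, fun η hη y hy S hS => ?_⟩
  · have h1 : ((insert 1 B).card : ℝ) ≤ (B.card : ℝ) + 1 := by exact_mod_cast card_insert_le _ _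
    have h2 : 1 ≤ Real.log N ^ C' := one_le_pow₀ hL1
    calc ((insert 1 B).card : ℝ) ≤ (B.card : ℝ) + 1 := h1
      _ ≤ Real.log N ^ C' + Real.log N ^ C' := by linarith
      _ = Real.log N ^ C' * 2 := by ring
      _ ≤ Real.log N ^ C' * Real.log N := mul_le_mul_of_nonneg_left (by linarith) (by linarith)
      _ = Real.log N ^ (C' + 1) := (pow_succ _ _).symm
  · rw [GM_cs]
    exact hBB lC (fun m hm => lC_bd hL1 hm) η hη y hy S
      (Disjoint.mono_right (subset_insert _ _) hS)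

end Pool.Agent.Helper34.GE
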