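import Pool.Agent.Helper34.GE.Swp


set_option autoImplicit false

/-! Project GE, module ENC (helper14): integers which are not coprime to a given integer, and the properties of
the functions in project GE. -/

namespace Pool.Agent.Helper34.GE

open Finset Filter Topology
open Pool.Agent.H373R2.T7 (lamz Vz pz lamz_ap lam1 lam1_le)
open Pool.Agent.Y883.T3 (lsh)
open Pool.Agent.Y883.GJ
open Pool.Agent.R460.GS (BdAt MajAt MinAt ShAt ApAt NcAt one_le_div vm_le lsh_abs card_pf_le sq_sub_sum four_le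
  min_mono)

lemma norm_GM (a : ℕ → ℝ) (n : ℕ) : ‖GM a n‖ = |Ea a n| := by
  unfold GM
  rw [Complex.norm_real, Real.norm_eq_abs]

lemma norm_HM {N z r n : ℕ} {a : ℕ → ℝ} {s : ℝ} (hS : |Sa N a| ≤ s) : ‖HM N a z r n‖ ≤ s * |lsh z r n| := by
  unfold HM
  rw [Complex.norm_real, Real.norm_eq_abs, abs_mul]
  exact mul_le_mul_of_nonneg_right hS (abs_nonneg _)

lemma bd_GM {N : ℕ} {a : ℕ → ℝ} (ha : Adm N a) (hL : 1 ≤ Real.log N) : BdAt N (GM a) := by
  intro n hn
  have h1 := one_le_div hn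
  have h2 := ebd ha hn
  rw [norm_GM]
  calc |Ea a n| ≤ Real.log N * 1 := by rw [mul_one]; exact h2
    _ ≤ Real.log N ^ 2 * (n.divisors.card : ℝ) := by
      apply mul_le_mul _ h1 zero_le_one (by positivity)
      nlinarith

lemma bd_fm {U N z r : ℕ} {a : ℕ → ℝ} (ha : Adm N a) (hS : |Sa N a| ≤ 5) (hP : Par U N z r)
    (hL : 16 ≤ Real.log N) : BdAt N (fm N a z r) := by
  intro n hn
  have h1 := one_le_div hn
  unfold fm
  refine (norm_sub_le _ _).trans ?_
  have h2 := norm_HM (z := z) (r := r) (n := n) hS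
  have h3 := lsh_abs hP hn
  have h4 := ebd ha hn
  rw [norm_GM]
  have hL0 : 0 ≤ Real.log N := by linarith
  have h5 : Real.log N * 1 ≤ Real.log N * (n.divisors.card : ℝ) := mul_le_mul_of_nonneg_left h1 hL0
  have h6 : 16 * Real.log N ≤ Real.log N ^ 2 := by nlinarith
  have h7 := mul_le_mul_of_nonneg_right h6 (by positivity : (0 : ℝ) ≤ (n.divisors.card : ℝ))
  linarith

lemma ev_enc (U : ℕ) : ∀ᶠ N : ℕ in atTop, 1 ≤ N ∧ 1 ≤ Real.log N ∧
    24 * Real.log N ^ (U + 1) ≤ (N : ℝ) ^ (1 / 2000 : ℝ) ∧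
    (N : ℝ) ^ (1 / 50 : ℝ) * (12 * Real.log N ^ (U + 3)) ≤ N := by
  filter_upwards [eventually_ge_atTop 1, ev_L 1, ev_lp (U + 1) 24 (1 / 2000) (by norm_num),
    ev_lp (U + 3) 12 (49 / 50) (by norm_num)] with N h1 h2 h3 h4
  have hN0 : (0 : ℝ) < N := by exact_mod_cast h1
  refine ⟨h1, h2, h3, ?_⟩
  calc (N : ℝ) ^ (1 / 50 : ℝ) * (12 * Real.log N ^ (U + 3)) ≤ (N : ℝ) ^ (1 / 50 : ℝ) * (N : ℝ) ^ (49 / 50 : ℝ) := by
        gcongr
    _ = N := by
        rw [← Real.rpow_add hN0]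
        norm_num

theorem enc : NcStm := by
  classical
  intro U
  obtain ⟨N₀, hN₀⟩ := eventually_atTop.1 (ev_enc U)
  refine ⟨N₀, fun N hN a ha q hq hqN => ?_⟩
  obtain ⟨hN1, hL1, hX, h50⟩ := hN₀ N hN
  have hN0 : (0 : ℝ) < N := by exact_mod_cast hN1
  have hX0 : 0 < (N : ℝ) ^ (1 / 2000 : ℝ) := Real.rpow_pos_of_pos hN0 _
  obtain ⟨L, hLd⟩ : ∃ L, L = Real.log (N : ℝ) := ⟨_, rfl⟩
  obtain ⟨X, hXd⟩ : ∃ X, X = (N : ℝ) ^ (1 / 2000 : ℝ) := ⟨_, rfl⟩
  have hncL : ∀ y ≤ N, ∑ m ∈ (Icc 1 y).filter (fun m => ¬ m.Coprime q), ArithmeticFunction.vonMangoldt m ≤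
      6 * L ^ 3 := by
    intro y hy
    rw [hLd]
    exact ncL hL1 hy hq hqN
  have hpf := card_pf_le hq hqN
  rw [← hLd] at hL1 hX h50 hpf ⊢
  rw [← hXd] at hX hX0
  have hL0 : 0 < L := by linarith
  have hk : ∀ k ∈ Icc 1 N, ∑ m ∈ (Icc 1 (N / k)).filter (fun m => ¬ (k * m).Coprime q),
      |a k| * ArithmeticFunction.vonMangoldt m ≤
      (if k ∈ q.primeFactors then 6 * (N / X) else 0) + (if a k ≠ 0 then 6 * L ^ 3 else 0) := by
    intro k hk
    have hk1 : 1 ≤ k := (mem_Icc.1 hk).1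
    have hk0 : (0 : ℝ) < k := by exact_mod_cast hk1
    by_cases hak : a k = 0
    · have e0 : (if a k ≠ 0 then 6 * L ^ 3 else (0 : ℝ)) = 0 := if_neg (by simpa using hak)
      rw [e0, add_zero]
      simp only [hak, abs_zero, zero_mul, sum_const_zero]
      split_ifs
      · positivity
      · exact le_rfl
    rw [if_pos hak, ← mul_sum]
    refine (mul_le_of_le_one_left (sum_nonneg fun _ _ => ArithmeticFunction.vonMangoldt_nonneg) (ha.h1 k)).trans ?_
    obtain ⟨hkp, hk2, hk3⟩ := ha.h2 k hak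
    rw [← hXd] at hk2
    by_cases hkq : k ∣ q
    · rw [if_pos (Nat.mem_primeFactors.2 ⟨hkp, hkq, by omega⟩)]
      have h1 : ∑ m ∈ (Icc 1 (N / k)).filter (fun m => ¬ (k * m).Coprime q), ArithmeticFunction.vonMangoldt m ≤
          lam1 (N / k) :=
        sum_le_sum_of_subset_of_nonneg (filter_subset _ _) fun _ _ _ => ArithmeticFunction.vonMangoldt_nonneg
      have h2 := lam1_le (N / k)
      have h3 : ((N / k : ℕ) : ℝ) ≤ N / X := by
        calc ((N / k : ℕ) : ℝ) ≤ (N : ℝ) / k := Nat.cast_div_le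
          _ ≤ N / X := div_le_div_of_nonneg_left hN0.le hX0 hk2.le
      have h4 : (0 : ℝ) ≤ 6 * L ^ 3 := by positivity
      linarith
    · have h1 : (Icc 1 (N / k)).filter (fun m => ¬ (k * m).Coprime q) =
          (Icc 1 (N / k)).filter (fun m => ¬ m.Coprime q) := by
        apply filter_congr
        intro m _
        rw [Nat.coprime_mul_iff_left, not_iff_not]
        constructor
        · exact fun h => h.2
        · exact fun h => ⟨(Nat.Prime.coprime_iff_not_dvd hkp).2 hkq, h⟩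
      rw [h1]
      have h2 := hncL (N / k) (Nat.div_le_self _ _)
      refine h2.trans (le_add_of_nonneg_left ?_)
      split_ifs
      · positivity
      · exact le_rfl
  calc ∑ n ∈ (Icc 1 N).filter (fun n => ¬ n.Coprime q), ‖GM a n‖
      ≤ ∑ n ∈ (Icc 1 N).filter (fun n => ¬ n.Coprime q), ∑ k ∈ n.divisors,
          |a k| * ArithmeticFunction.vonMangoldt (n / k) := by
        refine sum_le_sum fun n _ => ?_
        rw [norm_GM]
        exact abs_Ea_le' ha n
    _ = ∑ k ∈ Icc 1 N, ∑ m ∈ (Icc 1 (N / k)).filter (fun m => ¬ (k * m).Coprime q),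
          |a k| * ArithmeticFunction.vonMangoldt m :=
        swap_dvd (fun k m => |a k| * ArithmeticFunction.vonMangoldt m) (fun n => ¬ n.Coprime q) le_rfl
    _ ≤ ∑ k ∈ Icc 1 N, ((if k ∈ q.primeFactors then 6 * (N / X) else 0) + (if a k ≠ 0 then 6 * L ^ 3 else 0)) :=
        sum_le_sum hk
    _ ≤ (2 * L) * (6 * (N / X)) + (N : ℝ) ^ (1 / 50 : ℝ) * (6 * L ^ 3) := by
        rw [sum_add_distrib, ← sum_filter, ← sum_filter, sum_const, sum_const, nsmul_eq_mul, nsmul_eq_mul]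
        have h1 : (((Icc 1 N).filter (fun k => k ∈ q.primeFactors)).card : ℝ) ≤ 2 * L := by
          refine le_trans ?_ hpf
          exact_mod_cast card_le_card fun k hk => (mem_filter.1 hk).2
        have h2 := supp_card ha
        gcongr
    _ ≤ N / L ^ U := by
        rw [le_div_iff₀ (by positivity), add_mul]
        have h1 : 2 * L * (6 * (N / X)) * L ^ U ≤ N / 2 := by
          calc 2 * L * (6 * (N / X)) * L ^ U = (24 * L ^ (U + 1)) / X * (N / 2) := by
                rw [pow_succ]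
                field_simp
                ring
            _ ≤ 1 * (N / 2) := by
                apply mul_le_mul_of_nonneg_right _ (by positivity)
                rw [div_le_one hX0]
                exact hX
            _ = _ := one_mul _
        have h2 : (N : ℝ) ^ (1 / 50 : ℝ) * (6 * L ^ 3) * L ^ U ≤ N / 2 := by
          have h3 : (N : ℝ) ^ (1 / 50 : ℝ) * (6 * L ^ 3) * L ^ U =
              ((N : ℝ) ^ (1 / 50 : ℝ) * (12 * L ^ (U + 3))) / 2 := by
            rw [pow_add]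
            ring
          rw [h3]
          linarith
        linarith

lemma nc_HM {U N z r : ℕ} {a : ℕ → ℝ} (hS : |Sa N a| ≤ 5) (hP : Par (U + 1) N z r) (hL : 16 ≤ Real.log N) :
    NcAt N U (HM N a z r) := by
  intro q hq hqN
  have hL0 : 0 < Real.log N := by linarith
  have h1 := hP.hC q hq hqN
  have h2 := hP.hL q hq hqN
  have h3 : ∀ n ∈ (Icc 1 N).filter (fun n => ¬ n.Coprime q), ‖HM N a z r n‖ ≤
      5 * (|ArithmeticFunction.vonMangoldt n - lsh z r n| + ArithmeticFunction.vonMangoldt n) := by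
    intro n _
    refine (norm_HM hS).trans (mul_le_mul_of_nonneg_left ?_ (by norm_num))
    have h5 : lsh z r n = ArithmeticFunction.vonMangoldt n -
      (ArithmeticFunction.vonMangoldt n - lsh z r n) := by ring
    have h4 : 0 ≤ ArithmeticFunction.vonMangoldt n := ArithmeticFunction.vonMangoldt_nonneg
    calc |lsh z r n| = |ArithmeticFunction.vonMangoldt n - (ArithmeticFunction.vonMangoldt n - lsh z r n)| := by
          rw [← h5]
      _ ≤ |ArithmeticFunction.vonMangoldt n| + |ArithmeticFunction.vonMangoldt n - lsh z r n| := abs_sub _ _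
      _ = _ := by rw [abs_of_nonneg h4]; ring
  refine (sum_le_sum h3).trans ?_
  rw [← mul_sum, sum_add_distrib]
  have hX : 0 ≤ (N : ℝ) / Real.log N ^ (U + 1) := by positivity
  calc 5 * (∑ n ∈ (Icc 1 N).filter (fun n => ¬ n.Coprime q), |ArithmeticFunction.vonMangoldt n - lsh z r n| +
        ∑ n ∈ (Icc 1 N).filter (fun n => ¬ n.Coprime q), ArithmeticFunction.vonMangoldt n)
      ≤ 5 * (N / Real.log N ^ (U + 1) + N / Real.log N ^ (U + 1)) :=
        mul_le_mul_of_nonneg_left (add_le_add h1 h2) (by norm_num)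
    _ = 10 * (N / Real.log N ^ (U + 1)) := by ring
    _ ≤ Real.log N * (N / Real.log N ^ (U + 1)) := mul_le_mul_of_nonneg_right (by linarith) hX
    _ = _ := by
        rw [pow_succ]
        field_simp

lemma nc_fm {U N z r : ℕ} {a : ℕ → ℝ} (hG : NcAt N (U + 1) (GM a)) (hS : |Sa N a| ≤ 5) (hP : Par (U + 2) N z r)
    (hL : 16 ≤ Real.log N) : NcAt N U (fm N a z r) := by
  intro q hq hqN
  have hL0 : 0 < Real.log N := by linarith
  have h1 := hG q hq hqN
  have h2 := nc_HM (U := U + 1) hS hP hL q hq hqN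
  have hX : 0 ≤ (N : ℝ) / Real.log N ^ (U + 1) := by positivity
  calc ∑ n ∈ (Icc 1 N).filter (fun n => ¬ n.Coprime q), ‖fm N a z r n‖
      ≤ ∑ n ∈ (Icc 1 N).filter (fun n => ¬ n.Coprime q), (‖GM a n‖ + ‖HM N a z r n‖) :=
        sum_le_sum fun n _ => norm_sub_le _ _
    _ ≤ N / Real.log N ^ (U + 1) + N / Real.log N ^ (U + 1) := by
        rw [sum_add_distrib]
        exact add_le_add h1 h2
    _ = 2 * (N / Real.log N ^ (U + 1)) := by ring
    _ ≤ Real.log N * (N / Real.log N ^ (U + 1)) := mul_le_mul_of_nonneg_right (by linarith) hX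
    _ = _ := by
        rw [pow_succ]
        field_simp

/-- the model in progressions -/
lemma ap_HM {N z r₀ r c y : ℕ} {a : ℕ → ℝ} {X : ℝ} (hS : |Sa N a| ≤ 5) (hy : y ≤ N)
    (h1 : |∑ n ∈ (Icc 1 y).filter (fun n => n ≡ c [MOD r]), lamz z n -
      (if c.Coprime r then (y : ℝ) / (Nat.totient r : ℝ) else 0)| ≤ X)
    (h2 : ∑ n ∈ Icc 1 N, |lamz z n - lsh z r₀ n| ≤ X) :
    |∑ n ∈ (Icc 1 y).filter (fun n => n ≡ c [MOD r]), Sa N a * lsh z r₀ n -
      (if c.Coprime r then Sa N a * y / (Nat.totient r : ℝ) else 0)| ≤ 10 * X := by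
  classical
  have e1 : ∑ n ∈ (Icc 1 y).filter (fun n => n ≡ c [MOD r]), Sa N a * lsh z r₀ n -
      (if c.Coprime r then Sa N a * y / (Nat.totient r : ℝ) else 0) =
      Sa N a * ((∑ n ∈ (Icc 1 y).filter (fun n => n ≡ c [MOD r]), lamz z n -
      (if c.Coprime r then (y : ℝ) / (Nat.totient r : ℝ) else 0)) -
        ∑ n ∈ (Icc 1 y).filter (fun n => n ≡ c [MOD r]), (lamz z n - lsh z r₀ n)) := by
    rw [sum_sub_distrib, ← mul_sum]
    split_ifs
    · ring
    · ring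
  rw [e1, abs_mul]
  have k2 : |∑ n ∈ (Icc 1 y).filter (fun n => n ≡ c [MOD r]), (lamz z n - lsh z r₀ n)| ≤ X := by
    refine (abs_sum_le_sum_abs _ _).trans (le_trans ?_ h2)
    refine sum_le_sum_of_subset_of_nonneg (fun n hn => ?_) fun _ _ _ => abs_nonneg _
    rw [mem_filter] at hn
    exact Icc_subset_Icc le_rfl hy hn.1
  have k3 := (abs_sub (∑ n ∈ (Icc 1 y).filter (fun n => n ≡ c [MOD r]), lamz z n -
      (if c.Coprime r then (y : ℝ) / (Nat.totient r : ℝ) else 0))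
      (∑ n ∈ (Icc 1 y).filter (fun n => n ≡ c [MOD r]), (lamz z n - lsh z r₀ n))).trans (add_le_add h1 k2)
  calc _ ≤ 5 * (X + X) := mul_le_mul hS k3 (abs_nonneg _) (by norm_num)
    _ = _ := by ring

lemma ap_fm {N K U z r₀ : ℕ} {a : ℕ → ℝ} (hS : |Sa N a| ≤ 5) (hL : 16 ≤ Real.log N)
    (hlam : ∀ q : ℕ, 1 ≤ q → (q : ℝ) ≤ Real.log N ^ K → ∀ c y : ℕ, y ≤ N →
      |∑ n ∈ (Icc 1 y).filter (fun n => n ≡ c [MOD q]), lamz z n -
        (if c.Coprime q then (y : ℝ) / (Nat.totient q : ℝ) else 0)| ≤ N / Real.log N ^ (U + 2))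
    (hsum : ∑ n ∈ Icc 1 N, |lamz z n - lsh z r₀ n| ≤ N / Real.log N ^ (U + 2))
    (hap : ∀ r : ℕ, 1 ≤ r → (r : ℝ) ≤ Real.log N ^ K → ∀ c y : ℕ, y ≤ N →
      |∑ n ∈ (Icc 1 y).filter (fun n => n ≡ c [MOD r]), Ea a n -
        (if c.Coprime r then Sa N a * y / (Nat.totient r : ℝ) else 0)| ≤ N / Real.log N ^ (U + 2)) :
    ApAt N K U (fm N a z r₀) := by
  intro r hr1 hrK c y hy
  have hL0 : 0 < Real.log N := by linarith
  have h1 := ap_HM (r₀ := r₀) (c := c) (r := r) hS hy (hlam r hr1 hrK c y hy) hsum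
  have h2 := hap r hr1 hrK c y hy
  have e1 : ∑ n ∈ (Icc 1 y).filter (fun n => n ≡ c [MOD r]), fm N a z r₀ n =
      ((∑ n ∈ (Icc 1 y).filter (fun n => n ≡ c [MOD r]), Ea a n -
      ∑ n ∈ (Icc 1 y).filter (fun n => n ≡ c [MOD r]), Sa N a * lsh z r₀ n : ℝ) : ℂ) := by
    rw [← sum_sub_distrib]
    push_cast
    refine sum_congr rfl fun n _ => ?_
    unfold fm GM HM
    push_cast
    ring
  rw [e1, Complex.norm_real, Real.norm_eq_abs]
  obtain ⟨M, hM⟩ : ∃ M : ℝ, M = (if c.Coprime r then Sa N a * y / (Nat.totient r : ℝ) else 0) :=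
    ⟨_, rfl⟩
  rw [← hM] at h1 h2
  have e2 : ∑ n ∈ (Icc 1 y).filter (fun n => n ≡ c [MOD r]), Ea a n -
      ∑ n ∈ (Icc 1 y).filter (fun n => n ≡ c [MOD r]), Sa N a * lsh z r₀ n =
      (∑ n ∈ (Icc 1 y).filter (fun n => n ≡ c [MOD r]), Ea a n - M) -
      (∑ n ∈ (Icc 1 y).filter (fun n => n ≡ c [MOD r]), Sa N a * lsh z r₀ n - M) := by ring
  rw [e2]
  refine (abs_sub _ _).trans ?_
  have hX : 0 ≤ (N : ℝ) / Real.log N ^ (U + 2) := by positivity
  calc _ ≤ N / Real.log N ^ (U + 2) + 10 * (N / Real.log N ^ (U + 2)) := add_le_add h2 h1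
    _ = 11 * (N / Real.log N ^ (U + 2)) := by ring
    _ ≤ Real.log N ^ 2 * (N / Real.log N ^ (U + 2)) := by
        apply mul_le_mul_of_nonneg_right _ hX
        nlinarith
    _ = _ := by
        rw [pow_add]
        field_simp

lemma maj_fm {N A C C₃ z r : ℕ} {a : ℕ → ℝ} {ρ : ℝ} (hL : 2 ≤ Real.log N) (hG : MajAt N ρ (A + 2) C C₃ (GM a))
    (hH : ∀ (q : ℕ) [NeZero q], (q : ℝ) ≤ (N : ℝ) ^ (7 / 10 - ρ) →
      ∀ η : ℝ, |η| ≤ Real.log N ^ C / N → ∀ y : ℕ, y ≤ N →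
      ∀ S : Finset (DirichletCharacter ℂ q), 1 ∉ S →
        ∑ χ ∈ S, ‖cs q y (HM N a z r) η χ‖ ^ 2 ≤ (N : ℝ) ^ 2 / Real.log N ^ (A + 2)) :
    MajAt N ρ A C C₃ (fm N a z r) := by
  intro q _ hq
  obtain ⟨B, hB1, hBc, hB⟩ := hG q hq
  refine ⟨B, hB1, hBc, fun η hη y hy S hS => ?_⟩
  have h1 := hB η hη y hy S hS
  have h2 := hH q hq η hη y hy S (fun h => disjoint_left.1 hS h hB1)
  exact (sq_sub_sum (GM a) (HM N a z r) η S h1 h2).trans (four_le hL)

lemma min_fm {N A C C' z r : ℕ} {a : ℕ → ℝ} {ρ : ℝ} (hL : 2 ≤ Real.log N) (hG : MinAt N ρ (A + 2) C (GM a))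
    (hH : MinAt N ρ (A + 2) C' (HM N a z r)) : MinAt N ρ A (max C C') (fm N a z r) := by
  have h1 := min_mono (by linarith) (le_max_left C C') hG
  have h2 := min_mono (by linarith) (le_max_right C C') hH
  intro q _ hq k hh β k1 k2 k3 k4 y hy
  exact (sq_sub_sum (GM a) (HM N a z r) β univ (h1 q hq k hh β k1 k2 k3 k4 y hy)
    (h2 q hq k hh β k1 k2 k3 k4 y hy)).trans (four_le hL)

end Pool.Agent.Helper34.GE
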