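import Pool.Agent.Helper34.GE.Stm
import Pool.Graph.R_seed8.R460.GS.Ti2
import Pool.Graph.R_pool_sql_team_seeded_47a924f7.T6.H3.FF.Core4

set_option autoImplicit false

/-! Project GE, module ER4 (helper59): few primitive characters have a large sum with `Ea`. -/

namespace Pool.Agent.Helper34.GE

open Finset
open Pool.Agent.Y883.GJ
open Pool.Agent.R460.GS (norm_ev1)
open Pool.Agent.R460.GR (Bd)
open Pool.Agent.H807R2.Dav (ee)
open Pool.Agent.Y614.GJ.Core (ev_log)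

/-- a convolution as a double sum -/
lemma er4_hyp {E : Type*} [AddCommGroup E] [Module ℂ E] (y : ℕ) (f g : ℕ → ℂ) (v : ℕ → E) :
    ∑ n ∈ Icc 1 y, (∑ k ∈ n.divisors, f k * g (n / k)) • v n =
      ∑ m ∈ Icc 1 y, ∑ b ∈ Icc 1 (y / m), (f m * g b) • v (m * b) := by
  classical
  have h1 : ∀ n ∈ Icc 1 y, (∑ k ∈ n.divisors, f k * g (n / k)) • v n =
      ∑ k ∈ n.divisors, (f k * g (n / k)) • v n := fun n _ => sum_smul
  rw [sum_congr rfl h1]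
  rw [sum_comm' (t' := Icc 1 y) (s' := fun k => (Icc 1 y).filter (fun n => k ∣ n))]
  · refine sum_congr rfl fun m hm => ?_
    rw [mem_Icc] at hm
    have hm0 : 0 < m := hm.1
    refine sum_nbij' (fun n => n / m) (fun b => m * b) ?_ ?_ ?_ ?_ ?_
    · intro n hn
      rw [mem_filter, mem_Icc] at hn
      rw [mem_Icc]
      obtain ⟨⟨h2, h3⟩, h4⟩ := hn
      exact ⟨Nat.div_pos (Nat.le_of_dvd h2 h4) hm0, Nat.div_le_div_right h3⟩
    · intro b hb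
      rw [mem_Icc] at hb
      rw [mem_filter, mem_Icc]
      refine ⟨⟨Nat.mul_pos hm0 hb.1, ?_⟩, Nat.dvd_mul_right _ _⟩
      calc m * b ≤ m * (y / m) := Nat.mul_le_mul_left _ hb.2
        _ ≤ y := Nat.mul_div_le _ _
    · intro n hn
      rw [mem_filter] at hn
      exact Nat.mul_div_cancel' hn.2
    · intro b _
      exact Nat.mul_div_cancel_left b hm0
    · intro n hn
      rw [mem_filter] at hn
      rw [Nat.mul_div_cancel' hn.2]
  · intro n k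
    rw [mem_filter, mem_Icc, mem_Icc, Nat.mem_divisors]
    constructor
    · rintro ⟨⟨h2, h3⟩, h4, h5⟩
      exact ⟨⟨⟨h2, h3⟩, h4⟩, Nat.pos_of_dvd_of_pos h4 h2, (Nat.le_of_dvd h2 h4).trans h3⟩
    · rintro ⟨⟨⟨h2, h3⟩, h4⟩, -⟩
      exact ⟨⟨h2, h3⟩, h4, by omega⟩

/-- `GM` as a convolution of complex functions -/
lemma er4_GM (a : ℕ → ℝ) (n : ℕ) : GM a n =
    ∑ k ∈ n.divisors, ((a k : ℝ) : ℂ) * ((ArithmeticFunction.vonMangoldt (n / k) : ℝ) : ℂ) := by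
  unfold GM Ea
  push_cast
  rfl

/-- the vector sum with `GM` is a bilinear sum -/
lemma er4_vec {q : ℕ} [NeZero q] (S : Finset (DirichletCharacter ℂ q)) (η : ℝ) (a : ℕ → ℝ) (y : ℕ) :
    ∑ χ ∈ S, ‖cs q y (GM a) η χ‖ ^ 2 =
      ‖∑ m ∈ Icc 1 y, ∑ k ∈ Icc 1 (y / m), (((a m : ℝ) : ℂ) *
        ((ArithmeticFunction.vonMangoldt k : ℝ) : ℂ)) • ev S η (m * k)‖ ^ 2 := by
  rw [← er4_hyp y (fun m => ((a m : ℝ) : ℂ)) (fun k => ((ArithmeticFunction.vonMangoldt k : ℝ) : ℂ))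
    (fun n => ev S η n), norm_ev1 S η (Icc 1 y) _ (fun n => n)]
  refine sum_congr rfl fun χ _ => ?_
  congr 2
  unfold cs
  refine sum_congr rfl fun n _ => ?_
  rw [er4_GM, mul_assoc]

lemma er4_card {m : ℕ} (hm : 1 ≤ m) : (1 : ℝ) ≤ (m.divisors.card : ℝ) := by
  have : 1 ≤ m.divisors.card := card_pos.2 ⟨1, Nat.one_mem_divisors.2 (by omega)⟩
  exact_mod_cast this

lemma er4_a {N : ℕ} {a : ℕ → ℝ} (ha : Adm N a) (hL : 1 ≤ Real.log N) :
    ∀ m ∈ Icc 1 N, ‖((a m : ℝ) : ℂ)‖ ≤ Real.log N * (m.divisors.card : ℝ) := by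
  intro m hm
  rw [Complex.norm_real, Real.norm_eq_abs]
  have h1 := er4_card (mem_Icc.1 hm).1
  have h2 := ha.h1 m
  nlinarith

lemma er4_supp {N : ℕ} {a : ℕ → ℝ} (ha : Adm N a) :
    ∀ m, ((a m : ℝ) : ℂ) ≠ 0 → (N : ℝ) ^ (1 / 2000 : ℝ) ≤ 2 * m ∧ (m : ℝ) ≤ (N : ℝ) ^ (1 / 50 : ℝ) := by
  intro m hm
  have h1 : a m ≠ 0 := fun h => hm (by rw [h, Complex.ofReal_zero])
  obtain ⟨-, h2, h3⟩ := ha.h2 m h1
  refine ⟨?_, h3⟩
  have : (0 : ℝ) ≤ m := Nat.cast_nonneg m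
  linarith

lemma er4_L {N : ℕ} (hL : 1 ≤ Real.log N) :
    ∀ m ∈ Icc 1 N, ‖((ArithmeticFunction.vonMangoldt m : ℝ) : ℂ)‖ ≤ Real.log N * (m.divisors.card : ℝ) := by
  intro m hm
  rw [mem_Icc] at hm
  rw [Complex.norm_real, Real.norm_eq_abs, abs_of_nonneg ArithmeticFunction.vonMangoldt_nonneg]
  have h1 := er4_card hm.1
  have h2 : ArithmeticFunction.vonMangoldt m ≤ Real.log m := ArithmeticFunction.vonMangoldt_le_log
  have h3 : Real.log m ≤ Real.log N := Real.log_le_log (by exact_mod_cast hm.1) (by exact_mod_cast hm.2)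
  nlinarith

theorem er4 (hB : Bil4Stm) (hCnt : Count4Stm) : MG4Stm := by
  intro U ρ hρ
  obtain ⟨K₂, K, N₁, hB'⟩ := hB (2 * U) 0 ρ hρ
  obtain ⟨C₃, N₂, hc⟩ := hCnt K₂ K
  obtain ⟨N₃, hN₃⟩ := Filter.eventually_atTop.1 (ev_log 1 (s := 1) (by norm_num) 26)
  refine ⟨C₃, N₁ + N₂ + N₃ + 1, fun N hN a ha Ψ hΨ => ?_⟩
  have hN1 : 1 ≤ N := by omega
  have hN1r : (1 : ℝ) ≤ N := by exact_mod_cast hN1
  obtain ⟨hL16, -⟩ := hN₃ N (by omega)
  have hL1 : 1 ≤ Real.log N := by linarith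
  have hL0 : 0 < Real.log N := by linarith
  have key : ∀ ψ ∈ Ψ, Bd N K₂ K (fun m => ((a m : ℝ) : ℂ)) ψ.1 ψ.2 := by
    rintro ⟨q, χ⟩ hψ
    obtain ⟨e1, e2, e3, y, hy, e4⟩ := hΨ ⟨q, χ⟩ hψ
    simp only at e1 e2 e3 e4 ⊢
    by_contra hcon
    have : NeZero q := ⟨by omega⟩
    have h1 := hB' N (by omega) q e2 (fun m => ((a m : ℝ) : ℂ)) (er4_a ha hL1) (er4_supp ha)
      (fun m => ((ArithmeticFunction.vonMangoldt m : ℝ) : ℂ)) (er4_L hL1) 0
      (by rw [abs_zero]; positivity) y hy {χ} (by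
        intro χ' h
        rw [mem_singleton] at h
        rw [h]
        exact hcon)
    rw [← er4_vec {χ} 0 a y, sum_singleton] at h1
    have hcs : cs q y (GM a) 0 χ = ∑ n ∈ Icc 1 y, GM a n * χ (n : ZMod q) := by
      unfold cs
      refine sum_congr rfl fun n _ => ?_
      rw [mul_zero, Pool.Agent.H807R2.Dav.ee_zero, mul_one]
    rw [hcs] at h1
    have h5 : (N : ℝ) ^ 2 / Real.log N ^ (2 * U) = (N / Real.log N ^ U) ^ 2 := by
      rw [div_pow, ← pow_mul, mul_comm U 2]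
    rw [h5] at h1
    have h6 : 0 ≤ (N : ℝ) / Real.log N ^ U := by positivity
    have h7 := pow_lt_pow_left₀ e4 h6 two_ne_zero
    linarith
  refine hc N (by omega) (fun m => ((a m : ℝ) : ℂ)) (er4_a ha hL1) (er4_supp ha) Ψ fun ψ hψ => ?_
  obtain ⟨e1, e2, e3, -⟩ := hΨ ψ hψ
  exact ⟨by omega, e2.trans (Real.rpow_le_rpow_of_exponent_le hN1r (by linarith)), e3, key ψ hψ⟩

end Pool.Agent.Helper34.GE
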