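import Pool.Agent.Helper34.GE.Prp
import Pool.Graph.R_pool_sql_team_seeded_47a924f7.T6.H3.FF.Core4
import Pool.Graph.R_seed8.R460.GS.ErrAll

set_option autoImplicit false

/-! Project GE, module EERR (helper59): the error term for the classes with a small common divisor. -/

namespace Pool.Agent.Helper34.GE

open Finset
open Pool.Agent.T6.H3.FF (Core4Stm)
open Pool.Agent.R460.GS (BdAt MajAt MinAt ShAt ApAt NcAt cv bd_LA sh_mono par_mono)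
open Pool.Agent.H807R2.Dav (ee)
open Pool.Agent.H373R2.T7 (lamz Vz pz lamz_ap)
open Pool.Agent.Y883.T3 (lsh)
open Pool.Agent.Y883.GJ
open Pool.Agent.Y614.GJ.Core (ev_log)

theorem eerr (hCore : Core4Stm) (hSa : SaStm) (hMajS : MajStm) (hMinS : MinStm) (hMH : MHStm) (hNH : NHStm)
    (hApm : ApmStm) (hNcS : NcStm) (hSh : ShStm) (hModel : ModelStm) : ErrStm := by
  intro A T U₀ ρ hρ
  have hρ2 : 0 < ρ / 2 := by positivity
  obtain ⟨Nw, hWB⟩ := hSa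
  obtain ⟨A₁, hC1⟩ := hCore A T (-(7 / 25) + ρ) (-(7 / 25) + ρ / 2) (by linarith) (by linarith)
  obtain ⟨Cg, Ng, hg⟩ := hMinS (A₁ + 2) (ρ / 2) hρ2
  obtain ⟨Ch, Nh, hh⟩ := hNH (A₁ + 2) (ρ / 2) hρ2
  obtain ⟨C, hC⟩ : ∃ C, C = max Cg Ch := ⟨_, rfl⟩
  obtain ⟨A₂, hC2⟩ := hC1 C
  obtain ⟨C₃, Nm1, hm1⟩ := hMajS (A₂ + 2) C (ρ / 2) hρ2
  obtain ⟨Nm2, hm2⟩ := hMH (A₂ + 2) C (ρ / 2) hρ2
  obtain ⟨B₂, hC3⟩ := hC2 C₃
  obtain ⟨K, Ns, hs⟩ := hSh B₂ C (T + C) (ρ / 2) hρ2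
  obtain ⟨U, Nc, hC4⟩ := hC3 K
  obtain ⟨U₁, hU₁⟩ : ∃ U₁, U₁ = max U₀ (U + 2) := ⟨_, rfl⟩
  obtain ⟨Bm, hBm⟩ := hModel U₁
  refine ⟨max Bm K, fun E => ?_⟩
  obtain ⟨Nmo, hmo⟩ := hBm E
  obtain ⟨Nl, hl⟩ := lamz_ap E (U + 2)
  obtain ⟨Na, ha⟩ := hApm K (U + 2)
  obtain ⟨Nn, hn⟩ := hNcS (U + 1)
  obtain ⟨Ne, hNe⟩ := Filter.eventually_atTop.1 (ev_log (U + 8) (s := 1 / 6) (by norm_num) 100)
  refine ⟨Ng + Nh + Nm1 + Nm2 + Ns + Nc + Nw + Nmo + Nl + Na + Nn + Ne + 1, fun N hN z hz1 hz2 => ?_⟩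
  have hN1 : 1 ≤ N := by omega
  obtain ⟨hLe, -⟩ := hNe N (by omega)
  have hL1 : 1 ≤ Real.log N := by linarith
  have hL2' : 2 ≤ Real.log N := by linarith
  have hzB : Real.log N ^ Bm ≤ z := (pow_le_pow_right₀ hL1 (le_max_left _ _)).trans hz1
  have hzK : Real.log N ^ K ≤ z := (pow_le_pow_right₀ hL1 (le_max_right _ _)).trans hz1
  have hz1' : 1 ≤ z := by
    have : (1 : ℝ) ≤ z := (one_le_pow₀ hL1).trans hz1
    exact_mod_cast this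
  obtain ⟨r, hPar, hsum⟩ := hmo N (by omega) z hzB hz2
  have hdiv : ∀ V : ℕ, V ≤ U₁ → (N : ℝ) / Real.log N ^ U₁ ≤ N / Real.log N ^ V := fun V hV =>
    div_le_div_of_nonneg_left (Nat.cast_nonneg _) (by positivity) (pow_le_pow_right₀ hL1 hV)
  have hU0 : U₀ ≤ U₁ := by rw [hU₁]; exact le_max_left _ _
  have hU2 : U + 2 ≤ U₁ := by rw [hU₁]; exact le_max_right _ _
  have hP0 := par_mono hL1 hU0 hPar
  have hP2 := par_mono hL1 hU2 hPar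
  refine ⟨r, hP0, hsum.trans (hdiv _ hU0), ?_⟩
  intro a hadm q _ hq c hgcd y₁ y₂ hy₁ hy₂
  have hsa := hWB N (by omega) a hadm
  -- the conditions of the core estimate
  have hMin : MinAt N (-(7 / 25) + ρ / 2) A₁ C (fm N a z r) := by
    rw [hC]
    exact prp_min_fm hL2' (hg N (by omega) a hadm) (hh N (by omega) (Sa N a) hsa z r hPar.hD hPar.hV)
  have hMaj : MajAt N (-(7 / 25) + ρ / 2) A₂ C C₃ (fm N a z r) :=
    prp_maj_fm hL2' (hm1 N (by omega) a hadm)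
      (fun q _ hq => hm2 N (by omega) (Sa N a) hsa q hq z r hPar.hD hPar.hV)
  have hAp : ApAt N K U (fm N a z r) := by
    refine prp_ap_fm hsa (by linarith) ?_ (hsum.trans (hdiv _ hU2)) (ha N (by omega) a hadm)
    intro q hq hqK c y hy
    refine hl N (by omega) z hz1' hz2 q hq ?_ c y hy
    exact_mod_cast hqK.trans hzK
  have hNc : NcAt N U (fm N a z r) := prp_nc_fm hsa (hn N (by omega) a hadm) hP2 (by linarith)
  have hq' : (q : ℝ) ≤ (N : ℝ) ^ (7 / 10 - (-(7 / 25) + ρ)) := by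
    have e : (7 / 10 - (-(7 / 25) + ρ) : ℝ) = 49 / 50 - ρ := by ring
    rw [e]
    exact hq
  exact hC4 N (by omega) LA (fm N a z r) (bd_LA hL1) (prp_bd_fm hadm.h1 hsa hPar (by linarith)) hMin hMaj hAp hNc
    (hs N (by omega)) q hq' c hgcd y₁ y₂ hy₁ hy₂

end Pool.Agent.Helper34.GE
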