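import Pool.Agent.Helper34.GE.Stm
import Pool.Graph.R_seed8.R453.GS.Apg1
import Pool.Graph.R_seed8.R460.GS.Props

set_option autoImplicit false

/-! Project GE (helper59): the properties of the difference `fm N a z r`, from the properties of `GM a`. -/

namespace Pool.Agent.Helper34.GE

open Finset
open Pool.Agent.H373R2.T7 (lamz Vz pz lamz_ap)
open Pool.Agent.Y883.T3 (lsh)
open Pool.Agent.Y883.GJ
open Pool.Agent.R460.GS (BdAt MajAt MinAt ShAt ApAt NcAt one_le_div vm_le lsh_abs card_pf_le sq_sub_sum four_le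
  min_mono)

lemma prp_Ea_nonneg_le (a : ℕ → ℝ) (h1 : ∀ k, |a k| ≤ 1) {n : ℕ} (_hn : 1 ≤ n) : |Ea a n| ≤ Real.log n := by
  unfold Ea
  calc |∑ k ∈ n.divisors, a k * ArithmeticFunction.vonMangoldt (n / k)|
      ≤ ∑ k ∈ n.divisors, |a k * ArithmeticFunction.vonMangoldt (n / k)| := abs_sum_le_sum_abs _ _
    _ ≤ ∑ k ∈ n.divisors, ArithmeticFunction.vonMangoldt (n / k) := by
        refine sum_le_sum fun k _ => ?_
        rw [abs_mul, abs_of_nonneg ArithmeticFunction.vonMangoldt_nonneg]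
        exact mul_le_of_le_one_left ArithmeticFunction.vonMangoldt_nonneg (h1 k)
    _ = ∑ k ∈ n.divisors, ArithmeticFunction.vonMangoldt k :=
        Nat.sum_div_divisors n (fun k => ArithmeticFunction.vonMangoldt k)
    _ = Real.log n := ArithmeticFunction.vonMangoldt_sum

lemma prp_norm_GM (a : ℕ → ℝ) (n : ℕ) : ‖GM a n‖ = |Ea a n| := by
  unfold GM
  rw [Complex.norm_real, Real.norm_eq_abs]

lemma prp_norm_HM {N z r n : ℕ} {a : ℕ → ℝ} (hs : |Sa N a| ≤ 5) :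
    ‖HM N a z r n‖ ≤ 5 * |lsh z r n| := by
  unfold HM
  rw [Complex.norm_real, Real.norm_eq_abs, abs_mul]
  exact mul_le_mul_of_nonneg_right hs (abs_nonneg _)

lemma prp_bd_fm {U N z r : ℕ} {a : ℕ → ℝ} (h1 : ∀ k, |a k| ≤ 1) (hs : |Sa N a| ≤ 5) (hP : Par U N z r)
    (hL : 16 ≤ Real.log N) : BdAt N (fm N a z r) := by
  intro n hn
  have hd := one_le_div hn
  unfold fm
  refine (norm_sub_le _ _).trans ?_
  have h2 : ‖HM N a z r n‖ ≤ 15 * Real.log N * (n.divisors.card : ℝ) := by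
    refine (prp_norm_HM hs).trans ?_
    have := lsh_abs hP hn
    linarith
  have h3 : ‖GM a n‖ ≤ Real.log N := by
    rw [prp_norm_GM]
    rw [mem_Icc] at hn
    refine (prp_Ea_nonneg_le a h1 hn.1).trans ?_
    exact Real.log_le_log (by exact_mod_cast hn.1) (by exact_mod_cast hn.2)
  have hL0 : 0 ≤ Real.log N := by linarith
  have h4 : Real.log N * 1 ≤ Real.log N * (n.divisors.card : ℝ) := mul_le_mul_of_nonneg_left hd hL0
  have h5 : 16 * Real.log N ≤ Real.log N ^ 2 := by nlinarith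
  have h6 := mul_le_mul_of_nonneg_right h5 (by positivity : (0 : ℝ) ≤ (n.divisors.card : ℝ))
  linarith

lemma prp_nc_HM {U N z r : ℕ} {a : ℕ → ℝ} (hs : |Sa N a| ≤ 5) (hP : Par (U + 1) N z r)
    (hL : 16 ≤ Real.log N) : NcAt N U (HM N a z r) := by
  intro q hq hqN
  have hL0 : 0 < Real.log N := by linarith
  have h1 := hP.hC q hq hqN
  have h2 := hP.hL q hq hqN
  have h3 : ∀ n ∈ (Icc 1 N).filter (fun n => ¬ n.Coprime q), ‖HM N a z r n‖ ≤
      5 * (|ArithmeticFunction.vonMangoldt n - lsh z r n| + ArithmeticFunction.vonMangoldt n) := by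
    intro n hn
    refine (prp_norm_HM hs).trans (mul_le_mul_of_nonneg_left ?_ (by norm_num))
    have h5 : lsh z r n = ArithmeticFunction.vonMangoldt n -
      (ArithmeticFunction.vonMangoldt n - lsh z r n) := by ring
    have h4 : 0 ≤ ArithmeticFunction.vonMangoldt n := ArithmeticFunction.vonMangoldt_nonneg
    calc |lsh z r n| = |ArithmeticFunction.vonMangoldt n - (ArithmeticFunction.vonMangoldt n - lsh z r n)| := by
          rw [← h5]
      _ ≤ |ArithmeticFunction.vonMangoldt n| + |ArithmeticFunction.vonMangoldt n - lsh z r n| := abs_sub _ _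
      _ = _ := by rw [abs_of_nonneg h4]; ring
  refine (sum_le_sum h3).trans ?_
  rw [← mul_sum, sum_add_distrib]
  have hX : 0 ≤ (N : ℝ) / Real.log N ^ (U + 1) := by positivity
  calc 5 * (∑ n ∈ (Icc 1 N).filter (fun n => ¬ n.Coprime q), |ArithmeticFunction.vonMangoldt n - lsh z r n| +
        ∑ n ∈ (Icc 1 N).filter (fun n => ¬ n.Coprime q), ArithmeticFunction.vonMangoldt n)
      ≤ 5 * (N / Real.log N ^ (U + 1) + N / Real.log N ^ (U + 1)) :=
        mul_le_mul_of_nonneg_left (add_le_add h1 h2) (by norm_num)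
    _ = 10 * (N / Real.log N ^ (U + 1)) := by ring
    _ ≤ Real.log N * (N / Real.log N ^ (U + 1)) := mul_le_mul_of_nonneg_right (by linarith) hX
    _ = _ := by
        rw [pow_succ]
        field_simp

lemma prp_nc_fm {U N z r : ℕ} {a : ℕ → ℝ} (hs : |Sa N a| ≤ 5) (hG : NcAt N (U + 1) (GM a))
    (hP : Par (U + 2) N z r) (hL : 16 ≤ Real.log N) : NcAt N U (fm N a z r) := by
  intro q hq hqN
  have hL0 : 0 < Real.log N := by linarith
  have h1 := hG q hq hqN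
  have h2 := prp_nc_HM (U := U + 1) hs hP hL q hq hqN
  have hX : 0 ≤ (N : ℝ) / Real.log N ^ (U + 1) := by positivity
  calc ∑ n ∈ (Icc 1 N).filter (fun n => ¬ n.Coprime q), ‖fm N a z r n‖
      ≤ ∑ n ∈ (Icc 1 N).filter (fun n => ¬ n.Coprime q), (‖GM a n‖ + ‖HM N a z r n‖) :=
        sum_le_sum fun n _ => norm_sub_le _ _
    _ ≤ N / Real.log N ^ (U + 1) + N / Real.log N ^ (U + 1) := by
        rw [sum_add_distrib]
        exact add_le_add h1 h2
    _ = 2 * (N / Real.log N ^ (U + 1)) := by ring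
    _ ≤ Real.log N * (N / Real.log N ^ (U + 1)) := mul_le_mul_of_nonneg_right (by linarith) hX
    _ = _ := by
        rw [pow_succ]
        field_simp

lemma prp_ap_fm {N K U z r₀ : ℕ} {a : ℕ → ℝ} (hs : |Sa N a| ≤ 5) (hL : 16 ≤ Real.log N)
    (hlam : ∀ q : ℕ, 1 ≤ q → (q : ℝ) ≤ Real.log N ^ K → ∀ c y : ℕ, y ≤ N →
      |∑ n ∈ (Icc 1 y).filter (fun n => n ≡ c [MOD q]), lamz z n -
        (if c.Coprime q then (y : ℝ) / (Nat.totient q : ℝ) else 0)| ≤ N / Real.log N ^ (U + 2))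
    (hsum : ∑ n ∈ Icc 1 N, |lamz z n - lsh z r₀ n| ≤ N / Real.log N ^ (U + 2))
    (hap : ∀ r : ℕ, 1 ≤ r → (r : ℝ) ≤ Real.log N ^ K → ∀ c y : ℕ, y ≤ N →
      |∑ n ∈ (Icc 1 y).filter (fun n => n ≡ c [MOD r]), Ea a n -
        (if c.Coprime r then Sa N a * y / (Nat.totient r : ℝ) else 0)| ≤ N / Real.log N ^ (U + 2)) :
    ApAt N K U (fm N a z r₀) := by
  intro r hr1 hrK c y hy
  have hL0 : 0 < Real.log N := by linarith
  have h1 := hlam r hr1 hrK c y hy
  have h2 := hap r hr1 hrK c y hy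
  have h3 : |∑ n ∈ (Icc 1 y).filter (fun n => n ≡ c [MOD r]), (lamz z n - lsh z r₀ n)| ≤
      N / Real.log N ^ (U + 2) := by
    refine (abs_sum_le_sum_abs _ _).trans (le_trans ?_ hsum)
    refine sum_le_sum_of_subset_of_nonneg (fun n hn => ?_) fun _ _ _ => abs_nonneg _
    rw [mem_filter] at hn
    exact Icc_subset_Icc le_rfl hy hn.1
  obtain ⟨P, hP⟩ : ∃ P, P = ∑ n ∈ (Icc 1 y).filter (fun n => n ≡ c [MOD r]), lsh z r₀ n := ⟨_, rfl⟩
  obtain ⟨Q, hQ⟩ : ∃ Q, Q = ∑ n ∈ (Icc 1 y).filter (fun n => n ≡ c [MOD r]), lamz z n := ⟨_, rfl⟩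
  obtain ⟨E, hE⟩ : ∃ E, E = ∑ n ∈ (Icc 1 y).filter (fun n => n ≡ c [MOD r]), Ea a n := ⟨_, rfl⟩
  obtain ⟨M, hM⟩ : ∃ M : ℝ, M = (if c.Coprime r then (y : ℝ) / (Nat.totient r : ℝ) else 0) := ⟨_, rfl⟩
  have hM2 : (if c.Coprime r then Sa N a * y / (Nat.totient r : ℝ) else 0) = Sa N a * M := by
    rw [hM]
    split_ifs
    · ring
    · ring
  rw [hM2, ← hE] at h2
  rw [← hM, ← hQ] at h1
  rw [sum_sub_distrib, ← hP, ← hQ] at h3
  have e1 : ∑ n ∈ (Icc 1 y).filter (fun n => n ≡ c [MOD r]), fm N a z r₀ n =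
      ((E - Sa N a * P : ℝ) : ℂ) := by
    rw [hE, hP, mul_sum, ← sum_sub_distrib]
    push_cast
    refine sum_congr rfl fun n _ => ?_
    unfold fm GM HM
    push_cast
    ring
  rw [e1, Complex.norm_real, Real.norm_eq_abs]
  have e2 : E - Sa N a * P = (E - Sa N a * M) - Sa N a * (Q - M) + Sa N a * (Q - P) := by ring
  have hX : 0 ≤ (N : ℝ) / Real.log N ^ (U + 2) := by positivity
  have h4 : |Sa N a * (Q - M)| ≤ 5 * (N / Real.log N ^ (U + 2)) := by
    rw [abs_mul]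
    exact mul_le_mul hs h1 (abs_nonneg _) (by norm_num)
  have h5 : |Sa N a * (Q - P)| ≤ 5 * (N / Real.log N ^ (U + 2)) := by
    rw [abs_mul]
    exact mul_le_mul hs h3 (abs_nonneg _) (by norm_num)
  rw [e2]
  calc |(E - Sa N a * M) - Sa N a * (Q - M) + Sa N a * (Q - P)|
      ≤ |E - Sa N a * M| + |Sa N a * (Q - M)| + |Sa N a * (Q - P)| :=
        (abs_add_le _ _).trans (add_le_add (abs_sub _ _) le_rfl)
    _ ≤ N / Real.log N ^ (U + 2) + 5 * (N / Real.log N ^ (U + 2)) + 5 * (N / Real.log N ^ (U + 2)) :=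
        add_le_add (add_le_add h2 h4) h5
    _ = 11 * (N / Real.log N ^ (U + 2)) := by ring
    _ ≤ Real.log N ^ 2 * (N / Real.log N ^ (U + 2)) := by
        apply mul_le_mul_of_nonneg_right _ hX
        nlinarith
    _ = _ := by
        rw [pow_add]
        field_simp

lemma prp_maj_fm {N A C C₃ z r : ℕ} {ρ : ℝ} {a : ℕ → ℝ} (hL : 2 ≤ Real.log N)
    (hG : MajAt N ρ (A + 2) C C₃ (GM a))
    (hH : ∀ (q : ℕ) [NeZero q], (q : ℝ) ≤ (N : ℝ) ^ (7 / 10 - ρ) →
      ∀ η : ℝ, |η| ≤ Real.log N ^ C / N → ∀ y : ℕ, y ≤ N →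
      ∀ S : Finset (DirichletCharacter ℂ q), 1 ∉ S →
        ∑ χ ∈ S, ‖cs q y (HM N a z r) η χ‖ ^ 2 ≤ (N : ℝ) ^ 2 / Real.log N ^ (A + 2)) :
    MajAt N ρ A C C₃ (fm N a z r) := by
  intro q _ hq
  obtain ⟨B, hB1, hBc, hB⟩ := hG q hq
  refine ⟨B, hB1, hBc, fun η hη y hy S hS => ?_⟩
  have h1 := hB η hη y hy S hS
  have h2 := hH q hq η hη y hy S (fun h => disjoint_left.1 hS h hB1)
  exact (sq_sub_sum (GM a) (HM N a z r) η S h1 h2).trans (four_le hL)

lemma prp_min_fm {N A C C' z r : ℕ} {ρ : ℝ} {a : ℕ → ℝ} (hL : 2 ≤ Real.log N)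
    (hG : MinAt N ρ (A + 2) C (GM a)) (hH : MinAt N ρ (A + 2) C' (HM N a z r)) :
    MinAt N ρ A (max C C') (fm N a z r) := by
  have h1 := min_mono (by linarith) (le_max_left C C') hG
  have h2 := min_mono (by linarith) (le_max_right C C') hH
  intro q _ hq k hh β k1 k2 k3 k4 y hy
  exact (sq_sub_sum (GM a) (HM N a z r) β univ (h1 q hq k hh β k1 k2 k3 k4 y hy)
    (h2 q hq k hh β k1 k2 k3 k4 y hy)).trans (four_le hL)

end Pool.Agent.Helper34.GE
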