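import Pool.Agent.Helper34.GE.ER6
import Pool.Agent.Helper34.GE.Prp
import Pool.Graph.R_seed8.R460.GS.ErrAll

set_option autoImplicit false

/-! Project GE, module EERRR (helper92): the error term for the regular moduli. -/

namespace Pool.Agent.Helper34.GE

open Finset
open Pool.Agent.R460.GS (BdAt MajAt MinAt ShAt ApAt NcAt cv bd_LA par_mono)
open Pool.Agent.T6.H3.FR (Core5Stm)
open Pool.Agent.R460.GR (RegAt)
open Pool.Agent.H807R2.Dav (ee)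
open Pool.Agent.H373R2.T7 (lamz Vz pz lamz_ap)
open Pool.Agent.Y883.T3 (lsh)
open Pool.Agent.Y883.GJ
open Pool.Agent.Y614.GJ.Core (ev_log)

theorem eerrr (hCore : Core5Stm) (hSaS : SaStm) (hMG : MajStm) (hNG : MinStm) (hMH : MHStm) (hNH : NHStm)
    (hApm : ApmStm) (hNcS : NcStm) (hMG4 : MG4Stm) (hModel : ModelStm) : ErrRStm := by
  intro A U₀ ρ hρ
  have hρ2 : 0 < ρ / 2 := by positivity
  obtain ⟨Ns, hSa⟩ := hSaS
  obtain ⟨A₁, hC1⟩ := hCore A (-(7 / 25) + ρ) (-(7 / 25) + ρ / 2) (by linarith) (by linarith)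
  obtain ⟨Cg, Ng, hg⟩ := hNG (A₁ + 2) (ρ / 2) hρ2
  obtain ⟨Ch, Nh, hh⟩ := hNH (A₁ + 2) (ρ / 2) hρ2
  obtain ⟨C, hC⟩ : ∃ C, C = max Cg Ch := ⟨_, rfl⟩
  obtain ⟨A₂, hC2⟩ := hC1 C
  obtain ⟨C₃, Nm1, hm1⟩ := hMG (A₂ + 2) C (ρ / 2) hρ2
  obtain ⟨Nm2, hm2⟩ := hMH (A₂ + 2) C (ρ / 2) hρ2
  obtain ⟨U₂, hC3⟩ := hC2 C₃
  obtain ⟨Nm3, hm3⟩ := hMH (2 * (U₂ + C + 4)) C (ρ / 2) hρ2
  obtain ⟨C₄, Nd, hd⟩ := hMG4 (U₂ + C + 4) (ρ / 2) hρ2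
  obtain ⟨Nn2, hn2⟩ := hNcS (U₂ + C + 4)
  refine ⟨C₄ + C, fun A₀ => ?_⟩
  obtain ⟨K, hK⟩ : ∃ K, K = (A₀ + 1) + C := ⟨_, rfl⟩
  obtain ⟨U, Nc, hC4⟩ := hC3 K
  obtain ⟨U₁, hU₁⟩ : ∃ U₁, U₁ = max U₀ (U + 2) := ⟨_, rfl⟩
  obtain ⟨Bm, hBm⟩ := hModel U₁
  refine ⟨max Bm K, fun E => ?_⟩
  obtain ⟨Nmo, hmo⟩ := hBm E
  obtain ⟨Nl, hl⟩ := lamz_ap E (U + 2)
  obtain ⟨Na, ha⟩ := hApm K (U + 2)
  obtain ⟨Nn1, hn1⟩ := hNcS (U + 1)
  obtain ⟨Ne, hNe⟩ := Filter.eventually_atTop.1 (ev_log 1 (s := 1 / 6) (by norm_num) 2000)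
  obtain ⟨Nf, hNf⟩ := Filter.eventually_atTop.1 (ev_log C (s := ρ / 2) (by positivity) 1)
  refine ⟨Ng + Nh + Nm1 + Nm2 + Nm3 + Nd + Nc + Ns + Nmo + Nl + Na + Ne + Nf + Nn1 + Nn2 + 1,
    fun N hN a hA => ?_⟩
  have hN1 : 1 ≤ N := by omega
  have hN0 : (0 : ℝ) < N := by exact_mod_cast hN1
  obtain ⟨hLe, -⟩ := hNe N (by omega)
  obtain ⟨-, hLC⟩ := hNf N (by omega)
  have hs := hSa N (by omega) a hA
  have hL1 : 1 ≤ Real.log N := by linarith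
  have hL2' : 2 ≤ Real.log N := by linarith
  have eρ : (7 / 10 - (-(7 / 25) + ρ / 2) : ℝ) = 49 / 50 - ρ / 2 := by ring
  refine ⟨D2 N a (U₂ + C + 4) K C (ρ / 2), ?_, ?_, ?_⟩
  · exact D2_card hL1 (D1_card K (fun Ψ hΨ => hd N (by omega) a hA Ψ (fun ψ hψ => hΨ ψ hψ)))
  · intro d hd
    have h2 := D2_large (A₀ := A₀ + 1) hL1 hK hd
    exact lt_of_le_of_lt (pow_le_pow_right₀ hL1 (Nat.le_succ _)) h2
  intro z hz1 hz2
  have hzB : Real.log N ^ Bm ≤ z := (pow_le_pow_right₀ hL1 (le_max_left _ _)).trans hz1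
  have hzK : Real.log N ^ K ≤ z := (pow_le_pow_right₀ hL1 (le_max_right _ _)).trans hz1
  have hz1' : 1 ≤ z := by
    have : (1 : ℝ) ≤ z := (one_le_pow₀ hL1).trans hz1
    exact_mod_cast this
  obtain ⟨r, hPar, hsum⟩ := hmo N (by omega) z hzB hz2
  have hdiv : ∀ V : ℕ, V ≤ U₁ → (N : ℝ) / Real.log N ^ U₁ ≤ N / Real.log N ^ V := fun V hV =>
    div_le_div_of_nonneg_left (Nat.cast_nonneg _) (by positivity) (pow_le_pow_right₀ hL1 hV)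
  have hU0 : U₀ ≤ U₁ := by rw [hU₁]; exact le_max_left _ _
  have hU2 : U + 2 ≤ U₁ := by rw [hU₁]; exact le_max_right _ _
  have hP0 := par_mono hL1 hU0 hPar
  have hP2 := par_mono hL1 hU2 hPar
  refine ⟨r, hP0, hsum.trans (hdiv _ hU0), ?_⟩
  intro q _ hq hqD c y₁ y₂ hy₁ hy₂
  have hMin : MinAt N (-(7 / 25) + ρ / 2) A₁ C (fm N a z r) := by
    rw [hC]
    exact prp_min_fm hL2' (hg N (by omega) a hA) (hh N (by omega) (Sa N a) hs z r hPar.hD hPar.hV)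
  have hMaj : MajAt N (-(7 / 25) + ρ / 2) A₂ C C₃ (fm N a z r) :=
    prp_maj_fm hL2' (hm1 N (by omega) a hA)
      (fun q _ hq => hm2 N (by omega) (Sa N a) hs q hq z r hPar.hD hPar.hV)
  have hAp : ApAt N K U (fm N a z r) := by
    refine prp_ap_fm hs (by linarith) ?_ (hsum.trans (hdiv _ hU2)) (ha N (by omega) a hA)
    intro q hq hqK c y hy
    refine hl N (by omega) z hz1' hz2 q hq ?_ c y hy
    exact_mod_cast hqK.trans hzK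
  have hNc : NcAt N U (fm N a z r) := prp_nc_fm hs (hn1 N (by omega) a hA) hP2 (by linarith)
  have hq' : (q : ℝ) ≤ (N : ℝ) ^ (7 / 10 - (-(7 / 25) + ρ)) := by
    have e : (7 / 10 - (-(7 / 25) + ρ) : ℝ) = 49 / 50 - ρ := by ring
    rw [e]
    exact hq
  have hqC : (q : ℝ) * Real.log N ^ C ≤ (N : ℝ) ^ (49 / 50 - ρ / 2) := by
    calc (q : ℝ) * Real.log N ^ C ≤ (N : ℝ) ^ (49 / 50 - ρ) * (N : ℝ) ^ (ρ / 2) := by gcongr
      _ = (N : ℝ) ^ (49 / 50 - ρ / 2) := by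
          rw [← Real.rpow_add hN0]
          congr 1
          ring
  have hReg : RegAt N C K U₂ (fm N a z r) q :=
    reg_fm hN1 (by linarith) hqC hρ2 (NeZero.pos q) (hn2 N (by omega) a hA)
      (fun q _ hq => hm3 N (by omega) (Sa N a) hs q (by rw [eρ]; exact hq) z r hPar.hD hPar.hV) hqD
  exact hC4 N (by omega) LA (fm N a z r) (bd_LA hL1) (prp_bd_fm hA.h1 hs hPar (by linarith)) hMin hMaj hAp hNc q hq'
    hReg c y₁ y₂ hy₁ hy₂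

end Pool.Agent.Helper34.GE
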