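import Pool.Agent.Helper34.GE.Stm

set_option autoImplicit false

/-! Project GE, modules EMAIN and EMAINR (helper23): from the asymptotic formula at the points of a grid to all windows,
and the number of exceptions in a residue class. -/

namespace Pool.Agent.Helper34.GE

open Finset
open Pool.Agent.Y883.GJ
open Pool.Agent.Y883.T3 (lsh)
open Pool.Agent.H373R2.T7 (lamz Vz pz)
open Pool.Agent.R460.GS (cv la one_le_sing)
open Pool.Agent.H560R3.GB (sing)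
open Pool.Agent.Y883.T4 (badc)
open Pool.Agent.Y614.GJ.Core (ev_log)

/-- the function `Ea` is at most a logarithm -/
lemma Ea_le_log' (N : ℕ) (a : ℕ → ℝ) (ha : Adm N a) (n : ℕ) : |Ea a n| ≤ Real.log n := by
  unfold Ea
  calc |∑ k ∈ n.divisors, a k * ArithmeticFunction.vonMangoldt (n / k)|
      ≤ ∑ k ∈ n.divisors, |a k * ArithmeticFunction.vonMangoldt (n / k)| := abs_sum_le_sum_abs _ _
    _ ≤ ∑ k ∈ n.divisors, ArithmeticFunction.vonMangoldt (n / k) := by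
        refine sum_le_sum fun k _ => ?_
        rw [abs_mul, abs_of_nonneg (ArithmeticFunction.vonMangoldt_nonneg)]
        exact mul_le_of_le_one_left ArithmeticFunction.vonMangoldt_nonneg (ha.h1 k)
    _ = ∑ k ∈ n.divisors, ArithmeticFunction.vonMangoldt k :=
        Nat.sum_div_divisors n (fun k => ArithmeticFunction.vonMangoldt k)
    _ = Real.log n := ArithmeticFunction.vonMangoldt_sum

lemma la_le_log' (N n : ℕ) (hn : 1 ≤ n) (hnN : n ≤ N) : |la n| ≤ Real.log N := by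
  unfold la
  rw [abs_of_nonneg ArithmeticFunction.vonMangoldt_nonneg]
  refine ArithmeticFunction.vonMangoldt_le_log.trans ?_
  exact Real.log_le_log (by exact_mod_cast hn) (by exact_mod_cast hnN)

/-- between two points of the grid -/
lemma gap_le (N : ℕ) (a : ℕ → ℝ) (ha : Adm N a) (hN : 1 ≤ N) (n y₀ y H : ℕ) (hn : n ≤ N) (hy : y < n) (h0 : y₀ ≤ y)
    (hH : y ≤ y₀ + H) :
    |∑ b ∈ Icc 1 y, la b * Ea a (n - b) - ∑ b ∈ Icc 1 y₀, la b * Ea a (n - b)| ≤ H * Real.log N ^ 2 := by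
  have hL : 0 ≤ Real.log N := Real.log_nonneg (by exact_mod_cast hN)
  have e1 : Icc 1 y = Icc 1 y₀ ∪ Ioc y₀ y := by
    ext b
    simp only [mem_union, mem_Icc, mem_Ioc]
    omega
  have e2 : Disjoint (Icc 1 y₀) (Ioc y₀ y) := by
    rw [disjoint_left]
    intro b hb hb'
    rw [mem_Icc] at hb
    rw [mem_Ioc] at hb'
    omega
  rw [e1, sum_union e2, add_sub_cancel_left]
  calc |∑ b ∈ Ioc y₀ y, la b * Ea a (n - b)| ≤ ∑ b ∈ Ioc y₀ y, |la b * Ea a (n - b)| := abs_sum_le_sum_abs _ _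
    _ ≤ ∑ _b ∈ Ioc y₀ y, Real.log N ^ 2 := by
        refine sum_le_sum fun b hb => ?_
        rw [mem_Ioc] at hb
        rw [abs_mul, sq]
        refine mul_le_mul (la_le_log' N b (by omega) (by omega)) ?_ (abs_nonneg _) hL
        refine (Ea_le_log' N a ha _).trans ?_
        exact Real.log_le_log (by exact_mod_cast (show 0 < n - b by omega)) (by exact_mod_cast (show n - b ≤ N by omega))
    _ = ((y - y₀ : ℕ) : ℝ) * Real.log N ^ 2 := by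
        rw [sum_const, nsmul_eq_mul, Nat.card_Ioc]
    _ ≤ H * Real.log N ^ 2 := by
        have : ((y - y₀ : ℕ) : ℝ) ≤ H := by exact_mod_cast (show y - y₀ ≤ H by omega)
        gcongr

/-- the square of the error term at `y` -/
noncomputable def EqE (N : ℕ) (a : ℕ → ℝ) (z r n y : ℕ) : ℝ := ‖cv LA (fm N a z r) y N n‖ ^ 2

theorem core_main (hsa : SaStm) (hg : GridStm) (ρ : ℝ) (hρ : 0 < ρ) (A V E1 : ℕ) (hE : V + 3 + 8 ≤ E1) :
    ∃ N₀ : ℕ, ∀ N : ℕ, N₀ ≤ N → ∀ a : ℕ → ℝ, Adm N a → ∀ z r : ℕ,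
    Real.log N ^ E1 ≤ z → (z : ℝ) ≤ Real.log N ^ (E1 + 1) →
    ∑ n ∈ Icc 1 N, |lamz z n - lsh z r n| ≤ N / Real.log N ^ (V + 3 + 6) →
    ∀ (q : ℕ) [NeZero q], (q : ℝ) ≤ (N : ℝ) ^ (49 / 50 - ρ) → ∀ c : ℕ,
    (∀ y₁ y₂ : ℕ, y₁ ≤ N → y₂ ≤ N →
      ∑ n ∈ (Icc 1 (2 * N)).filter (fun n : ℕ => (n : ZMod q) = (c : ZMod q)),
        ‖cv LA (fm N a z r) y₁ y₂ n‖ ^ 2 ≤ (N : ℝ) ^ 3 / (q * Real.log N ^ (A + 3 * (V + 3) + 8))) →
    ((badc (Win V N a) N q c).card : ℝ) ≤ (N : ℝ) / (q * Real.log N ^ A) := by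
  classical
  obtain ⟨W, hW⟩ : ∃ W, W = V + 3 := ⟨_, rfl⟩
  rw [← hW] at hE ⊢
  obtain ⟨N₁, h1⟩ := hsa
  obtain ⟨N₂, h2⟩ := hg W E1 hE
  obtain ⟨N₄, h4⟩ := Filter.eventually_atTop.1 (ev_log (W + A + 4) (s := 1 / 50) (by norm_num) 100)
  refine ⟨N₁ + N₂ + N₄ + 3, fun N hN a ha z r hzlo hzhi hsum q _ hqN c hms => ?_⟩
  have hN1 : 1 ≤ N := by omega
  have hN0 : (0 : ℝ) < N := by exact_mod_cast hN1
  have hN1r : (1 : ℝ) ≤ N := by exact_mod_cast hN1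
  obtain ⟨hL100, hLp⟩ := h4 N (by omega)
  have c1 := h1 N (by omega) a ha
  have c2' := h2 N (by omega) a ha z r hzlo hzhi hsum
  obtain ⟨L, hLd⟩ : ∃ L, L = Real.log (N : ℝ) := ⟨_, rfl⟩
  rw [← hLd] at hms c2' hL100 hLp ⊢
  have hL0 : 0 < L := by linarith
  have hL1 : 1 ≤ L := by linarith
  have hq1 : 1 ≤ q := Nat.one_le_iff_ne_zero.2 (NeZero.ne q)
  have hq0 : (0 : ℝ) < q := by exact_mod_cast hq1
  -- the grid
  obtain ⟨Tg, hTg⟩ : ∃ Tg, Tg = ⌈L ^ W⌉₊ := ⟨_, rfl⟩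
  have hT1 : L ^ W ≤ Tg := by rw [hTg]; exact Nat.le_ceil _
  have hLV : 1 ≤ L ^ W := one_le_pow₀ hL1
  have hT2 : (Tg : ℝ) ≤ L ^ W + 1 := by
    rw [hTg]
    exact (Nat.ceil_lt_add_one (by positivity)).le
  have hTpos : 0 < Tg := by
    have : (0 : ℝ) < Tg := by linarith
    exact_mod_cast this
  obtain ⟨H, hH⟩ : ∃ H, H = N / Tg + 1 := ⟨_, rfl⟩
  have hH1 : 1 ≤ H := by rw [hH]; exact Nat.le_add_left 1 _
  have hpow1 : (N : ℝ) ^ (1 / 50 : ℝ) ≤ N := by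
    calc (N : ℝ) ^ (1 / 50 : ℝ) ≤ (N : ℝ) ^ (1 : ℝ) := Real.rpow_le_rpow_of_exponent_le hN1r (by norm_num)
      _ = N := Real.rpow_one _
  have hHr : (H : ℝ) ≤ 2 * (N / L ^ W) := by
    rw [hH]
    push_cast
    have e1 : ((N / Tg : ℕ) : ℝ) ≤ N / L ^ W := by
      calc ((N / Tg : ℕ) : ℝ) ≤ (N : ℝ) / Tg := Nat.cast_div_le
        _ ≤ N / L ^ W := div_le_div_of_nonneg_left hN0.le (by positivity) hT1
    have e2 : 1 ≤ (N : ℝ) / L ^ W := by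
      rw [le_div_iff₀ (by positivity), one_mul]
      exact (pow_le_pow_right₀ hL1 (by omega)).trans (hLp.trans hpow1)
    linarith
  have hjT : ∀ j : ℕ, j * H ≤ N → j < Tg + 1 := by
    intro j hj
    by_contra hcon
    have e1 : (Tg + 1) * H ≤ j * H := Nat.mul_le_mul_right _ (by omega)
    have e2 : N < Tg * H := by
      rw [hH]
      have := Nat.lt_mul_div_succ N hTpos
      exact this
    have e3 : Tg * H ≤ (Tg + 1) * H := Nat.mul_le_mul_right _ (by omega)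
    omega
  obtain ⟨Bd, hBd⟩ : ∃ Bd, Bd = badc (Win V N a) N q c := ⟨_, rfl⟩
  rw [← hBd]
  have hmem : ∀ n ∈ Bd, 1 ≤ n ∧ n ≤ N ∧ 2 ∣ n ∧ n % q = c % q ∧ ¬ Win V N a n := by
    intro n hn
    rw [hBd] at hn
    unfold badc at hn
    rw [mem_filter, mem_Icc] at hn
    exact ⟨hn.1.1, hn.1.2, hn.2.1, hn.2.2.1, hn.2.2.2⟩
  obtain ⟨J, hJ⟩ : ∃ J, J = (range (Tg + 1)).filter (fun j => j * H ≤ N) := ⟨_, rfl⟩
  have hterm : ∀ n ∈ Bd, ((N : ℝ) / L ^ (W + 2)) ^ 2 ≤ ∑ j ∈ J, EqE N a z r n (j * H) := by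
    intro n hn
    obtain ⟨a1, a2, a3, a4, a5⟩ := hmem n hn
    by_contra hcon
    rw [not_le] at hcon
    have hsm : ∀ j : ℕ, j * H < n → ‖cv LA (fm N a z r) (j * H) N n‖ ≤ N / L ^ (W + 2) := by
      intro j hj
      by_contra hns
      have k1 : ((N : ℝ) / L ^ (W + 2)) ^ 2 ≤ EqE N a z r n (j * H) := by
        rw [not_le] at hns
        unfold EqE
        exact pow_le_pow_left₀ (by positivity) hns.le 2
      have k2 : EqE N a z r n (j * H) ≤ ∑ j ∈ J, EqE N a z r n (j * H) := by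
        refine single_le_sum (f := fun j => EqE N a z r n (j * H)) (fun _ _ => sq_nonneg _) ?_
        rw [hJ, mem_filter, mem_range]
        exact ⟨hjT j (by omega), by omega⟩
      linarith
    apply a5
    intro y hy
    obtain ⟨j, hj⟩ : ∃ j, j = y / H := ⟨_, rfl⟩
    have hj1 : j * H ≤ y := by rw [hj]; exact Nat.div_mul_le_self _ _
    have hj2 : y ≤ j * H + H := by
      have h3 := Nat.lt_div_mul_add (a := y) (b := H) (by omega)
      rw [← hj] at h3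
      omega
    obtain ⟨k1, k2⟩ := c2' n a2 a3 (by omega) (j * H) (by omega) (hsm j (by omega))
    have k3 := gap_le N a ha hN1 n (j * H) y H a2 hy hj1 hj2
    rw [← hLd] at k3 ⊢
    have hS1 : 1 ≤ sing n := one_le_sing n
    obtain ⟨S, hS⟩ : ∃ S : ℝ, S = sing n := ⟨_, rfl⟩
    obtain ⟨Q, hQ⟩ : ∃ Q : ℝ, Q = Sa N a := ⟨_, rfl⟩
    rw [← hS] at k1 k2 hS1 ⊢
    rw [← hQ] at k1 c1 ⊢
    have k4 : |S * Q * (y : ℝ) - S * Q * ((j * H : ℕ) : ℝ)| ≤ 10 * L * H := by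
      rw [← mul_sub, abs_mul, abs_mul]
      have e1 : |(y : ℝ) - ((j * H : ℕ) : ℝ)| ≤ H := by
        rw [abs_of_nonneg (sub_nonneg.2 (by exact_mod_cast hj1))]
        have : (y : ℝ) ≤ ((j * H : ℕ) : ℝ) + H := by exact_mod_cast hj2
        linarith
      have e2 : |S| ≤ 2 * L := by rw [abs_of_nonneg (by linarith)]; exact k2
      calc |S| * |Q| * |(y : ℝ) - ((j * H : ℕ) : ℝ)| ≤ (2 * L) * 5 * H := by gcongr
        _ = 10 * L * H := by ring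
    have k5 : |∑ b ∈ Icc 1 y, la b * Ea a (n - b) - S * Q * y| ≤ N / L ^ W + H * L ^ 2 + 10 * L * H := by
      have e1 : ∑ b ∈ Icc 1 y, la b * Ea a (n - b) - S * Q * y =
          (∑ b ∈ Icc 1 (j * H), la b * Ea a (n - b) - S * Q * ((j * H : ℕ) : ℝ)) +
          (∑ b ∈ Icc 1 y, la b * Ea a (n - b) - ∑ b ∈ Icc 1 (j * H), la b * Ea a (n - b)) -
          (S * Q * (y : ℝ) - S * Q * ((j * H : ℕ) : ℝ)) := by ring
      rw [e1]
      refine (abs_sub _ _).trans ?_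
      have := abs_add_le (∑ b ∈ Icc 1 (j * H), la b * Ea a (n - b) - S * Q * ((j * H : ℕ) : ℝ))
        (∑ b ∈ Icc 1 y, la b * Ea a (n - b) - ∑ b ∈ Icc 1 (j * H), la b * Ea a (n - b))
      linarith
    refine k5.trans ?_
    have hH0 : (0 : ℝ) ≤ H := by positivity
    have k6 : (H : ℝ) * L ^ 2 + 10 * L * H ≤ 2 * (N / L ^ W) * (L ^ 2 + 10 * L) := by
      have : (H : ℝ) * L ^ 2 + 10 * L * H = H * (L ^ 2 + 10 * L) := by ring
      rw [this]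
      gcongr
    have k7 : (N : ℝ) / L ^ V = N / L ^ W * L ^ 3 := by
      rw [hW, pow_add]
      field_simp
    rw [k7]
    have k8 : 0 ≤ (N : ℝ) / L ^ W := by positivity
    have k9 : 1 + 2 * (L ^ 2 + 10 * L) ≤ L ^ 3 := by
      nlinarith [mul_nonneg (sub_nonneg.2 hL100) (sq_nonneg L), mul_nonneg (sub_nonneg.2 hL100) hL0.le]
    calc (N : ℝ) / L ^ W + H * L ^ 2 + 10 * L * H ≤ N / L ^ W * (1 + 2 * (L ^ 2 + 10 * L)) := by
          have : (N : ℝ) / L ^ W * (1 + 2 * (L ^ 2 + 10 * L)) = N / L ^ W + 2 * (N / L ^ W) * (L ^ 2 + 10 * L) := by ring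
          rw [this]
          linarith
      _ ≤ N / L ^ W * L ^ 3 := by gcongr
  have hcls : ∀ n ∈ Bd, n ∈ (Icc 1 (2 * N)).filter (fun n : ℕ => (n : ZMod q) = (c : ZMod q)) := by
    intro n hn
    obtain ⟨a1, a2, a3, a4, a5⟩ := hmem n hn
    rw [mem_filter, mem_Icc]
    exact ⟨⟨a1, by omega⟩, (ZMod.natCast_eq_natCast_iff' n c q).2 a4⟩
  obtain ⟨R, hR⟩ : ∃ R : ℝ, R = (N : ℝ) ^ 3 / (q * L ^ (A + 3 * W + 8)) := ⟨_, rfl⟩
  have hR0 : 0 < R := by rw [hR]; positivity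
  have hEsum : ∀ j ∈ J, ∑ n ∈ (Icc 1 (2 * N)).filter (fun n : ℕ => (n : ZMod q) = (c : ZMod q)),
      EqE N a z r n (j * H) ≤ R := by
    intro j hj
    rw [hJ, mem_filter] at hj
    unfold EqE
    have k1 := hms (j * H) N hj.2 le_rfl
    rw [← hR] at k1
    exact k1
  have hJc : (J.card : ℝ) ≤ 3 * L ^ W := by
    have e1 : J.card ≤ Tg + 1 := by
      rw [hJ]
      exact (card_filter_le _ _).trans (card_range _).le
    have e2 : (J.card : ℝ) ≤ Tg + 1 := by exact_mod_cast e1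
    linarith
  have hsum2 : (Bd.card : ℝ) * (N / L ^ (W + 2)) ^ 2 ≤ 3 * L ^ W * R := by
    calc (Bd.card : ℝ) * (N / L ^ (W + 2)) ^ 2 = ∑ _n ∈ Bd, ((N : ℝ) / L ^ (W + 2)) ^ 2 := by
          rw [sum_const, nsmul_eq_mul]
      _ ≤ ∑ n ∈ Bd, ∑ j ∈ J, EqE N a z r n (j * H) := sum_le_sum hterm
      _ ≤ ∑ n ∈ (Icc 1 (2 * N)).filter (fun n : ℕ => (n : ZMod q) = (c : ZMod q)),
          ∑ j ∈ J, EqE N a z r n (j * H) :=
          sum_le_sum_of_subset_of_nonneg hcls fun n _ _ => sum_nonneg fun j _ => sq_nonneg _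
      _ = ∑ j ∈ J, ∑ n ∈ (Icc 1 (2 * N)).filter (fun n : ℕ => (n : ZMod q) = (c : ZMod q)),
          EqE N a z r n (j * H) := sum_comm
      _ ≤ ∑ j ∈ J, R := sum_le_sum hEsum
      _ = (J.card : ℝ) * R := by rw [sum_const, nsmul_eq_mul]
      _ ≤ (3 * L ^ W) * R := by gcongr
  have h4 : 3 * L ^ W * R ≤ (N / (q * L ^ A)) * (N / L ^ (W + 2)) ^ 2 := by
    have e1 : (N / (q * L ^ A)) * (N / L ^ (W + 2)) ^ 2 =
        (N : ℝ) ^ 3 / (q * L ^ (A + 3 * W + 8)) * (L ^ W * L ^ 4) := by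
      have e2 : L ^ (A + 3 * W + 8) = L ^ A * (L ^ W) ^ 3 * L ^ 8 := by
        rw [← pow_mul, ← pow_add, ← pow_add]
        congr 1
        ring
      rw [e2, pow_add]
      have e0 : L ^ W ≠ 0 := by positivity
      have e3 : L ^ A ≠ 0 := by positivity
      generalize L ^ W = X at e0 ⊢
      generalize L ^ A = Y at e3 ⊢
      field_simp
    rw [e1, ← hR]
    have e4 : (3 : ℝ) ≤ L ^ 4 := by
      have : L ^ 1 ≤ L ^ 4 := pow_le_pow_right₀ hL1 (by norm_num)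
      linarith
    calc 3 * L ^ W * R = R * (L ^ W * 3) := by ring
      _ ≤ R * (L ^ W * L ^ 4) := by gcongr
  exact le_of_mul_le_mul_right (hsum2.trans h4) (by positivity)

/-- the choice of the parameter `z` -/
lemma z_choice (L : ℝ) (hL : 100 ≤ L) (B E1 : ℕ) (hB : B ≤ E1) :
    ∃ z : ℕ, L ^ B ≤ z ∧ L ^ E1 ≤ z ∧ (z : ℝ) ≤ L ^ (E1 + 1) := by
  have hL1 : 1 ≤ L := by linarith
  refine ⟨⌈L ^ E1⌉₊, (pow_le_pow_right₀ hL1 hB).trans (Nat.le_ceil _), Nat.le_ceil _, ?_⟩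
  have hL1B : 1 ≤ L ^ E1 := one_le_pow₀ hL1
  have := Nat.ceil_lt_add_one (show 0 ≤ L ^ E1 by positivity)
  calc (⌈L ^ E1⌉₊ : ℝ) ≤ L ^ E1 + 1 := this.le
    _ ≤ L ^ E1 + L ^ E1 := by linarith
    _ = 2 * L ^ E1 := by ring
    _ ≤ L * L ^ E1 := mul_le_mul_of_nonneg_right (by linarith) (by positivity)
    _ = L ^ (E1 + 1) := by ring

theorem emain (hsa : SaStm) (hg : GridStm) (hErr : ErrStm) : MainStm := by
  intro ρ hρ A T V
  obtain ⟨B, hB⟩ := hErr (A + 3 * (V + 3) + 8) T (V + 3 + 6) ρ hρ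
  obtain ⟨E1, hE1⟩ : ∃ E1, E1 = max B (V + 3 + 8) := ⟨_, rfl⟩
  obtain ⟨N₁, h1⟩ := hB (E1 + 1)
  obtain ⟨N₂, h2⟩ := core_main hsa hg ρ hρ A V E1 (by rw [hE1]; exact le_max_right _ _)
  obtain ⟨N₄, h4⟩ := Filter.eventually_atTop.1 (ev_log 1 (s := 1 / 50) (by norm_num) 100)
  refine ⟨N₁ + N₂ + N₄ + 3, fun N hN a ha q hq1 hqN c hc => ?_⟩
  have : NeZero q := ⟨by omega⟩
  obtain ⟨z, hzB, hzlo, hzhi⟩ := z_choice (Real.log N) (h4 N (by omega)).1 B E1 (by rw [hE1]; exact le_max_left _ _)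
  obtain ⟨r, hPar, hsum, hms⟩ := h1 N (by omega) z hzB hzhi
  have hgcd : ((Nat.gcd (ZMod.val (c : ZMod q)) q : ℕ) : ℝ) ≤ Real.log N ^ T := by
    rw [ZMod.val_natCast, ← Nat.gcd_rec, Nat.gcd_comm]
    exact hc
  exact h2 N (by omega) a ha z r hzlo hzhi hsum q hqN c (fun y₁ y₂ hy₁ hy₂ => hms a ha q hqN (c : ZMod q) hgcd y₁ y₂ hy₁ hy₂)

theorem emainr (hsa : SaStm) (hg : GridStm) (hErr : ErrRStm) : MainRStm := by
  intro ρ hρ A V
  obtain ⟨c', hB⟩ := hErr (A + 3 * (V + 3) + 8) (V + 3 + 6) ρ hρ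
  refine ⟨c', fun A₀ => ?_⟩
  obtain ⟨B, hB⟩ := hB A₀
  obtain ⟨E1, hE1⟩ : ∃ E1, E1 = max B (V + 3 + 8) := ⟨_, rfl⟩
  obtain ⟨N₁, h1⟩ := hB (E1 + 1)
  obtain ⟨N₂, h2⟩ := core_main hsa hg ρ hρ A V E1 (by rw [hE1]; exact le_max_right _ _)
  obtain ⟨N₄, h4⟩ := Filter.eventually_atTop.1 (ev_log 1 (s := 1 / 50) (by norm_num) 100)
  refine ⟨N₁ + N₂ + N₄ + 3, fun N hN a ha => ?_⟩
  obtain ⟨D, hDc, hDl, c1⟩ := h1 N (by omega) a ha
  refine ⟨D, hDc, hDl, fun q hq1 hqN hqD c => ?_⟩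
  have : NeZero q := ⟨by omega⟩
  obtain ⟨z, hzB, hzlo, hzhi⟩ := z_choice (Real.log N) (h4 N (by omega)).1 B E1 (by rw [hE1]; exact le_max_left _ _)
  obtain ⟨r, hPar, hsum, hms⟩ := c1 z hzB hzhi
  exact h2 N (by omega) a ha z r hzlo hzhi hsum q hqN c (fun y₁ y₂ hy₁ hy₂ => hms q hqN hqD (c : ZMod q) y₁ y₂ hy₁ hy₂)

end Pool.Agent.Helper34.GE
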