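import Pool.Agent.Helper34.GE.Fin2
import Pool.Agent.Helper34.GE.EMin
import Pool.Agent.Helper34.GE.ER2
import Pool.Agent.Helper34.GE.ER3
import Pool.Agent.Helper34.GE.Eap
import Pool.Agent.Helper34.GE.Emaj
import Pool.Agent.Helper34.GE.Er4
import Pool.Agent.Helper34.GE.Err
import Pool.Agent.Helper34.GE.ErrR
import Pool.Agent.Helper34.GE.Esa
import Pool.Agent.Helper34.GE.Esh
import Pool.Agent.Helper34.GE.Grid
import Pool.Agent.Helper34.GE.Main
import Pool.Agent.Helper34.GE.Mod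
import Pool.Agent.Helper34.GE.Enc
import Pool.Agent.Helper34.GX.RConv

set_option autoImplicit false

/-! Project GE: the assembly. -/

namespace Pool.Agent.Helper34.GE

open Finset
open Pool.Agent.R460.GH (bilMaj3 countK)
open Pool.Agent.R460.GS (tiMaj2)
open Pool.Agent.T6.H3.FF (core4)
open Pool.Agent.T6.H3.FR (core5)

theorem maj_all : MajStm := emaj Pool.Agent.Y812.GJ.l2 (bilMaj3 Pool.Agent.Y812.GJ.l2 (countK Pool.Agent.Y812.GJ.l2))

theorem min_all : MinStm := emin Pool.Agent.Y909.GJ.bilMin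

theorem mh_all : MHStm := mH (tiMaj2 Pool.Agent.Y812.GJ.l2) Pool.Agent.Y812.GJ.lsh_le

theorem nh_all : NHStm := nH Pool.Agent.Y412.GJ.tiMin Pool.Agent.Y812.GJ.lsh_le

theorem err_all : ErrStm :=
  eerr (core4 Pool.Agent.Y708.GJ.lift Pool.Agent.Y872.GJ.pars Pool.Agent.Y297.GJ.orth Pool.Agent.Y812.GJ.nonU)
    esa maj_all min_all mh_all nh_all eap enc
    (esh Pool.Agent.Y235.GJ.vau Pool.Agent.Y662.GJ.jac Pool.Agent.Y812.GJ.l2) Pool.Agent.Y883.GJ.model_all

theorem errR_all : ErrRStm :=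
  eerrr (core5 Pool.Agent.Y708.GJ.lift Pool.Agent.Y872.GJ.pars Pool.Agent.Y297.GJ.orth Pool.Agent.Y812.GJ.nonU)
    esa maj_all min_all mh_all nh_all eap enc (er4 (er2 Pool.Agent.Y812.GJ.l2) er3) Pool.Agent.Y883.GJ.model_all

theorem main_all : MainStm := emain esa (egrid esa) err_all

theorem mainR_all : MainRStm := emainr esa (egrid esa) errR_all

end Pool.Agent.Helper34.GE
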