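import Pool.Agent.Helper34.GE.Conv

set_option autoImplicit false

/-! Project GE: from the weights `Λ` to primes. -/

namespace Pool.Agent.Helper34.GE

open Finset
open Pool.Agent.R460.GS (la la_nn vm_le)
open Pool.Agent.H560R3.GB (sing)

/-- the indicator function of a finite set -/
noncomputable def ind (K : Finset ℕ) (k : ℕ) : ℝ := if k ∈ K then 1 else 0

/-- the weighted number of the solutions of `n = p + k p'` in primes `p`, `p'`, with `k ∈ K` and `y₁ < p ≤ y₂`: the sum
of `log p log p'` -/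
noncomputable def reps (K : Finset ℕ) (n y₁ y₂ : ℕ) : ℝ :=
  ∑ p ∈ (Ioc y₁ y₂).filter Nat.Prime, ∑ k ∈ K.filter (fun k => k ∣ n - p ∧ ((n - p) / k).Prime),
    Real.log p * Real.log ((n - p) / k : ℕ)

lemma pp_le {N : ℕ} (hN : 1 ≤ N) :
    ∑ b ∈ (Icc 1 N).filter (fun b => ¬ b.Prime), la b ≤ 2 * √(N : ℝ) * Real.log N := by
  have h := Chebyshev.psi_sub_theta_le (x := (N : ℝ)) (by exact_mod_cast hN)
  rw [Chebyshev.psi_sub_theta_eq_sum_not_prime, Nat.floor_natCast] at h
  have e : Icc 1 N = Ioc 0 N := by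
    ext b
    simp only [mem_Icc, mem_Ioc]
    omega
  rw [e]
  exact h

lemma Ea_ind {K : Finset ℕ} {m : ℕ} (hm : m ≠ 0) :
    Ea (ind K) m = ∑ k ∈ K.filter (fun k => k ∣ m), la (m / k) := by
  unfold Ea ind
  have h1 : ∀ k ∈ m.divisors, (if k ∈ K then (1 : ℝ) else 0) * ArithmeticFunction.vonMangoldt (m / k) =
      if k ∈ K then la (m / k) else 0 := by
    intro k _
    split_ifs
    · rw [one_mul]; rfl
    · rw [zero_mul]
  rw [sum_congr rfl h1, ← sum_filter]
  apply sum_congr _ fun _ _ => rfl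
  ext k
  simp only [mem_filter, Nat.mem_divisors]
  exact ⟨fun h => ⟨h.2, h.1.1⟩, fun h => ⟨⟨h.2, hm⟩, h.1⟩⟩

lemma Ea_log {K : Finset ℕ} {m : ℕ} (hm : m ≠ 0) :
    ∑ k ∈ K.filter (fun k => k ∣ m), la (m / k) ≤ Real.log m := by
  have h1 : ∑ i ∈ m.divisors, la i = Real.log m := ArithmeticFunction.vonMangoldt_sum
  rw [← h1, ← Nat.sum_div_divisors m la]
  apply sum_le_sum_of_subset_of_nonneg
  · intro k hk
    rw [mem_filter] at hk
    exact Nat.mem_divisors.2 ⟨hk.2, hm⟩
  · intro k _ _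
    exact la_nn _

/-- the proper prime powers contribute little -/
lemma diff_le {K : Finset ℕ} {N n y₁ y₂ : ℕ} (hK : ∀ k ∈ K, 1 ≤ k) (h2 : y₂ < n) (hn : n ≤ N) :
    |∑ b ∈ Ioc y₁ y₂, la b * Ea (ind K) (n - b) - reps K n y₁ y₂| ≤
      2 * √(N : ℝ) * Real.log N ^ 2 * (1 + K.card) := by
  classical
  have hN1 : 1 ≤ N := by omega
  have hL0 : 0 ≤ Real.log N := Real.log_natCast_nonneg N
  have hlaN : ∀ b, b ≤ N → la b ≤ Real.log N := by
    intro b hb
    rcases Nat.eq_zero_or_pos b with h | h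
    · rw [h]
      have : la 0 = 0 := by unfold la; simp
      rw [this]; exact hL0
    · exact vm_le (mem_Icc.2 ⟨h, hb⟩)
  have e1 : ∑ b ∈ Ioc y₁ y₂, la b * Ea (ind K) (n - b) =
      ∑ b ∈ Ioc y₁ y₂, ∑ k ∈ K.filter (fun k => k ∣ n - b), la b * la ((n - b) / k) := by
    refine sum_congr rfl fun b hb => ?_
    rw [mem_Ioc] at hb
    rw [Ea_ind (by omega), mul_sum]
  have e2 : reps K n y₁ y₂ = ∑ b ∈ Ioc y₁ y₂, ∑ k ∈ K.filter (fun k => k ∣ n - b),
      if b.Prime ∧ ((n - b) / k).Prime then la b * la ((n - b) / k) else 0 := by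
    unfold reps
    rw [sum_filter]
    refine sum_congr rfl fun b _ => ?_
    by_cases hb : b.Prime
    · rw [if_pos hb]
      simp only [hb, true_and]
      rw [← sum_filter, filter_filter]
      refine sum_congr rfl fun k hk => ?_
      rw [mem_filter] at hk
      have l1 : la b = Real.log b := ArithmeticFunction.vonMangoldt_apply_prime hb
      have l2 : la ((n - b) / k) = Real.log ((n - b) / k : ℕ) := ArithmeticFunction.vonMangoldt_apply_prime hk.2.2
      rw [l1, l2]
    · rw [if_neg hb]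
      simp [hb]
  rw [e1, e2, ← sum_sub_distrib]
  have e3 : ∀ b ∈ Ioc y₁ y₂, (∑ k ∈ K.filter (fun k => k ∣ n - b), la b * la ((n - b) / k) -
      ∑ k ∈ K.filter (fun k => k ∣ n - b), if b.Prime ∧ ((n - b) / k).Prime then la b * la ((n - b) / k) else 0) =
      ∑ k ∈ K.filter (fun k => k ∣ n - b), if ¬ (b.Prime ∧ ((n - b) / k).Prime) then la b * la ((n - b) / k) else 0 := by
    intro b _
    rw [← sum_sub_distrib]
    refine sum_congr rfl fun k _ => ?_
    by_cases h : b.Prime ∧ ((n - b) / k).Prime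
    · rw [if_pos h, if_neg (not_not.2 h), sub_self]
    · rw [if_neg h, if_pos h, sub_zero]
  rw [sum_congr rfl e3, abs_of_nonneg (sum_nonneg fun b _ => sum_nonneg fun k _ => by
    split_ifs <;> first | exact le_rfl | exact mul_nonneg (la_nn _) (la_nn _))]
  -- two parts
  have e4 : ∀ b ∈ Ioc y₁ y₂, (∑ k ∈ K.filter (fun k => k ∣ n - b),
      if ¬ (b.Prime ∧ ((n - b) / k).Prime) then la b * la ((n - b) / k) else 0) ≤
      (if ¬ b.Prime then la b * Real.log N else 0) +
      Real.log N * ∑ k ∈ K, if k ∣ n - b ∧ ¬ ((n - b) / k).Prime then la ((n - b) / k) else 0 := by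
    intro b hb
    rw [mem_Ioc] at hb
    have hs0 : 0 ≤ ∑ k ∈ K, if k ∣ n - b ∧ ¬ ((n - b) / k).Prime then la ((n - b) / k) else 0 :=
      sum_nonneg fun k _ => by
        split_ifs
        · exact la_nn _
        · exact le_rfl
    by_cases hbp : b.Prime
    · rw [if_neg (not_not.2 hbp), zero_add, mul_sum]
      rw [sum_filter]
      refine sum_le_sum fun k _ => ?_
      by_cases hk : k ∣ n - b
      · rw [if_pos hk]
        by_cases hl : ((n - b) / k).Prime
        · rw [if_neg (not_not.2 ⟨hbp, hl⟩), if_neg (fun h => h.2 hl), mul_zero]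
        · rw [if_pos (fun h => hl h.2), if_pos ⟨hk, hl⟩]
          exact mul_le_mul_of_nonneg_right (hlaN b (by omega)) (la_nn _)
      · rw [if_neg hk, if_neg (fun h => hk h.1), mul_zero]
    · rw [if_pos hbp]
      refine le_trans ?_ (le_add_of_nonneg_right (mul_nonneg hL0 hs0))
      calc ∑ k ∈ K.filter (fun k => k ∣ n - b), (if ¬ (b.Prime ∧ ((n - b) / k).Prime) then la b * la ((n - b) / k) else 0)
          = ∑ k ∈ K.filter (fun k => k ∣ n - b), la b * la ((n - b) / k) := by
            refine sum_congr rfl fun k _ => ?_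
            rw [if_pos (fun h => hbp h.1)]
        _ = la b * ∑ k ∈ K.filter (fun k => k ∣ n - b), la ((n - b) / k) := by rw [mul_sum]
        _ ≤ la b * Real.log N := by
            apply mul_le_mul_of_nonneg_left _ (la_nn _)
            refine (Ea_log (by omega)).trans ?_
            apply Real.log_le_log
            · exact_mod_cast (by omega : 0 < n - b)
            · exact_mod_cast (by omega : n - b ≤ N)
  refine (sum_le_sum e4).trans ?_
  rw [sum_add_distrib, ← mul_sum, ← sum_filter, ← sum_mul]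
  have hpp := pp_le hN1
  have p1 : ∑ b ∈ (Ioc y₁ y₂).filter (fun b => ¬ b.Prime), la b ≤ 2 * √(N : ℝ) * Real.log N := by
    refine le_trans ?_ hpp
    apply sum_le_sum_of_subset_of_nonneg
    · intro b hb
      rw [mem_filter, mem_Ioc] at hb
      rw [mem_filter, mem_Icc]
      exact ⟨by omega, hb.2⟩
    · intro b _ _
      exact la_nn b
  have p2 : ∑ b ∈ Ioc y₁ y₂, ∑ k ∈ K, (if k ∣ n - b ∧ ¬ ((n - b) / k).Prime then la ((n - b) / k) else 0) ≤
      K.card * (2 * √(N : ℝ) * Real.log N) := by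
    rw [sum_comm, ← nsmul_eq_mul, ← sum_const]
    refine sum_le_sum fun k hk => ?_
    refine le_trans ?_ hpp
    rw [← sum_filter]
    have hk1 := hK k hk
    have hinj : Set.InjOn (fun b => (n - b) / k)
        ((Ioc y₁ y₂).filter (fun b => k ∣ n - b ∧ ¬ ((n - b) / k).Prime)) := by
      intro b hb b' hb' h
      rw [mem_coe, mem_filter, mem_Ioc] at hb hb'
      simp only at h
      have k1 := Nat.div_mul_cancel hb.2.1
      have k2 := Nat.div_mul_cancel hb'.2.1
      rw [h] at k1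
      omega
    rw [← sum_image (f := la) hinj]
    apply sum_le_sum_of_subset_of_nonneg
    · intro l hl
      rw [mem_image] at hl
      obtain ⟨b, hb, rfl⟩ := hl
      rw [mem_filter, mem_Ioc] at hb
      rw [mem_filter, mem_Icc]
      refine ⟨⟨?_, ?_⟩, hb.2.2⟩
      · exact Nat.div_pos (Nat.le_of_dvd (by omega) hb.2.1) hk1
      · exact (Nat.div_le_self _ _).trans (by omega)
    · intro b _ _
      exact la_nn b
  have hS : 0 ≤ √(N : ℝ) := Real.sqrt_nonneg _
  calc (∑ b ∈ (Ioc y₁ y₂).filter (fun b => ¬ b.Prime), la b) * Real.log N +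
        Real.log N * ∑ b ∈ Ioc y₁ y₂, ∑ k ∈ K, (if k ∣ n - b ∧ ¬ ((n - b) / k).Prime then la ((n - b) / k) else 0)
      ≤ (2 * √(N : ℝ) * Real.log N) * Real.log N + Real.log N * (K.card * (2 * √(N : ℝ) * Real.log N)) := by gcongr
    _ = 2 * √(N : ℝ) * Real.log N ^ 2 * (1 + K.card) := by ring

end Pool.Agent.Helper34.GE
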