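import Pool.Agent.Helper34.GE.Fin

set_option autoImplicit false

/-! Project GE: the final theorem from the statements `MainStm` and `MainRStm`. -/

namespace Pool.Agent.Helper34.GE

open Finset
open Pool.Agent.R460.GS (la la_nn vm_le real_log)
open Pool.Agent.H560R3.GB (sing)

/-- the asymptotic formula in all windows -/
def Formula (V : ℕ) (x : ℝ) (K : Finset ℕ) (n : ℕ) : Prop :=
  ∀ y z : ℕ, y ≤ z → z < n →
    |reps K n y z - sing n * (∑ k ∈ K, (1 : ℝ) / k) * ((z : ℝ) - y)| ≤ x / Real.log x ^ V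

lemma adm_ind {K : Finset ℕ} {x : ℝ} (hx : 2 ^ 60 ≤ x)
    (hK : ∀ k ∈ K, k.Prime ∧ x ^ (1 / 1000 : ℝ) ≤ k ∧ (k : ℝ) ≤ x ^ (1 / 51 : ℝ)) : Adm ⌊x⌋₊ (ind K) := by
  have hx0 : 0 < x := lt_of_lt_of_le (by norm_num) hx
  obtain ⟨N, hN⟩ : ∃ N, N = ⌊x⌋₊ := ⟨_, rfl⟩
  have hNx : (N : ℝ) ≤ x := by rw [hN]; exact Nat.floor_le hx0.le
  have hxN1 : x < N + 1 := by rw [hN]; exact Nat.lt_floor_add_one x
  have hx4 : (4 : ℝ) ≤ x := le_trans (by norm_num) hx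
  have hN1 : (1 : ℝ) < N := by linarith
  have hN0 : (0 : ℝ) < N := by linarith
  rw [← hN]
  refine ⟨fun k => ?_, fun k hk => ?_⟩
  · unfold ind
    split_ifs <;> simp
  · have hkK : k ∈ K := by
      by_contra h
      apply hk
      unfold ind
      rw [if_neg h]
    obtain ⟨h1, h2, h3⟩ := hK k hkK
    refine ⟨h1, ?_, ?_⟩
    · calc (N : ℝ) ^ (1 / 2000 : ℝ) < (N : ℝ) ^ (1 / 1000 : ℝ) :=
            Real.rpow_lt_rpow_of_exponent_lt hN1 (by norm_num)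
        _ ≤ x ^ (1 / 1000 : ℝ) := Real.rpow_le_rpow hN0.le hNx (by norm_num)
        _ ≤ k := h2
    · refine h3.trans ?_
      have h4 : (2 : ℝ) ≤ x ^ (1 / 51 : ℝ) := by
        calc (2 : ℝ) = ((2 : ℝ) ^ (51 : ℝ)) ^ (1 / 51 : ℝ) := by
              rw [← Real.rpow_mul (by norm_num)]
              norm_num
          _ ≤ x ^ (1 / 51 : ℝ) := by
              apply Real.rpow_le_rpow (by positivity) _ (by norm_num)
              refine le_trans ?_ hx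
              have : (2 : ℝ) ^ (51 : ℝ) = 2 ^ 51 := by
                rw [← Real.rpow_natCast]; norm_num
              rw [this]; norm_num
      have h5 : x ^ (50 / 51 : ℝ) ≤ x / 2 := by
        rw [le_div_iff₀ (by norm_num)]
        calc x ^ (50 / 51 : ℝ) * 2 ≤ x ^ (50 / 51 : ℝ) * x ^ (1 / 51 : ℝ) := by gcongr
          _ = x := by rw [← Real.rpow_add hx0]; norm_num
      calc x ^ (1 / 51 : ℝ) = (x ^ (50 / 51 : ℝ)) ^ (1 / 50 : ℝ) := by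
            rw [← Real.rpow_mul hx0.le]
            norm_num
        _ ≤ (N : ℝ) ^ (1 / 50 : ℝ) := by
            apply Real.rpow_le_rpow (by positivity) _ (by norm_num)
            refine h5.trans ?_
            linarith

lemma card_K {K : Finset ℕ} {N : ℕ} (hA : Adm N (ind K)) : (K.card : ℝ) ≤ (N : ℝ) ^ (1 / 50 : ℝ) := by
  have h1 : K ⊆ Icc 1 ⌊(N : ℝ) ^ (1 / 50 : ℝ)⌋₊ := by
    intro k hk
    obtain ⟨h1, -, h3⟩ := hA.h2 k (by unfold ind; rw [if_pos hk]; norm_num)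
    rw [mem_Icc]
    exact ⟨h1.one_le, Nat.le_floor h3⟩
  have h2 := card_le_card h1
  rw [Nat.card_Icc, Nat.add_sub_cancel] at h2
  refine le_trans ?_ (Nat.floor_le (by positivity))
  exact_mod_cast h2

lemma Sa_ind {K : Finset ℕ} {N : ℕ} (hN : 1 ≤ N) (hA : Adm N (ind K)) :
    Sa N (ind K) = ∑ k ∈ K, (1 : ℝ) / k := by
  unfold Sa
  have hNr : (1 : ℝ) ≤ N := by exact_mod_cast hN
  have h1 : K ⊆ Icc 1 N := by
    intro k hk
    obtain ⟨h1, -, h3⟩ := hA.h2 k (by unfold ind; rw [if_pos hk]; norm_num)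
    rw [mem_Icc]
    refine ⟨h1.one_le, ?_⟩
    have : (k : ℝ) ≤ N := by
      calc (k : ℝ) ≤ (N : ℝ) ^ (1 / 50 : ℝ) := h3
        _ ≤ (N : ℝ) ^ (1 : ℝ) := Real.rpow_le_rpow_of_exponent_le hNr (by norm_num)
        _ = N := Real.rpow_one _
    exact_mod_cast this
  rw [← sum_subset h1]
  · refine sum_congr rfl fun k hk => ?_
    unfold ind
    rw [if_pos hk]
  · intro k _ hk
    unfold ind
    rw [if_neg hk, zero_div]

/-- from the weights `Λ` to primes -/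
lemma formula_of (V : ℕ) : ∃ x₀ : ℝ, ∀ x : ℝ, x₀ ≤ x → ∀ K : Finset ℕ, Adm ⌊x⌋₊ (ind K) →
    ∀ n : ℕ, n ≤ ⌊x⌋₊ → Win (V + 1) ⌊x⌋₊ (ind K) n → Formula V x K n := by
  obtain ⟨x₁, hx₁⟩ := Filter.eventually_atTop.1 (real_log (V + 2) (s := 1 / 10) (by norm_num) (2 ^ (V + 3) + 16))
  refine ⟨max x₁ 4, fun x hx K hA n hn hw => ?_⟩
  obtain ⟨hl1, hl2⟩ := hx₁ x ((le_max_left _ _).trans hx)
  have hx4 : 4 ≤ x := (le_max_right _ _).trans hx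
  have hx0 : 0 < x := by linarith
  obtain ⟨N, hN⟩ : ∃ N, N = ⌊x⌋₊ := ⟨_, rfl⟩
  rw [← hN] at hA hn hw
  have hNx : (N : ℝ) ≤ x := by rw [hN]; exact Nat.floor_le hx0.le
  have hxN1 : x < N + 1 := by rw [hN]; exact Nat.lt_floor_add_one x
  have hN1 : 1 ≤ N := by
    have : (1 : ℝ) ≤ N := by linarith
    exact_mod_cast this
  have hN0 : (0 : ℝ) < N := by linarith
  intro y z hyz hz
  have hwy := hw y (lt_of_le_of_lt hyz hz)
  have hwz := hw z hz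
  have hd := diff_le (K := K) (N := N) (n := n) (y₁ := y) (y₂ := z) (fun k hk => by
    obtain ⟨h1, -, -⟩ := hA.h2 k (by unfold ind; rw [if_pos hk]; norm_num)
    exact h1.one_le) hz hn
  rw [Sa_ind hN1 hA] at hwy hwz
  have hsplit : ∑ b ∈ Ioc y z, la b * Ea (ind K) (n - b) =
      ∑ b ∈ Icc 1 z, la b * Ea (ind K) (n - b) - ∑ b ∈ Icc 1 y, la b * Ea (ind K) (n - b) := by
    have e : Icc 1 z = Icc 1 y ∪ Ioc y z := by
      ext b
      simp only [mem_Icc, mem_union, mem_Ioc]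
      omega
    rw [e, sum_union]
    · ring
    · rw [disjoint_left]
      intro b hb hb'
      rw [mem_Icc] at hb
      rw [mem_Ioc] at hb'
      omega
  rw [hsplit] at hd
  have hc := card_K hA
  obtain ⟨l, hl⟩ : ∃ l, l = Real.log x := ⟨_, rfl⟩
  obtain ⟨L, hL⟩ : ∃ L, L = Real.log N := ⟨_, rfl⟩
  rw [← hL] at hwy hwz hd
  rw [← hl] at hl1 hl2 ⊢
  have hLl : L ≤ l := by rw [hL, hl]; exact Real.log_le_log hN0 hNx
  have h2V : (0 : ℝ) < 2 ^ (V + 3) := by positivity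
  have hlL : l / 2 ≤ L := by
    have h1 : x / 2 ≤ N := by linarith
    have h2 : Real.log (x / 2) ≤ L := by rw [hL]; exact Real.log_le_log (by linarith) h1
    rw [Real.log_div hx0.ne' (by norm_num), ← hl] at h2
    have h3 := Real.log_two_lt_d9
    linarith
  have hl0 : 0 < l := by linarith
  have hL0 : 0 < L := by linarith
  -- the first error
  have e1 : 2 * ((N : ℝ) / L ^ (V + 1)) ≤ x / l ^ V / 2 := by
    have h1 : (l / 2) ^ (V + 1) ≤ L ^ (V + 1) := pow_le_pow_left₀ (by positivity) hlL _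
    calc 2 * ((N : ℝ) / L ^ (V + 1)) ≤ 2 * (x / (l / 2) ^ (V + 1)) := by gcongr
      _ = x / l ^ V * (2 ^ (V + 2) / l) := by
          rw [div_pow, pow_succ l V, pow_succ (2 : ℝ) (V + 1)]
          field_simp
      _ ≤ x / l ^ V * (1 / 2) := by
          have : 2 ^ (V + 2) / l ≤ (1 : ℝ) / 2 := by
            rw [div_le_div_iff₀ hl0 (by norm_num)]
            have : (2 : ℝ) ^ (V + 3) = 2 ^ (V + 2) * 2 := pow_succ _ _
            linarith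
          gcongr
      _ = x / l ^ V / 2 := by ring
  -- the second error
  have e2 : 2 * √(N : ℝ) * L ^ 2 * (1 + K.card) ≤ x / l ^ V / 2 := by
    have h1 : √(N : ℝ) ≤ x ^ (1 / 2 : ℝ) := by
      rw [← Real.sqrt_eq_rpow]
      exact Real.sqrt_le_sqrt hNx
    have h2 : 1 + (K.card : ℝ) ≤ 2 * x ^ (1 / 50 : ℝ) := by
      have h3 : (N : ℝ) ^ (1 / 50 : ℝ) ≤ x ^ (1 / 50 : ℝ) := Real.rpow_le_rpow hN0.le hNx (by norm_num)
      have h4 : 1 ≤ x ^ (1 / 50 : ℝ) := Real.one_le_rpow (by linarith) (by norm_num)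
      linarith
    have h5 : L ^ 2 ≤ l ^ 2 := pow_le_pow_left₀ hL0.le hLl 2
    rw [div_div, le_div_iff₀ (by positivity)]
    calc 2 * √(N : ℝ) * L ^ 2 * (1 + K.card) * (l ^ V * 2)
        ≤ 2 * x ^ (1 / 2 : ℝ) * l ^ 2 * (2 * x ^ (1 / 50 : ℝ)) * (l ^ V * 2) := by gcongr
      _ = 8 * (l ^ (V + 2)) * (x ^ (1 / 2 : ℝ) * x ^ (1 / 50 : ℝ)) := by ring
      _ ≤ 8 * (x ^ (1 / 10 : ℝ)) * (x ^ (1 / 2 : ℝ) * x ^ (1 / 50 : ℝ)) := by gcongr
      _ = 8 * x ^ (31 / 50 : ℝ) := by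
          rw [mul_assoc, ← Real.rpow_add hx0, ← Real.rpow_add hx0]
          norm_num
      _ ≤ l * x ^ (31 / 50 : ℝ) := by
          gcongr
          linarith
      _ ≤ l ^ (V + 2) * x ^ (31 / 50 : ℝ) := by
          gcongr
          calc l = l ^ 1 := (pow_one l).symm
            _ ≤ l ^ (V + 2) := pow_le_pow_right₀ (by linarith) (by omega)
      _ ≤ x ^ (1 / 10 : ℝ) * x ^ (31 / 50 : ℝ) := by gcongr
      _ = x ^ (18 / 25 : ℝ) := by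
          rw [← Real.rpow_add hx0]
          norm_num
      _ ≤ x ^ (1 : ℝ) := Real.rpow_le_rpow_of_exponent_le (by linarith) (by norm_num)
      _ = x := Real.rpow_one _
  rw [abs_le] at hwy hwz hd ⊢
  obtain ⟨S, hS⟩ : ∃ S, S = sing n * ∑ k ∈ K, (1 : ℝ) / k := ⟨_, rfl⟩
  rw [← hS] at hwy hwz ⊢
  have e3 : S * ((z : ℝ) - y) = S * z - S * y := by ring
  rw [e3]
  constructor
  · linarith [hwy.1, hwy.2, hwz.1, hwz.2, hd.1, hd.2]
  · linarith [hwy.1, hwy.2, hwz.1, hwz.2, hd.1, hd.2]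

/-- the final theorem -/
theorem ge_main (hM : MainStm) (hR : MainRStm) (ρ : ℝ) (hρ : 0 < ρ) (A T V : ℕ) :
    ∃ c : ℕ, ∀ B : ℕ, ∃ x₀ : ℝ, ∀ x : ℝ, x₀ ≤ x → ∀ K : Finset ℕ,
      (∀ k ∈ K, k.Prime ∧ x ^ (1 / 1000 : ℝ) ≤ k ∧ (k : ℝ) ≤ x ^ (1 / 51 : ℝ)) →
      ∃ D : Finset ℕ, (D.card : ℝ) ≤ Real.log x ^ c ∧
      (∀ d ∈ D, Real.log x ^ B < (d : ℝ)) ∧
      ∀ q : ℕ, 1 ≤ q → (q : ℝ) ≤ x ^ (49 / 50 - ρ) → ∀ a : ℤ,
        ((Int.gcd a q : ℝ) ≤ Real.log x ^ T ∨ ∀ d ∈ D, ¬ d ∣ q) →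
        ({n : ℕ | 0 < n ∧ (n : ℝ) ≤ x ∧ 2 ∣ n ∧ (n : ℤ) ≡ a [ZMOD q] ∧ ¬ Formula V x K n}).Finite ∧
        (({n : ℕ | 0 < n ∧ (n : ℝ) ≤ x ∧ 2 ∣ n ∧ (n : ℤ) ≡ a [ZMOD q] ∧ ¬ Formula V x K n}.ncard : ℕ) : ℝ) ≤
          x / (q * Real.log x ^ A) := by
  obtain ⟨c, h1⟩ := conv hM hR ρ hρ A T (V + 1)
  obtain ⟨x₁, h2⟩ := formula_of V
  refine ⟨c, fun B => ?_⟩
  obtain ⟨x₂, h1⟩ := h1 B
  refine ⟨max (max x₁ x₂) (2 ^ 60), fun x hx K hK => ?_⟩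
  have hx1 : x₁ ≤ x := (le_max_left _ _).trans ((le_max_left _ _).trans hx)
  have hx2 : x₂ ≤ x := (le_max_right _ _).trans ((le_max_left _ _).trans hx)
  have hx3 : 2 ^ 60 ≤ x := (le_max_right _ _).trans hx
  have hA := adm_ind hx3 hK
  obtain ⟨D, hD1, hD2, h3⟩ := h1 x hx2 (ind K) hA
  refine ⟨D, hD1, hD2, fun q hq hqx a ha => ?_⟩
  obtain ⟨f1, f2⟩ := h3 q hq hqx a ha
  have hsub : {n : ℕ | 0 < n ∧ (n : ℝ) ≤ x ∧ 2 ∣ n ∧ (n : ℤ) ≡ a [ZMOD q] ∧ ¬ Formula V x K n} ⊆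
      {n : ℕ | 0 < n ∧ (n : ℝ) ≤ x ∧ 2 ∣ n ∧ (n : ℤ) ≡ a [ZMOD q] ∧ ¬ Win (V + 1) ⌊x⌋₊ (ind K) n} := by
    rintro n ⟨a1, a2, a3, a4, a5⟩
    exact ⟨a1, a2, a3, a4, fun h => a5 (h2 x hx1 K hA n (Nat.le_floor a2) h)⟩
  refine ⟨f1.subset hsub, le_trans ?_ f2⟩
  exact_mod_cast Set.ncard_le_ncard hsub f1

end Pool.Agent.Helper34.GE
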