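import Pool.Agent.Helper34.GE.Stm
import Pool.Graph.R_seed8.H373R2.T7.LamMaj

set_option autoImplicit false

/-! Project GE: the convolution `Ea`, sums over progressions, growth (helper14). -/

namespace Pool.Agent.Helper34.GE

open Finset Filter Topology
open Pool.Agent.H373R2.T7 (lam1 lam1_le lam_mult_prime natlog_le)
open Pool.Agent.R460.GS (card_pf_le)

/-- sums over the divisors of the `n ≤ y` with a property -/
lemma swap_dvd (F : ℕ → ℕ → ℝ) (P : ℕ → Prop) [DecidablePred P] {y N : ℕ} (hy : y ≤ N) :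
    ∑ n ∈ (Icc 1 y).filter P, ∑ k ∈ n.divisors, F k (n / k) =
      ∑ k ∈ Icc 1 N, ∑ m ∈ (Icc 1 (y / k)).filter (fun m => P (k * m)), F k m := by
  rw [sum_sigma', sum_sigma']
  refine sum_nbij' (fun x => (⟨x.2, x.1 / x.2⟩ : Σ _ : ℕ, ℕ)) (fun x => (⟨x.1 * x.2, x.1⟩ : Σ _ : ℕ, ℕ))
    ?_ ?_ ?_ ?_ ?_
  · rintro ⟨n, k⟩ h
    rw [mem_sigma, mem_filter, mem_Icc, Nat.mem_divisors] at h
    obtain ⟨⟨⟨h1, h2⟩, h3⟩, h4, h5⟩ := h
    simp only at h1 h2 h3 h4 h5
    have hk : 0 < k := Nat.pos_of_dvd_of_pos h4 h1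
    have hkn : k ≤ n := Nat.le_of_dvd h1 h4
    rw [mem_sigma, mem_filter, mem_Icc, mem_Icc]
    refine ⟨⟨hk, hkn.trans (h2.trans hy)⟩, ⟨?_, ?_⟩, ?_⟩
    · exact Nat.div_pos hkn hk
    · exact Nat.div_le_div_right h2
    · show P (k * (n / k))
      rw [Nat.mul_div_cancel' h4]
      exact h3
  · rintro ⟨k, m⟩ h
    rw [mem_sigma, mem_filter, mem_Icc, mem_Icc] at h
    obtain ⟨⟨h1, h2⟩, ⟨h3, h4⟩, h5⟩ := h
    simp only at h1 h2 h3 h4 h5
    rw [mem_sigma, mem_filter, mem_Icc, Nat.mem_divisors]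
    refine ⟨⟨⟨Nat.mul_pos h1 h3, ?_⟩, h5⟩, Nat.dvd_mul_right _ _, (Nat.mul_pos h1 h3).ne'⟩
    show k * m ≤ y
    rw [mul_comm]
    exact (Nat.le_div_iff_mul_le h1).1 h4
  · rintro ⟨n, k⟩ h
    rw [mem_sigma, mem_filter, mem_Icc, Nat.mem_divisors] at h
    obtain ⟨-, h4, -⟩ := h
    simp only at h4
    simp only [Sigma.mk.injEq, heq_eq_eq, and_true]
    exact Nat.mul_div_cancel' h4
  · rintro ⟨k, m⟩ h
    rw [mem_sigma, mem_filter, mem_Icc, mem_Icc] at h
    obtain ⟨⟨h1, -⟩, -⟩ := h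
    simp only at h1
    simp only [Sigma.mk.injEq, heq_eq_eq, true_and]
    exact Nat.mul_div_cancel_left m h1
  · rintro ⟨n, k⟩ -
    rfl

lemma abs_Ea_le' {N : ℕ} {a : ℕ → ℝ} (_ha : Adm N a) (n : ℕ) :
    |Ea a n| ≤ ∑ k ∈ n.divisors, |a k| * ArithmeticFunction.vonMangoldt (n / k) := by
  unfold Ea
  refine (abs_sum_le_sum_abs _ _).trans (le_of_eq (sum_congr rfl fun k _ => ?_))
  rw [abs_mul, abs_of_nonneg ArithmeticFunction.vonMangoldt_nonneg]

/-- `Ea` is bounded by the logarithm -/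
lemma abs_Ea_le {N : ℕ} {a : ℕ → ℝ} (ha : Adm N a) (n : ℕ) : |Ea a n| ≤ Real.log n := by
  refine (abs_Ea_le' ha n).trans ?_
  calc ∑ k ∈ n.divisors, |a k| * ArithmeticFunction.vonMangoldt (n / k)
      ≤ ∑ k ∈ n.divisors, ArithmeticFunction.vonMangoldt (n / k) := by
        refine sum_le_sum fun k _ => ?_
        exact mul_le_of_le_one_left ArithmeticFunction.vonMangoldt_nonneg (ha.h1 k)
    _ = ∑ k ∈ n.divisors, ArithmeticFunction.vonMangoldt k :=
        Nat.sum_div_divisors n (fun i => ArithmeticFunction.vonMangoldt i)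
    _ = Real.log n := ArithmeticFunction.vonMangoldt_sum

lemma ebd {N n : ℕ} {a : ℕ → ℝ} (ha : Adm N a) (hn : n ∈ Icc 1 N) : |Ea a n| ≤ Real.log N := by
  rw [mem_Icc] at hn
  refine (abs_Ea_le ha n).trans (Real.log_le_log (by exact_mod_cast hn.1) (by exact_mod_cast hn.2))

lemma ebd' {N n : ℕ} {a : ℕ → ℝ} (ha : Adm N a) (hn : n ≤ N) : |Ea a n| ≤ Real.log N := by
  rcases Nat.eq_zero_or_pos n with h | h
  · subst h
    refine (abs_Ea_le ha 0).trans ?_
    simp only [Nat.cast_zero, Real.log_zero]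
    exact Real.log_natCast_nonneg _
  · exact ebd ha (mem_Icc.2 ⟨h, hn⟩)

/-- the harmonic sum -/
lemma harm (N : ℕ) : ∑ k ∈ Icc 1 N, (1 : ℝ) / k ≤ 1 + Real.log N := by
  have h := harmonic_le_one_add_log N
  rw [harmonic_eq_sum_Icc] at h
  push_cast at h
  simpa only [one_div] using h

/-- the support of the coefficients -/
lemma supp_card {N : ℕ} {a : ℕ → ℝ} (ha : Adm N a) :
    (((Icc 1 N).filter (fun k => a k ≠ 0)).card : ℝ) ≤ (N : ℝ) ^ (1 / 50 : ℝ) := by
  have h0 : (0 : ℝ) ≤ (N : ℝ) ^ (1 / 50 : ℝ) := Real.rpow_nonneg (Nat.cast_nonneg _) _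
  have hsub : ((Icc 1 N).filter (fun k => a k ≠ 0)) ⊆ Icc 1 ⌊(N : ℝ) ^ (1 / 50 : ℝ)⌋₊ := by
    intro k hk
    rw [mem_filter, mem_Icc] at hk
    rw [mem_Icc]
    exact ⟨hk.1.1, Nat.le_floor (ha.h2 k hk.2).2.2⟩
  have h1 := card_le_card hsub
  rw [Nat.card_Icc, Nat.add_sub_cancel] at h1
  have h2 : (((Icc 1 N).filter (fun k => a k ≠ 0)).card : ℝ) ≤ (⌊(N : ℝ) ^ (1 / 50 : ℝ)⌋₊ : ℝ) := by
    exact_mod_cast h1
  exact h2.trans (Nat.floor_le h0)

/-- powers of the logarithm are smaller than powers -/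
lemma ev_lp (k : ℕ) (c e : ℝ) (he : 0 < e) : ∀ᶠ N : ℕ in atTop, c * Real.log N ^ k ≤ (N : ℝ) ^ e := by
  have h := (isLittleO_log_rpow_rpow_atTop (k : ℝ) he).bound (show 0 < 1 / (|c| + 1) by positivity)
  filter_upwards [(tendsto_natCast_atTop_atTop (R := ℝ)).eventually h, eventually_ge_atTop 1] with N h1 h2
  have hL : 0 ≤ Real.log N := Real.log_natCast_nonneg _
  rw [Real.rpow_natCast, Real.norm_of_nonneg (by positivity),
    Real.norm_of_nonneg (Real.rpow_nonneg (Nat.cast_nonneg N) _)] at h1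
  have h7 : c * Real.log N ^ k ≤ (|c| + 1) * Real.log N ^ k := by
    apply mul_le_mul_of_nonneg_right _ (by positivity)
    linarith [le_abs_self c]
  have h8 : (|c| + 1) * Real.log N ^ k ≤ (|c| + 1) * (1 / (|c| + 1) * (N : ℝ) ^ e) :=
    mul_le_mul_of_nonneg_left h1 (by positivity)
  have h9 : (|c| + 1) * (1 / (|c| + 1) * (N : ℝ) ^ e) = (N : ℝ) ^ e := by
    field_simp
  linarith

lemma lt_div_succ {x k : ℕ} (hk : 1 ≤ k) : (x : ℝ) / k < ((x / k : ℕ) : ℝ) + 1 := by
  rw [div_lt_iff₀ (by exact_mod_cast hk)]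
  have h := Nat.lt_mul_div_succ x (by omega : 0 < k)
  rw [mul_comm] at h
  exact_mod_cast h

lemma ev_L (c : ℝ) : ∀ᶠ N : ℕ in atTop, c ≤ Real.log N :=
  (Real.tendsto_log_atTop.comp tendsto_natCast_atTop_atTop).eventually_ge_atTop c

/-- the von Mangoldt function on the integers which are not coprime to `q` -/
lemma ncL {y N q : ℕ} (hN : 1 ≤ Real.log N) (hy : y ≤ N) (hq : 1 ≤ q) (hqN : q ≤ N) :
    ∑ m ∈ (Icc 1 y).filter (fun m => ¬ m.Coprime q), ArithmeticFunction.vonMangoldt m ≤ 6 * Real.log N ^ 3 := by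
  classical
  rcases Nat.eq_zero_or_pos y with h | hy0
  · subst h
    have : (Icc 1 0 : Finset ℕ) = ∅ := by simp
    rw [this, filter_empty, sum_empty]
    positivity
  have h1 : ∑ m ∈ (Icc 1 y).filter (fun m => ¬ m.Coprime q), ArithmeticFunction.vonMangoldt m ≤
      ∑ p ∈ q.primeFactors, ∑ m ∈ (Icc 1 y).filter (fun m => p ∣ m), ArithmeticFunction.vonMangoldt m := by
    calc ∑ m ∈ (Icc 1 y).filter (fun m => ¬ m.Coprime q), ArithmeticFunction.vonMangoldt m
        ≤ ∑ m ∈ (Icc 1 y).filter (fun m => ¬ m.Coprime q), ∑ p ∈ q.primeFactors,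
            (if p ∣ m then ArithmeticFunction.vonMangoldt m else 0) := by
          refine sum_le_sum fun m hm => ?_
          rw [mem_filter] at hm
          obtain ⟨p, hp, hpm, hpq⟩ := Nat.Prime.not_coprime_iff_dvd.1 hm.2
          have h5 := single_le_sum (f := fun p => if p ∣ m then ArithmeticFunction.vonMangoldt m else 0)
            (s := q.primeFactors) (fun i _ => by
              show (0 : ℝ) ≤ if i ∣ m then ArithmeticFunction.vonMangoldt m else 0
              split_ifs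
              · exact ArithmeticFunction.vonMangoldt_nonneg
              · exact le_rfl) (Nat.mem_primeFactors.2 ⟨hp, hpq, by omega⟩)
          simp only [if_pos hpm] at h5
          exact h5
      _ ≤ ∑ m ∈ Icc 1 y, ∑ p ∈ q.primeFactors, (if p ∣ m then ArithmeticFunction.vonMangoldt m else 0) := by
          refine sum_le_sum_of_subset_of_nonneg (filter_subset _ _) fun m _ _ => sum_nonneg fun p _ => ?_
          split_ifs
          · exact ArithmeticFunction.vonMangoldt_nonneg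
          · exact le_rfl
      _ = _ := by
          rw [sum_comm]
          exact sum_congr rfl fun p _ => (sum_filter _ _).symm
  have hly : Real.log y ≤ Real.log N := Real.log_le_log (by exact_mod_cast hy0) (by exact_mod_cast hy)
  have hly0 : 0 ≤ Real.log y := Real.log_natCast_nonneg _
  have h2 : ∀ p ∈ q.primeFactors, ∑ m ∈ (Icc 1 y).filter (fun m => p ∣ m), ArithmeticFunction.vonMangoldt m ≤
      3 * Real.log N ^ 2 := by
    intro p hp
    refine (lam_mult_prime y p (Nat.prime_of_mem_primeFactors hp)).trans ?_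
    have h3 := natlog_le y hy0
    calc ((Nat.log 2 y : ℝ) + 1) * Real.log y ≤ (2 * Real.log N + Real.log N) * Real.log N := by
          apply mul_le_mul _ hly hly0 (by linarith)
          linarith
      _ = _ := by ring
  refine (h1.trans (sum_le_sum h2)).trans ?_
  rw [sum_const, nsmul_eq_mul]
  have h4 := card_pf_le hq hqN
  calc (q.primeFactors.card : ℝ) * (3 * Real.log N ^ 2) ≤ (2 * Real.log N) * (3 * Real.log N ^ 2) :=
        mul_le_mul_of_nonneg_right h4 (by positivity)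
    _ = _ := by ring

end Pool.Agent.Helper34.GE
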